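import Pool.Agent.K9h44.PL.Sparse
import Pool.Agent.Y316.Pisot.Ht
import Pool.Agent.R889.PZ.NBase

/-!
Eigenvectors of compositions of substitutions with a frequent letter; the geometric coincidence
condition.
-/

set_option autoImplicit false

namespace Pool.Agent.K9h44.PL
open Pool.Agent.H812R2.PI Pool.Agent.TH100.Pisot Pool.Agent.Y316.Pisot Pool.Agent.R889.PZ
open scoped BigOperators

variable {m : ℕ} {w : Fin (m+1) → ℕ}

theorem ne_nil_of_det {τ : Fin (m+1) → List (Fin (m+1))} (h : (inc τ).det ≠ 0) (j : Fin (m+1)) :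
    τ j ≠ [] := by
  intro hj
  apply h
  apply Matrix.det_eq_zero_of_column_eq_zero j
  intro i
  simp [inc, hj]

/-- the weights are positive -/
theorem w_pos {τ : Fin (m+1) → List (Fin (m+1))} (hs : Sparse w τ) (h : (inc τ).det ≠ 0) :
    ∀ (k : ℕ) (j : Fin (m+1)), j ≠ 0 → m - (j : ℕ) ≤ k → 1 ≤ w j := by
  intro k
  induction k with
  | zero =>
    intro j hj hk
    by_contra hcon
    have hw0 : w j = 0 := by omega
    have h1 := hs.wt j hj
    rw [hw0] at h1
    obtain ⟨c, t, hct⟩ := List.exists_cons_of_ne_nil (ne_nil_of_det h j)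
    have hc : c ∈ τ j := by rw [hct]; exact List.mem_cons_self ..
    by_cases hc0 : c = 0
    · subst hc0
      have := List.count_pos_iff.2 hc
      omega
    · have h2 : j < c := hs.tri j hj c hc hc0
      have h3 : (j : ℕ) < c := h2
      have := c.2
      omega
  | succ k ih =>
    intro j hj hk
    by_contra hcon
    have hw0 : w j = 0 := by omega
    have h1 := hs.wt j hj
    rw [hw0] at h1
    obtain ⟨c, t, hct⟩ := List.exists_cons_of_ne_nil (ne_nil_of_det h j)
    have hc : c ∈ τ j := by rw [hct]; exact List.mem_cons_self ..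
    have hcnt := List.count_pos_iff.2 hc
    by_cases hc0 : c = 0
    · subst hc0
      omega
    · have h2 : j < c := hs.tri j hj c hc hc0
      have h3 : (j : ℕ) < c := h2
      have h4 := ih c hc0 (by omega)
      have h5 : w c * (τ j).count c ≤ ∑ i ∈ Finset.univ.erase 0, w i * (τ j).count i :=
        Finset.single_le_sum (f := fun i => w i * (τ j).count i) (fun i _ => Nat.zero_le _)
          (Finset.mem_erase.2 ⟨hc0, Finset.mem_univ c⟩)
      have h6 : 1 ≤ w c * (τ j).count c := Nat.mul_pos (by omega) hcnt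
      omega

/-! ### heights -/

/-- bounds for a positive functional -/
def HB (C : ℝ) (w : Fin (m+1) → ℕ) (φ : Fin (m+1) → ℝ) : Prop :=
  (∀ i, 0 < φ i) ∧ ∀ j, j ≠ 0 → φ j ≤ C * w j * φ 0

theorem hh_ab (φ : Fin (m+1) → ℝ) (u : List (Fin (m+1))) :
    hh φ (ab u) = φ 0 * (u.count 0 : ℝ) + ∑ i ∈ Finset.univ.erase 0, φ i * (u.count i : ℝ) := by
  unfold hh
  rw [← Finset.add_sum_erase _ _ (Finset.mem_univ (0 : Fin (m+1)))]
  simp [ab]

theorem HB.mono {C C' : ℝ} {φ : Fin (m+1) → ℝ} (h : HB C w φ) (hC : C ≤ C') : HB C' w φ := by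
  refine ⟨h.1, fun j hj => (h.2 j hj).trans ?_⟩
  have h1 := (h.1 0).le
  have h2 : (0 : ℝ) ≤ w j := Nat.cast_nonneg _
  exact mul_le_mul_of_nonneg_right (mul_le_mul_of_nonneg_right hC h2) h1

theorem HB.step {C : ℝ} {φ : Fin (m+1) → ℝ} (h : HB C w φ) (hC : 1 ≤ C)
    {τ : Fin (m+1) → List (Fin (m+1))} (hs : Sparse w τ) (hne : ∀ j, τ j ≠ []) :
    HB (C / 4) w (pull φ τ) := by
  have h0 := h.1 0
  constructor
  · intro j
    obtain ⟨a, u, hu⟩ := List.exists_cons_of_ne_nil (hne j)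
    change 0 < hh φ (ab (τ j))
    rw [hu, ab_cons, hh_add, hh_ev]
    linarith [h.1 a, hh_ab_nonneg h.1 u]
  · intro j hj
    have h1 : pull φ τ j ≤ C * φ 0 * w j := by
      change hh φ (ab (τ j)) ≤ _
      rw [hh_ab]
      have h2 : ∑ i ∈ Finset.univ.erase 0, φ i * ((τ j).count i : ℝ) ≤
          ∑ i ∈ Finset.univ.erase 0, C * φ 0 * (w i * ((τ j).count i : ℝ)) := by
        refine Finset.sum_le_sum fun i hi => ?_
        have h3 := h.2 i (Finset.ne_of_mem_erase hi)
        have h4 : (0 : ℝ) ≤ ((τ j).count i : ℝ) := Nat.cast_nonneg _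
        calc φ i * ((τ j).count i : ℝ) ≤ C * w i * φ 0 * ((τ j).count i : ℝ) :=
              mul_le_mul_of_nonneg_right h3 h4
          _ = _ := by ring
      rw [← Finset.mul_sum] at h2
      have h3 : φ 0 * ((τ j).count 0 : ℝ) ≤ C * φ 0 * ((τ j).count 0 : ℝ) := by
        have h4 : (0 : ℝ) ≤ ((τ j).count 0 : ℝ) := Nat.cast_nonneg _
        have h5 : φ 0 ≤ C * φ 0 := by nlinarith
        exact mul_le_mul_of_nonneg_right h5 h4
      have h4 : (((τ j).count 0 : ℕ) : ℝ) + ∑ i ∈ Finset.univ.erase 0,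
          ((w i : ℝ) * ((τ j).count i : ℝ)) ≤ w j := by
        exact_mod_cast hs.wt j hj
      have h5 : C * φ 0 * ((((τ j).count 0 : ℕ) : ℝ) + ∑ i ∈ Finset.univ.erase 0,
          ((w i : ℝ) * ((τ j).count i : ℝ))) ≤ C * φ 0 * w j :=
        mul_le_mul_of_nonneg_left h4 (by positivity)
      linarith
    have h2 : 4 * φ 0 ≤ pull φ τ 0 := by
      change _ ≤ hh φ (ab (τ 0))
      rw [hh_ab]
      have h3 : 0 ≤ ∑ i ∈ Finset.univ.erase 0, φ i * ((τ 0).count i : ℝ) :=
        Finset.sum_nonneg fun i _ => mul_nonneg (h.1 i).le (Nat.cast_nonneg _)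
      have h4 : (4 : ℝ) ≤ ((τ 0).count 0 : ℝ) := by
        have := hs.dom
        exact_mod_cast (show 4 ≤ (τ 0).count 0 by omega)
      nlinarith
    have h3 : (0 : ℝ) ≤ C * w j := by positivity
    calc pull φ τ j ≤ C * φ 0 * w j := h1
      _ = C * w j / 4 * (4 * φ 0) := by ring
      _ ≤ C * w j / 4 * pull φ τ 0 := mul_le_mul_of_nonneg_left h2 (by linarith)
      _ = C / 4 * w j * pull φ τ 0 := by ring

theorem pull_nil (φ : Fin (m+1) → ℝ) : pull φ (compList []) = φ := by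
  funext j
  simp [pull, compList, ab_single, hh_ev]

theorem HB.list (l : List (Fin (m+1) → List (Fin (m+1))))
    (hl : ∀ τ ∈ l, Sparse w τ ∧ ∀ j, τ j ≠ []) : ∀ (C : ℝ) (φ : Fin (m+1) → ℝ), 1 ≤ C →
    HB C w φ → l ≠ [] → HB (C / 4) w (pull φ (compList l)) := by
  induction l with
  | nil => intro C φ _ _ h; exact absurd rfl h
  | cons τ l ih =>
    intro C φ hC h _
    obtain ⟨h1, h2⟩ := hl τ (List.mem_cons_self ..)
    have h3 := h.step hC h1 h2
    simp only [compList]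
    rw [pull_comp]
    by_cases hl0 : l = []
    · rw [hl0, pull_nil]
      exact h3
    · have h4 := ih (fun τ' h => hl τ' (List.mem_cons_of_mem _ h)) (max 1 (C / 4)) _
        (le_max_left _ _) (h3.mono (le_max_right _ _)) hl0
      refine h4.mono ?_
      have : max 1 (C / 4) ≤ C := max_le hC (by linarith)
      linarith

theorem pull_ell {S : Fin (m+1) → List (Fin (m+1))} (P : PD (inc S)) :
    pull P.ell S = fun j => P.lam * P.ell j := by
  funext j
  change P.ht (ab (S j)) = _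
  rw [ab_subst, ht_mulVec, ht_ev]

/-- the heights of the letters different from `0` are small -/
theorem ell_HB (hm : 1 ≤ m) (hw : ∀ j, j ≠ 0 → 1 ≤ w j)
    (l : List (Fin (m+1) → List (Fin (m+1)))) (hne : l ≠ [])
    (hl : ∀ τ ∈ l, Sparse w τ ∧ ∀ j, τ j ≠ []) (P : PD (inc (compList l))) :
    HB (1 / 4) w P.ell := by
  have hlam : 0 < P.lam := lt_trans one_pos P.lam_gt
  have hscale : ∀ C, HB C w (fun j => P.lam * P.ell j) → HB C w P.ell := by
    intro C h
    refine ⟨P.ell_pos, fun j hj => ?_⟩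
    have h1 := h.2 j hj
    refine le_of_mul_le_mul_left (a := P.lam) ?_ hlam
    linarith
  have h10 : (1 : Fin (m+1)) ≠ 0 := by
    intro h
    have h1 := congrArg Fin.val h
    rw [Fin.val_one', Fin.val_zero, Nat.mod_eq_of_lt (by omega)] at h1
    exact one_ne_zero h1
  obtain ⟨j0, hj0, hmax⟩ := Finset.exists_max_image (Finset.univ.erase (0 : Fin (m+1)))
    (fun j => P.ell j / w j) ⟨1, Finset.mem_erase.2 ⟨h10, Finset.mem_univ _⟩⟩
  have hj0' := Finset.ne_of_mem_erase hj0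
  have hwj : ∀ j, j ≠ 0 → (0 : ℝ) < w j := fun j hj => by exact_mod_cast hw j hj
  obtain ⟨C, hC⟩ : ∃ C, C = P.ell j0 / w j0 / P.ell 0 := ⟨_, rfl⟩
  have h0 := P.ell_pos 0
  have hHB : HB C w P.ell := by
    refine ⟨P.ell_pos, fun j hj => ?_⟩
    have h1 := hmax j (Finset.mem_erase.2 ⟨hj, Finset.mem_univ _⟩)
    rw [div_le_iff₀ (hwj j hj)] at h1
    rw [hC]
    calc P.ell j ≤ P.ell j0 / w j0 * w j := h1
      _ = _ := by field_simp
  have hC1 : C ≤ 1 := by
    by_contra hcon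
    push Not at hcon
    have h1 := HB.list l hl C P.ell hcon.le hHB hne
    rw [pull_ell] at h1
    have h2 := (hscale _ h1).2 j0 hj0'
    have h3 : P.ell j0 = C * w j0 * P.ell 0 := by
      rw [hC]
      have := hwj j0 hj0'
      field_simp
    have h4 := P.ell_pos j0
    have h5 : C / 4 * w j0 * P.ell 0 = P.ell j0 / 4 := by rw [h3]; ring
    rw [h5] at h2
    linarith
  have h1 := HB.list l hl 1 P.ell le_rfl (hHB.mono hC1) hne
  rw [pull_ell] at h1
  exact hscale _ h1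

/-! ### frequencies -/

theorem u_step {τ : Fin (m+1) → List (Fin (m+1))} (hs : Sparse w τ) (y : Fin (m+1) → ℝ)
    (hy : ∀ i, 0 ≤ y i) (hy0 : 0 < y 0) {C : ℝ} (hC : 1 ≤ C)
    (h : ∑ i ∈ Finset.univ.erase 0, (w i : ℝ) * y i ≤ C * y 0) :
    (∀ i, 0 ≤ act (inc τ) y i) ∧ 0 < act (inc τ) y 0 ∧
      ∑ i ∈ Finset.univ.erase 0, (w i : ℝ) * act (inc τ) y i < C * act (inc τ) y 0 := by
  have hcnt : ∀ i j, ((inc τ i j : ℤ) : ℝ) = ((τ j).count i : ℝ) := fun i j => by simp [inc]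
  have h1 : ∀ i, 0 ≤ act (inc τ) y i := fun i =>
    Finset.sum_nonneg fun j _ => mul_nonneg (by rw [hcnt]; exact Nat.cast_nonneg _) (hy j)
  have h2 : ((τ 0).count 0 : ℝ) * y 0 ≤ act (inc τ) y 0 := by
    rw [← hcnt]
    exact Finset.single_le_sum (f := fun j => ((inc τ 0 j : ℤ) : ℝ) * y j)
      (fun j _ => mul_nonneg (by rw [hcnt]; exact Nat.cast_nonneg _) (hy j)) (Finset.mem_univ 0)
  obtain ⟨A, hA⟩ : ∃ A : ℝ, A = ((∑ i ∈ Finset.univ.erase 0, w i * (τ 0).count i : ℕ) : ℝ) :=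
    ⟨_, rfl⟩
  have hA0 : 0 ≤ A := by rw [hA]; exact Nat.cast_nonneg _
  have hdom : A + 4 ≤ ((τ 0).count 0 : ℝ) := by
    rw [hA]; exact_mod_cast hs.dom
  have h3 : ∑ i ∈ Finset.univ.erase 0, (w i : ℝ) * act (inc τ) y i =
      ∑ j, (∑ i ∈ Finset.univ.erase 0, (w i : ℝ) * ((τ j).count i : ℝ)) * y j := by
    unfold act
    simp only [Finset.mul_sum, Finset.sum_mul]
    rw [Finset.sum_comm]
    refine Finset.sum_congr rfl fun j _ => Finset.sum_congr rfl fun i _ => ?_
    rw [hcnt]; ring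
  have h4 : ∑ j, (∑ i ∈ Finset.univ.erase 0, (w i : ℝ) * ((τ j).count i : ℝ)) * y j ≤
      A * y 0 + ∑ j ∈ Finset.univ.erase 0, (w j : ℝ) * y j := by
    rw [← Finset.add_sum_erase _ _ (Finset.mem_univ (0 : Fin (m+1)))]
    refine add_le_add (le_of_eq ?_) (Finset.sum_le_sum fun j hj => ?_)
    · rw [hA]; push_cast; rfl
    · refine mul_le_mul_of_nonneg_right ?_ (hy j)
      have h5 := hs.wt j (Finset.ne_of_mem_erase hj)
      have h6 : ∑ i ∈ Finset.univ.erase 0, w i * (τ j).count i ≤ w j := by omega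
      exact_mod_cast h6
  have h5 : (A + 4) * y 0 ≤ ((τ 0).count 0 : ℝ) * y 0 := mul_le_mul_of_nonneg_right hdom hy0.le
  refine ⟨h1, by nlinarith, ?_⟩
  rw [h3]
  have h6 : C * ((A + 4) * y 0) ≤ C * act (inc τ) y 0 :=
    mul_le_mul_of_nonneg_left (h5.trans h2) (by linarith)
  have h7 : A * y 0 ≤ C * (A * y 0) := by nlinarith [mul_nonneg hA0 hy0.le]
  have h8 : 0 < C * y 0 := by positivity
  linarith

theorem u_list (l : List (Fin (m+1) → List (Fin (m+1)))) (hl : ∀ τ ∈ l, Sparse w τ)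
    (y : Fin (m+1) → ℝ) (hy : ∀ i, 0 ≤ y i) (hy0 : 0 < y 0) {C : ℝ} (hC : 1 ≤ C)
    (h : ∑ i ∈ Finset.univ.erase 0, (w i : ℝ) * y i ≤ C * y 0) (hne : l ≠ []) :
    (∀ i, 0 ≤ act (inc (compList l)) y i) ∧ 0 < act (inc (compList l)) y 0 ∧
      ∑ i ∈ Finset.univ.erase 0, (w i : ℝ) * act (inc (compList l)) y i <
        C * act (inc (compList l)) y 0 := by
  induction l with
  | nil => exact absurd rfl hne
  | cons τ l ih =>
    have hτ := hl τ (List.mem_cons_self ..)
    have hact : ∀ S T : Fin (m+1) → List (Fin (m+1)), act (inc (comp S T)) y =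
        act (inc S) (act (inc T) y) := by
      intro S T
      rw [inc_comp]
      exact act_mul _ _ _
    simp only [compList]
    rw [hact]
    by_cases hl0 : l = []
    · subst hl0
      have h1 : act (inc (compList ([] : List (Fin (m+1) → List (Fin (m+1)))))) y = y := by
        simp only [compList]
        rw [JComp_inc_id]
        exact act_one y
      rw [h1]
      exact u_step hτ y hy hy0 hC h
    · obtain ⟨h1, h2, h3⟩ := ih (fun τ' h => hl τ' (List.mem_cons_of_mem _ h)) hl0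
      exact u_step hτ _ h1 h2 hC h3.le

/-- the letters different from `0` are rare -/
theorem u_lt (l : List (Fin (m+1) → List (Fin (m+1)))) (hne : l ≠ [])
    (hl : ∀ τ ∈ l, Sparse w τ) (u : Fin (m+1) → ℝ) (hu : ∀ i, 0 < u i) (lam : ℝ) (hlam : 0 < lam)
    (hM : act (inc (compList l)) u = fun i => lam * u i) :
    ∑ i ∈ Finset.univ.erase 0, (w i : ℝ) * u i < u 0 := by
  by_contra hcon
  push Not at hcon
  obtain ⟨C, hC⟩ : ∃ C, C = (∑ i ∈ Finset.univ.erase 0, (w i : ℝ) * u i) / u 0 := ⟨_, rfl⟩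
  have h0 := hu 0
  have h1 : ∑ i ∈ Finset.univ.erase 0, (w i : ℝ) * u i = C * u 0 := by rw [hC]; field_simp
  have hC1 : 1 ≤ C := by
    rw [hC, le_div_iff₀ h0, one_mul]
    exact hcon
  obtain ⟨-, -, h2⟩ := u_list l hl u (fun i => (hu i).le) h0 hC1 h1.le hne
  rw [hM] at h2
  have h3 : ∑ i ∈ Finset.univ.erase 0, (w i : ℝ) * (lam * u i) =
      lam * ∑ i ∈ Finset.univ.erase 0, (w i : ℝ) * u i := by
    rw [Finset.mul_sum]
    exact Finset.sum_congr rfl fun i _ => by ring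
  simp only at h2
  rw [h3, h1] at h2
  nlinarith

/-- the letter `0` covers at least four fifths of the tiling -/
theorem frac_ge {M : Matrix (Fin (m+1)) (Fin (m+1)) ℤ} (P : PD M) (h1 : HB (1 / 4) w P.ell)
    (h2 : ∑ i ∈ Finset.univ.erase 0, (w i : ℝ) * P.u i < P.u 0) : 4 / 5 ≤ frac P := by
  unfold frac
  rw [le_div_iff₀ (den_pos P), ← Finset.add_sum_erase _ _ (Finset.mem_univ (0 : Fin (m+1)))]
  have h3 : ∑ i ∈ Finset.univ.erase 0, P.ell i * P.u i ≤
      ∑ i ∈ Finset.univ.erase 0, P.ell 0 / 4 * ((w i : ℝ) * P.u i) := by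
    refine Finset.sum_le_sum fun i hi => ?_
    have h4 := mul_le_mul_of_nonneg_right (h1.2 i (Finset.ne_of_mem_erase hi)) (P.u_pos i).le
    linarith
  rw [← Finset.mul_sum] at h3
  have h4 := P.ell_pos 0
  have h5 : P.ell 0 / 4 * ∑ i ∈ Finset.univ.erase 0, (w i : ℝ) * P.u i ≤
      P.ell 0 / 4 * P.u 0 := mul_le_mul_of_nonneg_left h2.le (by linarith)
  linarith

end Pool.Agent.K9h44.PL
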