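import Pool.Agent.K9h44.PL.Dens

/-!
Expansions of minimal weight and coincidences.
-/

set_option autoImplicit false

namespace Pool.Agent.K9h44.PL
open Pool.Agent.H812R2.PI Pool.Agent.TH100.Pisot Pool.Agent.Y316.Pisot Pool.Agent.R889.PZ
open scoped BigOperators

variable {m : ℕ}

/-- differences of the positions of the letter `0` in a word -/
def QQ (w : List (Fin (m+1))) : Set (Fin (m+1) → ℤ) :=
  {z | ∃ x y, (x, (0 : Fin (m+1))) ∈ edges 0 w ∧ (y, (0 : Fin (m+1))) ∈ edges 0 w ∧ z = x - y}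

theorem QQ_neg {w : List (Fin (m+1))} {z : Fin (m+1) → ℤ} (h : z ∈ QQ w) : -z ∈ QQ w := by
  obtain ⟨x, y, hx, hy, rfl⟩ := h
  exact ⟨y, x, hy, hx, by rw [neg_sub]⟩

theorem QQ_comp {S T : Fin (m+1) → List (Fin (m+1))} {z1 z2 : Fin (m+1) → ℤ}
    (h1 : z1 ∈ QQ (T 0)) (h2 : z2 ∈ QQ (S 0)) :
    (inc S).mulVec z1 + z2 ∈ QQ (comp S T 0) := by
  obtain ⟨x1, y1, hx1, hy1, rfl⟩ := h1
  obtain ⟨x2, y2, hx2, hy2, rfl⟩ := h2
  refine ⟨x2 + (inc S).mulVec x1, y2 + (inc S).mulVec y1, JComp_mem0 hx1 hx2,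
    JComp_mem0 hy1 hy2, ?_⟩
  rw [Matrix.mulVec_sub]
  abel

/-- heights of the elements of `QQ` -/
theorem QQ_ht {M : Matrix (Fin (m+1)) (Fin (m+1)) ℤ} (P : PD M) {w : List (Fin (m+1))}
    {z : Fin (m+1) → ℤ} (h : z ∈ QQ w) : |P.ht z| < P.ht (ab w) := by
  have key : ∀ x, (x, (0 : Fin (m+1))) ∈ edges 0 w → 0 ≤ P.ht x ∧
      P.ht x + P.ell 0 ≤ P.ht (ab w) := by
    intro x hx
    obtain ⟨k, hk, hxk⟩ := mem_edges.1 hx
    rw [Prod.mk.injEq, zero_add] at hxk
    refine ⟨?_, ?_⟩
    · rw [hxk.1]; exact UTot_ht_nonneg P _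
    · have h1 := UTot_ht_take P w k (k+1) (Nat.lt_succ_self k) hk
      have h2 : P.ht (ab (w.take (k+1))) ≤ P.ht (ab w) := by
        have h3 : ab w = ab (w.take (k+1)) + ab (w.drop (k+1)) := by
          rw [← ab_append, List.take_append_drop]
        rw [h3, ht_add]
        linarith [UTot_ht_nonneg P (w.drop (k+1))]
      rw [← hxk.1, ← hxk.2] at h1
      linarith
  obtain ⟨x, y, hx, hy, rfl⟩ := h
  obtain ⟨h1, h2⟩ := key x hx
  obtain ⟨h3, h4⟩ := key y hy
  have h5 : P.ht (x - y) = P.ht x - P.ht y := by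
    have h := ht_add P (x - y) y
    rw [sub_add_cancel] at h
    linarith
  have h6 := P.ell_pos 0
  rw [h5, abs_lt]
  constructor <;> linarith

/-- composition of the first `k` members of a sequence of substitutions -/
def cps (τ : ℕ → Fin (m+1) → List (Fin (m+1))) (k : ℕ) : Fin (m+1) → List (Fin (m+1)) :=
  compList ((List.range k).map τ)

/-- image of the unit vector `0` -/
def pv (τ : ℕ → Fin (m+1) → List (Fin (m+1))) (k : ℕ) : Fin (m+1) → ℤ :=
  (inc (cps τ k)).mulVec (ev 0)

/-- value of an expansion -/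
def val (τ : ℕ → Fin (m+1) → List (Fin (m+1))) (E : ℕ → ℤ) (n : ℕ) : Fin (m+1) → ℤ :=
  ∑ k ∈ Finset.range n, E k • pv τ k

section seq
variable (τ : ℕ → Fin (m+1) → List (Fin (m+1)))

theorem comp_id (S : Fin (m+1) → List (Fin (m+1))) : comp S (fun a => [a]) = S := by
  funext a
  simp [comp, ext]

theorem cps_zero : cps τ 0 = fun a => [a] := rfl

theorem cps_succ (k : ℕ) : cps τ (k+1) = comp (cps τ k) (τ k) := by
  unfold cps
  rw [List.range_succ, List.map_append, compList_append]
  simp only [List.map_cons, List.map_nil, compList]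
  rw [comp_id]

theorem inc_cps_succ (k : ℕ) : inc (cps τ (k+1)) = inc (cps τ k) * inc (τ k) := by
  rw [cps_succ, inc_comp]

theorem pv_succ (k : ℕ) :
    pv τ (k+1) = (inc (cps τ k)).mulVec ((inc (τ k)).mulVec (ev 0)) := by
  unfold pv
  rw [inc_cps_succ, Matrix.mulVec_mulVec]

theorem pv_zero : pv τ 0 = ev 0 := by
  unfold pv
  rw [cps_zero, JComp_inc_id, Matrix.one_mulVec]

theorem ab_cps (k : ℕ) : ab (cps τ k 0) = pv τ k := ab_subst _ _

theorem val_succ (E : ℕ → ℤ) (n : ℕ) : val τ E (n+1) = val τ E n + E n • pv τ n := by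
  unfold val
  rw [Finset.sum_range_succ]

theorem mulVec_zsmul (A : Matrix (Fin (m+1)) (Fin (m+1)) ℤ) (c : ℤ) (v : Fin (m+1) → ℤ) :
    A.mulVec (c • v) = c • A.mulVec v := Matrix.mulVec_smul A c v

/-- the carry sequence -/
theorem carry (E : ℕ → ℤ) (n : ℕ) (hcap : ∀ k < n, ∀ x : ℤ, |x - E k| ≤ 1 → ∃ ε : ℤ, |ε| ≤ 1 ∧
      x • ev 0 + ε • (inc (τ k)).mulVec (ev 0) ∈ QQ (τ k 0)) :
    ∃ ε : ℤ, |ε| ≤ 1 ∧ val τ E n + ε • pv τ n ∈ QQ (cps τ n 0) := by
  induction n with
  | zero =>
    refine ⟨0, by simp, ?_⟩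
    rw [cps_zero]
    refine ⟨0, 0, by simp [edges], by simp [edges], ?_⟩
    simp [val]
  | succ n ih =>
    obtain ⟨ε, hε, h1⟩ := ih fun k hk => hcap k (by omega)
    obtain ⟨ε', hε', h2⟩ := hcap n (Nat.lt_succ_self n) (E n - ε) (by
      rw [show E n - ε - E n = -ε by ring, abs_neg]; exact hε)
    refine ⟨ε', hε', ?_⟩
    have h3 := QQ_comp (S := cps τ n) (T := τ n) h2 h1
    rw [cps_succ]
    convert h3 using 1
    rw [Matrix.mulVec_add, mulVec_zsmul, mulVec_zsmul, ← pv_succ, val_succ]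
    change _ = (E n - ε) • pv τ n + _ + _
    rw [sub_smul]
    abel

variable {r : ℕ} (hper : ∀ k, τ (k + r) = τ k)
include hper

theorem map_range_add (k : ℕ) :
    (List.range (r + k)).map τ = (List.range r).map τ ++ (List.range k).map τ := by
  rw [List.range_add, List.map_append, List.map_map]
  congr 1
  apply List.map_congr_left
  intro x _
  simp only [Function.comp_apply]
  rw [show r + x = x + r from Nat.add_comm r x, hper]

theorem cps_add (k : ℕ) : cps τ (r + k) = comp (cps τ r) (cps τ k) := by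
  unfold cps
  rw [map_range_add τ hper, compList_append]

theorem cps_mul (n : ℕ) : cps τ (n * r) = iter (cps τ r) n := by
  induction n with
  | zero =>
    rw [Nat.zero_mul, cps_zero]
    rfl
  | succ n ih =>
    rw [Nat.succ_mul, Nat.add_comm (n * r) r, cps_add τ hper, ih]
    funext a
    rw [iter_succ]
    rfl

theorem cps_mul_add (n k : ℕ) : cps τ (n * r + k) = comp (iter (cps τ r) n) (cps τ k) := by
  induction n with
  | zero =>
    rw [Nat.zero_mul, Nat.zero_add]
    funext a
    have h : iter (cps τ r) 0 = fun a => [a] := rfl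
    rw [h]
    simp [comp, ext]
  | succ n ih =>
    rw [Nat.succ_mul, Nat.add_comm (n * r) r, Nat.add_assoc, cps_add τ hper, ih, ← comp_assoc]
    congr 1
    funext a
    rw [iter_succ]
    rfl

theorem pv_mul_add (n k : ℕ) : pv τ (n * r + k) = ((inc (cps τ r)) ^ n).mulVec (pv τ k) := by
  unfold pv
  rw [cps_mul_add τ hper, inc_comp, inc_iter, Matrix.mulVec_mulVec]

theorem tau_mul_add (n k : ℕ) : τ (n * r + k) = τ k := by
  induction n with
  | zero => rw [Nat.zero_mul, Nat.zero_add]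
  | succ n ih =>
    rw [Nat.succ_mul, show n * r + r + k = (n * r + k) + r by ring, hper, ih]

theorem val_shift (E : ℕ → ℤ) (s N : ℕ) :
    val τ (fun k => if k < s * r then 0 else E (k - s * r)) (s * r + N) =
      ((inc (cps τ r)) ^ s).mulVec (val τ E N) := by
  unfold val
  rw [Finset.sum_range_add]
  have h1 : ∑ k ∈ Finset.range (s * r),
      (if k < s * r then (0:ℤ) else E (k - s * r)) • pv τ k = 0 := by
    apply Finset.sum_eq_zero
    intro k hk
    rw [if_pos (Finset.mem_range.1 hk), zero_smul]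
  rw [h1, zero_add, Matrix.mulVec_sum]
  refine Finset.sum_congr rfl fun k _ => ?_
  dsimp only
  rw [if_neg (by omega), Nat.add_sub_cancel_left, pv_mul_add τ hper, mulVec_zsmul]

omit hper in
/-- a relation applied to an expansion -/
theorem apply_rel (E R : ℕ → ℤ) (K N : ℕ) (hK : K + 1 < N) (a t : ℤ)
    (hR : val τ R K = pv τ (K+1) - a • pv τ K) :
    val τ (fun k => E k + t * ((if k = K+1 then 1 else 0) - (if k = K then a else 0) -
      (if k < K then R k else 0))) N = val τ E N := by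
  have h1 : ∑ k ∈ Finset.range N, ((if k = K+1 then (1:ℤ) else 0)) • pv τ k = pv τ (K+1) := by
    rw [Finset.sum_eq_single (K+1)]
    · simp
    · intro b _ hb
      simp [hb]
    · intro h
      exact absurd (Finset.mem_range.2 hK) h
  have h2 : ∑ k ∈ Finset.range N, ((if k = K then a else 0)) • pv τ k = a • pv τ K := by
    rw [Finset.sum_eq_single K]
    · simp
    · intro b _ hb
      simp [hb]
    · intro h
      exact absurd (Finset.mem_range.2 (by omega)) h
  have h3 : ∑ k ∈ Finset.range N, ((if k < K then R k else 0)) • pv τ k = val τ R K := by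
    unfold val
    have h4 : Finset.range K ⊆ Finset.range N := Finset.range_subset_range.2 (by omega)
    rw [← Finset.sum_subset h4]
    · refine Finset.sum_congr rfl fun k hk => ?_
      rw [if_pos (Finset.mem_range.1 hk)]
    · intro k _ hk
      rw [if_neg (by rwa [Finset.mem_range] at hk), zero_smul]
  have h4 : val τ (fun k => E k + t * ((if k = K+1 then 1 else 0) - (if k = K then a else 0) -
      (if k < K then R k else 0))) N = val τ E N + t • (pv τ (K+1) - a • pv τ K - val τ R K) := by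
    rw [← h1, ← h2, ← h3]
    unfold val
    rw [← Finset.sum_sub_distrib, ← Finset.sum_sub_distrib, Finset.smul_sum,
      ← Finset.sum_add_distrib]
    refine Finset.sum_congr rfl fun k _ => ?_
    rw [add_smul, mul_smul, sub_smul, sub_smul]
  rw [h4, hR, sub_self, smul_zero, add_zero]

end seq

end Pool.Agent.K9h44.PL
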