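import Pool.Agent.K9h44.PL.Core

/-!
Digits of expansions of minimal cost, the cost of a digit depends on its place.
-/

set_option autoImplicit false

namespace Pool.Agent.K9h44.PL
open Pool.Agent.H812R2.PI Pool.Agent.TH100.Pisot Pool.Agent.Y316.Pisot Pool.Agent.R889.PZ
open scoped BigOperators

variable {m : ℕ}

/-- the arithmetic of one reduction -/
theorem reduce_cost (e a q Q : ℤ) (hq : 0 < q) (hA : Q < q * a)
    (h : ∀ t : ℤ, |t| = 1 → q * |e| ≤ q * |e - t * a| + Q) : 2 * (q * |e|) ≤ q * a + Q := by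
  have ha : 0 ≤ Q → 0 < a := fun hQ => by
    by_contra hcon
    push Not at hcon
    nlinarith
  rcases le_total 0 e with he | he
  · have h1 := h 1 (by simp)
    rw [one_mul, abs_of_nonneg he] at h1
    rw [abs_of_nonneg he]
    rcases abs_cases (e - a) with ⟨h2, h3⟩ | ⟨h2, h3⟩ <;> rw [h2] at h1 <;> nlinarith
  · have h1 := h (-1) (by simp)
    rw [neg_one_mul, abs_of_nonpos he] at h1
    rw [abs_of_nonpos he]
    rcases abs_cases (e - -a) with ⟨h2, h3⟩ | ⟨h2, h3⟩ <;> rw [h2] at h1 <;> nlinarith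

/-- cost of a modified expansion -/
theorem cost_mod (q : ℕ → ℤ) (hq : ∀ k, 0 < q k) (E R : ℕ → ℤ) (K N : ℕ) (hK : K + 1 < N)
    (a Q t : ℤ) (ht : |t| = 1)
    (hR : q (K+1) + ∑ k ∈ Finset.range K, q k * |R k| ≤ Q) :
    ∑ k ∈ Finset.range N, q k * |E k + t * ((if k = K+1 then 1 else 0) -
      (if k = K then a else 0) - (if k < K then R k else 0))| ≤
      ∑ k ∈ Finset.range N, q k * |E k| + (q K * |E K - t * a| - q K * |E K| + Q) := by
  have h1 : ∑ k ∈ Finset.range N, (if k = K+1 then q k else 0) = q (K+1) := by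
    rw [Finset.sum_eq_single (K+1)]
    · simp
    · intro b _ hb
      simp [hb]
    · intro h
      exact absurd (Finset.mem_range.2 hK) h
  have h2 : ∑ k ∈ Finset.range N, (if k = K then q K * |E K - t * a| - q K * |E K| else 0) =
      q K * |E K - t * a| - q K * |E K| := by
    rw [Finset.sum_eq_single K]
    · simp
    · intro b _ hb
      simp [hb]
    · intro h
      exact absurd (Finset.mem_range.2 (by omega)) h
  have h3 : ∑ k ∈ Finset.range N, (if k < K then q k * |R k| else 0) =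
      ∑ k ∈ Finset.range K, q k * |R k| := by
    have h4 : Finset.range K ⊆ Finset.range N := Finset.range_subset_range.2 (by omega)
    rw [← Finset.sum_subset h4]
    · refine Finset.sum_congr rfl fun k hk => ?_
      rw [if_pos (Finset.mem_range.1 hk)]
    · intro k _ hk
      rw [if_neg (by rwa [Finset.mem_range] at hk)]
  have h5 : ∑ k ∈ Finset.range N, q k * |E k + t * ((if k = K+1 then 1 else 0) -
      (if k = K then a else 0) - (if k < K then R k else 0))| ≤
      ∑ k ∈ Finset.range N, (q k * |E k| +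
        (if k = K then q K * |E K - t * a| - q K * |E K| else 0) +
        (if k = K+1 then q k else 0) + (if k < K then q k * |R k| else 0)) := by
    refine Finset.sum_le_sum fun k _ => ?_
    rcases lt_trichotomy k K with h | h | h
    · have e1 : ¬ k = K + 1 := by omega
      have e2 : ¬ k = K := by omega
      simp only [e1, e2, h, if_true, if_false, add_zero, sub_zero, zero_sub]
      rw [← mul_add]
      refine mul_le_mul_of_nonneg_left ?_ (hq k).le
      refine (abs_add_le _ _).trans ?_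
      rw [abs_mul, ht, one_mul, abs_neg]
    · subst h
      have e1 : ¬ k = k + 1 := by omega
      have e2 : ¬ k < k := by omega
      simp only [e1, e2, if_true, if_false, add_zero, sub_zero, zero_sub, mul_neg,
        ← sub_eq_add_neg]
      linarith
    · rw [if_neg (show ¬ k = K by omega), if_neg (show ¬ k < K by omega),
        if_neg (show ¬ k = K by omega), if_neg (show ¬ k < K by omega), sub_zero, sub_zero,
        add_zero, add_zero]
      have h6 : |E k + t * (if k = K + 1 then 1 else 0)| ≤ |E k| + (if k = K + 1 then 1 else 0) := by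
        refine (abs_add_le _ _).trans ?_
        rw [abs_mul, ht, one_mul]
        split_ifs <;> simp
      have h7 := mul_le_mul_of_nonneg_left h6 (hq k).le
      refine h7.trans (le_of_eq ?_)
      split_ifs <;> ring
  refine h5.trans ?_
  rw [Finset.sum_add_distrib, Finset.sum_add_distrib, Finset.sum_add_distrib, h1, h2, h3]
  linarith

/-- expansions with small digits, minimal cost -/
theorem digits_cost {τ : ℕ → Fin (m+1) → List (Fin (m+1))} {a q Q : ℕ → ℤ} {K0 r : ℕ}
    (hrel : ∀ K, K0 ≤ K → ∃ R : ℕ → ℤ, val τ R K = pv τ (K+1) - a K • pv τ K ∧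
      q (K+1) + ∑ k ∈ Finset.range K, q k * |R k| ≤ Q K)
    (hdom : ∀ K, Q K < q K * a K)
    (hgen : ∃ K1, ∀ w : Fin (m+1) → ℤ, ∃ E : ℕ → ℤ, val τ E K1 = w)
    (hper : ∀ k, τ (k + r) = τ k) (hqper : ∀ k, q (k + r) = q k) (hq : ∀ k, 0 < q k)
    (hr : 1 ≤ r) (v : Fin (m+1) → ℤ) (g : ℤ) : ∃ (n : ℕ) (E : ℕ → ℤ), 1 ≤ n ∧ K0 < n * r ∧
      val τ E (n * r) + g • pv τ (n * r) = ((inc (cps τ r)) ^ n).mulVec v ∧
      (∀ k < K0, E k = 0) ∧
      ∀ K, K0 ≤ K → K + 1 < n * r → 2 * (q K * |E K|) ≤ q K * a K + Q K := by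
  classical
  obtain ⟨K1, hgen⟩ := hgen
  have hnn : ∀ (E : ℕ → ℤ) (N : ℕ), 0 ≤ ∑ k ∈ Finset.range N, q k * |E k| := fun E N =>
    Finset.sum_nonneg fun k _ => mul_nonneg (hq k).le (abs_nonneg _)
  let Pr : ℕ → Prop := fun ω => ∃ (n : ℕ) (E : ℕ → ℤ), 1 ≤ n ∧
    val τ E (n * r) + g • pv τ (n * r) = ((inc (cps τ r)) ^ n).mulVec v ∧
    ∑ k ∈ Finset.range (n * r), q k * |E k| = (ω : ℤ)
  have hex : ∃ ω, Pr ω := by
    obtain ⟨n, hn⟩ : ∃ n, n = K1 + 1 := ⟨_, rfl⟩
    obtain ⟨E, hE⟩ := hgen (((inc (cps τ r)) ^ n).mulVec v - g • pv τ (n * r))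
    have hle : K1 ≤ n * r := by
      have : n ≤ n * r := Nat.le_mul_of_pos_right n hr
      omega
    obtain ⟨E', hE'⟩ : ∃ E' : ℕ → ℤ, E' = fun k => if k < K1 then E k else 0 := ⟨_, rfl⟩
    have h1 : val τ E' (n * r) = val τ E K1 := by
      unfold val
      have h4 : Finset.range K1 ⊆ Finset.range (n * r) := Finset.range_subset_range.2 hle
      rw [← Finset.sum_subset h4]
      · refine Finset.sum_congr rfl fun k hk => ?_
        rw [hE']
        simp only [if_pos (Finset.mem_range.1 hk)]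
      · intro k _ hk
        rw [hE']
        simp only [if_neg (show ¬ k < K1 by rwa [Finset.mem_range] at hk), zero_smul]
    refine ⟨(∑ k ∈ Finset.range (n * r), q k * |E' k|).toNat, n, E', by omega, ?_, ?_⟩
    · rw [h1, hE, sub_add_cancel]
    · rw [Int.toNat_of_nonneg (hnn _ _)]
  obtain ⟨n, E, hn, hval, hw⟩ := Nat.find_spec hex
  have hmin : ∀ (n' : ℕ) (E' : ℕ → ℤ), 1 ≤ n' →
      val τ E' (n' * r) + g • pv τ (n' * r) = ((inc (cps τ r)) ^ n').mulVec v →
      ((Nat.find hex : ℕ) : ℤ) ≤ ∑ k ∈ Finset.range (n' * r), q k * |E' k| := by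
    intro n' E' hn' hE'
    have h1 : Nat.find hex ≤ (∑ k ∈ Finset.range (n' * r), q k * |E' k|).toNat := by
      apply Nat.find_min'
      exact ⟨n', E', hn', hE', by rw [Int.toNat_of_nonneg (hnn _ _)]⟩
    have h2 := hnn E' (n' * r)
    omega
  obtain ⟨ω, hω⟩ : ∃ ω, ω = Nat.find hex := ⟨_, rfl⟩
  rw [← hω] at hw hmin
  have hqs : ∀ s k, q (s * r + k) = q k := by
    intro s k
    induction s with
    | zero => rw [Nat.zero_mul, Nat.zero_add]
    | succ s ih => rw [Nat.succ_mul, show s * r + r + k = (s * r + k) + r by ring, hqper, ih]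
  -- shift
  obtain ⟨E', hE'⟩ : ∃ E' : ℕ → ℤ, E' = fun k => if k < K0 * r then 0 else E (k - K0 * r) :=
    ⟨_, rfl⟩
  have hN : (K0 + n) * r = K0 * r + n * r := by ring
  have hval' : val τ E' ((K0 + n) * r) + g • pv τ ((K0 + n) * r) =
      ((inc (cps τ r)) ^ (K0 + n)).mulVec v := by
    rw [hN, hE', val_shift τ hper, pv_mul_add τ hper, ← mulVec_zsmul, ← Matrix.mulVec_add, hval,
      Matrix.mulVec_mulVec, ← pow_add]
  have hw' : ∑ k ∈ Finset.range ((K0 + n) * r), q k * |E' k| = (ω : ℤ) := by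
    rw [hN, Finset.sum_range_add, ← hw]
    have h1 : ∑ k ∈ Finset.range (K0 * r), q k * |E' k| = 0 := by
      apply Finset.sum_eq_zero
      intro k hk
      rw [hE']
      simp only [if_pos (Finset.mem_range.1 hk), abs_zero, mul_zero]
    rw [h1, zero_add]
    refine Finset.sum_congr rfl fun k _ => ?_
    rw [hE', hqs]
    dsimp only
    rw [if_neg (by omega), Nat.add_sub_cancel_left]
  refine ⟨K0 + n, E', by omega, ?_, hval', fun k hk => ?_, fun K hge hK => ?_⟩
  · have h1 : K0 + n ≤ (K0 + n) * r := Nat.le_mul_of_pos_right _ hr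
    omega
  · rw [hE']
    have : K0 ≤ K0 * r := Nat.le_mul_of_pos_right K0 hr
    simp only [if_pos (show k < K0 * r by omega)]
  · obtain ⟨R, hR1, hR2⟩ := hrel K hge
    refine reduce_cost _ _ _ _ (hq K) (hdom K) fun t ht => ?_
    have h1 := cost_mod q hq E' R K ((K0 + n) * r) hK (a K) (Q K) t ht hR2
    have h2 := hmin (K0 + n) (fun k => E' k + t * ((if k = K+1 then 1 else 0) -
      (if k = K then a K else 0) - (if k < K then R k else 0))) (by omega) (by
        rw [apply_rel τ E' R K _ hK (a K) t hR1]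
        exact hval')
    rw [hw'] at h1
    linarith

end Pool.Agent.K9h44.PL
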