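import Pool.Agent.R889.PZ.Core

/-!
If one letter covers more than half of the tiling, every overlap leads to an overlap of two tiles
of this letter with a small offset.
-/

set_option autoImplicit false

namespace Pool.Agent.K9h44.PL
open Pool.Agent.H812R2.PI Pool.Agent.TH100.Pisot Pool.Agent.Y316.Pisot Pool.Agent.R889.PZ
open scoped BigOperators

variable {m : ℕ}

/-- total overlap of the interval `[a,b]` with the edges of a path with letters different from `0` -/
noncomputable def GG {M : Matrix (Fin (m+1)) (Fin (m+1)) ℤ} (P : PD M)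
    (B : List ((Fin (m+1) → ℤ) × Fin (m+1))) (a b : ℝ) : ℝ :=
  (B.map (fun f => if f.2 = 0 then 0 else ovl a b (P.ht f.1) (P.ht f.1 + P.ell f.2))).sum

section
variable {M : Matrix (Fin (m+1)) (Fin (m+1)) ℤ} (P : PD M)

theorem ovl_nn (a b c e : ℝ) : 0 ≤ ovl a b c e := le_max_left _ _

theorem ovl_add' (a b x y z : ℝ) (hxy : x ≤ y) (hyz : y ≤ z) (hab : a ≤ b) :
    ovl x z a b = ovl x y a b + ovl y z a b := by
  rw [ovl_comm x z, ovl_comm x y, ovl_comm y z]
  exact ovl_add a b x y z hxy hyz hab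

theorem GG_add (B : List ((Fin (m+1) → ℤ) × Fin (m+1))) (x y z : ℝ) (hxy : x ≤ y) (hyz : y ≤ z) :
    GG P B x z = GG P B x y + GG P B y z := by
  induction B with
  | nil => simp [GG]
  | cons f B ih =>
    unfold GG at ih ⊢
    simp only [List.map_cons, List.sum_cons]
    rw [ih]
    by_cases hf : f.2 = 0
    · simp only [hf, if_true]; ring
    · simp only [hf, if_false]
      rw [ovl_add' _ _ x y z hxy hyz (by linarith [P.ell_pos f.2])]
      ring

theorem GG_nonneg (B : List ((Fin (m+1) → ℤ) × Fin (m+1))) (x y : ℝ) : 0 ≤ GG P B x y := by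
  unfold GG
  apply List.sum_nonneg
  intro t ht
  obtain ⟨f, -, rfl⟩ := List.mem_map.1 ht
  split_ifs
  · exact le_rfl
  · exact ovl_nn _ _ _ _

theorem GG_mono (B : List ((Fin (m+1) → ℤ) × Fin (m+1))) (x x' y' y : ℝ) (h1 : x ≤ x')
    (h2 : x' ≤ y') (h3 : y' ≤ y) : GG P B x' y' ≤ GG P B x y := by
  rw [GG_add P B x x' y h1 (h2.trans h3), GG_add P B x' y' y h2 h3]
  have := GG_nonneg P B x x'
  have := GG_nonneg P B y' y
  linarith

theorem GG_le (z : Fin (m+1) → ℤ) (w : List (Fin (m+1))) (x y : ℝ) :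
    GG P (edges z w) x y ≤ P.ht (ab w) - P.ell 0 * (w.count 0 : ℝ) := by
  induction w generalizing z with
  | nil => simp [GG, edges, ab_nil, ht_zero]
  | cons c w ih =>
    have h := ih (z + ev c)
    unfold GG at h ⊢
    simp only [edges, List.map_cons, List.sum_cons]
    rw [ab_cons, ht_add, ht_ev]
    by_cases hc : c = 0
    · subst hc
      rw [List.count_cons_self]
      simp only [if_true]
      push_cast
      linarith
    · rw [List.count_cons_of_ne (by exact hc)]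
      simp only [hc, if_false]
      have h1 : ovl x y (P.ht z) (P.ht z + P.ell c) ≤ P.ell c := by
        unfold ovl
        have h2 := min_le_right y (P.ht z + P.ell c)
        have h3 := le_max_right x (P.ht z)
        exact max_le (P.ell_pos c).le (by linarith)
      linarith

/-- splitting the total overlap into the letters `0` and the others -/
theorem GG_eq_of_no_zero (z : Fin (m+1) → ℤ) (w : List (Fin (m+1))) (x y : ℝ) (hxy : x ≤ y)
    (h1 : P.ht z ≤ x) (h2 : y ≤ P.ht z + P.ht (ab w))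
    (h3 : ∀ f ∈ edges z w, f.2 = 0 → ovl x y (P.ht f.1) (P.ht f.1 + P.ell f.2) = 0) :
    GG P (edges z w) x y = y - x := by
  have h4 := sum_ovl_edges P x y hxy z w
  have h5 : ovl x y (P.ht z) (P.ht z + P.ht (ab w)) = y - x := by
    unfold ovl
    rw [min_eq_left h2, max_eq_left h1, max_eq_right (by linarith)]
  rw [h5] at h4
  rw [← h4]
  unfold GG
  congr 1
  apply List.map_congr_left
  intro f hf
  by_cases hf0 : f.2 = 0
  · rw [if_pos hf0, h3 f hf hf0]
  · rw [if_neg hf0]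

/-- no zero edges in the middle third -/
theorem ovl_mid_zero {h0 : ℝ} (e f : (Fin (m+1) → ℤ) × Fin (m+1)) (hf : f.2 = 0)
    (h : ¬ |P.ht f.1 - P.ht e.1| ≤ h0 * P.ell 0) :
    ovl (P.ht e.1 + (1 - h0) * P.ell 0) (P.ht e.1 + h0 * P.ell 0) (P.ht f.1)
      (P.ht f.1 + P.ell f.2) = 0 := by
  unfold ovl
  apply max_eq_left
  rw [hf]
  push Not at h
  have hl := P.ell_pos 0
  rcases lt_abs.1 h with h' | h'
  · have h1 := min_le_left (P.ht e.1 + h0 * P.ell 0) (P.ht f.1 + P.ell 0)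
    have h2 := le_max_right (P.ht e.1 + (1 - h0) * P.ell 0) (P.ht f.1)
    linarith
  · have h1 := min_le_right (P.ht e.1 + h0 * P.ell 0) (P.ht f.1 + P.ell 0)
    have h2 := le_max_left (P.ht e.1 + (1 - h0) * P.ell 0) (P.ht f.1)
    linarith

/-- the main counting inequality -/
theorem count_ineq {h0 : ℝ} (hh0 : 1 / 2 ≤ h0) (hh1 : h0 ≤ 1)
    (zB : Fin (m+1) → ℤ) (wB : List (Fin (m+1))) (wA : List (Fin (m+1))) :
    ∀ zA : Fin (m+1) → ℤ, P.ht zB ≤ P.ht zA → P.ht zA + P.ht (ab wA) ≤ P.ht zB + P.ht (ab wB) →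
    (∀ e ∈ edges zA wA, ∀ f ∈ edges zB wB, e.2 = 0 → f.2 = 0 →
      ¬ |P.ht f.1 - P.ht e.1| ≤ h0 * P.ell 0) →
    (2 * h0 - 1) * P.ell 0 * (wA.count 0 : ℝ) ≤
      GG P (edges zB wB) (P.ht zA) (P.ht zA + P.ht (ab wA)) := by
  induction wA with
  | nil =>
    intro zA h1 h2 h3
    simp only [List.count_nil, Nat.cast_zero, mul_zero]
    exact GG_nonneg _ _ _ _
  | cons c wA ih =>
    intro zA h1 h2 h3
    have hc := P.ell_pos c
    have hl := P.ell_pos 0
    have hw := UTot_ht_nonneg P wA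
    have hhc : P.ht (ab (c :: wA)) = P.ell c + P.ht (ab wA) := by
      rw [ab_cons, ht_add, ht_ev]
    rw [hhc] at h2 ⊢
    have ih' := ih (zA + ev c) (by rw [ht_add, ht_ev]; linarith)
      (by rw [ht_add, ht_ev]; linarith)
      (fun e he f hf he0 hf0 => h3 e (by simp only [edges]; exact List.mem_cons_of_mem _ he)
        f hf he0 hf0)
    rw [ht_add, ht_ev] at ih'
    rw [GG_add P _ (P.ht zA) (P.ht zA + P.ell c) _ (by linarith) (by linarith)]
    rw [show P.ht zA + (P.ell c + P.ht (ab wA)) = P.ht zA + P.ell c + P.ht (ab wA) by ring]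
    by_cases hc0 : c = 0
    · subst hc0
      rw [List.count_cons_self]
      push_cast
      have h4 := GG_eq_of_no_zero P zB wB (P.ht zA + (1 - h0) * P.ell 0)
        (P.ht zA + h0 * P.ell 0) (by nlinarith) (by nlinarith) (by nlinarith)
        (fun f hf hf0 => ovl_mid_zero P (zA, 0) f hf0
          (h3 (zA, 0) (by simp [edges]) f hf rfl hf0))
      have h5 := GG_mono P (edges zB wB) (P.ht zA) (P.ht zA + (1 - h0) * P.ell 0)
        (P.ht zA + h0 * P.ell 0) (P.ht zA + P.ell 0) (by nlinarith) (by nlinarith) (by nlinarith)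
      rw [h4] at h5
      linarith
    · rw [List.count_cons_of_ne (by exact hc0)]
      have := GG_nonneg P (edges zB wB) (P.ht zA) (P.ht zA + P.ell c)
      linarith

/-- the index of the last vertex of height at most `x` -/
theorem exists_cut (Lm : ℝ) (hLm : ∀ i, P.ell i ≤ Lm) (w : List (Fin (m+1))) :
    ∀ (z : Fin (m+1) → ℤ) (x : ℝ), P.ht z ≤ x → x ≤ P.ht z + P.ht (ab w) →
    ∃ w1 w2, w = w1 ++ w2 ∧ P.ht z + P.ht (ab w1) ≤ x ∧ x - Lm ≤ P.ht z + P.ht (ab w1) := by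
  have hL0 : 0 ≤ Lm := (P.ell_pos 0).le.trans (hLm 0)
  induction w with
  | nil =>
    intro z x h1 h2
    refine ⟨[], [], rfl, ?_, ?_⟩
    · rw [ab_nil, ht_zero] at *; linarith
    · rw [ab_nil, ht_zero] at *; linarith
  | cons c w ih =>
    intro z x h1 h2
    have hhc : P.ht (ab (c :: w)) = P.ell c + P.ht (ab w) := by
      rw [ab_cons, ht_add, ht_ev]
    rw [hhc] at h2
    by_cases hx : P.ht z + P.ell c ≤ x
    · obtain ⟨w1, w2, h3, h4, h5⟩ := ih (z + ev c) x (by rw [ht_add, ht_ev]; exact hx)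
        (by rw [ht_add, ht_ev]; linarith)
      rw [ht_add, ht_ev] at h4 h5
      refine ⟨c :: w1, w2, by rw [h3]; rfl, ?_, ?_⟩
      · rw [ab_cons, ht_add, ht_ev]; linarith
      · rw [ab_cons, ht_add, ht_ev]; linarith
    · refine ⟨[], c :: w, rfl, ?_, ?_⟩
      · rw [ab_nil, ht_zero]; linarith
      · rw [ab_nil, ht_zero]
        have := hLm c
        push Not at hx
        linarith

/-- a subpath filling an interval -/
theorem subpath (Lm : ℝ) (hLm : ∀ i, P.ell i ≤ Lm) (z : Fin (m+1) → ℤ)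
    (w : List (Fin (m+1))) (s t : ℝ) (hst : s + 2 * Lm ≤ t) (h1 : P.ht z ≤ s)
    (h2 : t ≤ P.ht z + P.ht (ab w)) :
    ∃ w1 w2 w3, w = w1 ++ w2 ++ w3 ∧ s ≤ P.ht z + P.ht (ab w1) ∧
      P.ht z + P.ht (ab w1) ≤ s + Lm ∧ t - Lm ≤ P.ht z + P.ht (ab w1) + P.ht (ab w2) ∧
      P.ht z + P.ht (ab w1) + P.ht (ab w2) ≤ t := by
  have hL0 : 0 ≤ Lm := (P.ell_pos 0).le.trans (hLm 0)
  obtain ⟨w1, v, h3, h4, h5⟩ := exists_cut P Lm hLm w z (s + Lm) (by linarith) (by linarith)
  have h6 : P.ht (ab w) = P.ht (ab w1) + P.ht (ab v) := by rw [h3, ab_append, ht_add]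
  obtain ⟨w2, w3, h7, h8, h9⟩ := exists_cut P Lm hLm v (z + ab w1) t
    (by rw [ht_add]; linarith) (by rw [ht_add]; linarith)
  rw [ht_add] at h8 h9
  refine ⟨w1, w2, w3, by rw [h3, h7, List.append_assoc], by linarith, by linarith, by linarith,
    by linarith⟩

/-- number of zeros in a factor -/
theorem zeros_factor (C r : ℝ) (w w1 w2 w3 : List (Fin (m+1))) (hw : w = w1 ++ w2 ++ w3)
    (h : ∀ k, |P.ell 0 * ((w.take k).count 0 : ℝ) - r * P.ht (ab (w.take k))| ≤ C) :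
    r * P.ht (ab w2) - 2 * C ≤ P.ell 0 * (w2.count 0 : ℝ) := by
  have h1 := h w1.length
  have h2 := h (w1 ++ w2).length
  have e1 : w.take w1.length = w1 := by
    rw [hw, List.append_assoc, List.take_left']
    rfl
  have e2 : w.take (w1 ++ w2).length = w1 ++ w2 := by
    rw [hw, List.take_left']
    rfl
  rw [e1] at h1
  rw [e2, List.count_append, ab_append, ht_add] at h2
  push_cast at h2
  have h3 := (abs_le.1 h1).2
  have h4 := (abs_le.1 h2).1
  linarith

/-- two long paths with many zeros over the same interval have zeros with a small offset -/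
theorem exists_good {h0 r C : ℝ} (hh0 : 1 / 2 ≤ h0) (hh1 : h0 ≤ 1) (hr0 : 0 ≤ r) (Lm : ℝ)
    (hLm : ∀ i, P.ell i ≤ Lm) (zA zB : Fin (m+1) → ℤ) (wA wB : List (Fin (m+1)))
    (hA : ∀ k, |P.ell 0 * ((wA.take k).count 0 : ℝ) - r * P.ht (ab (wA.take k))| ≤ C)
    (hB : ∀ k, |P.ell 0 * ((wB.take k).count 0 : ℝ) - r * P.ht (ab (wB.take k))| ≤ C)
    (s t : ℝ) (hA1 : P.ht zA ≤ s) (hA2 : t ≤ P.ht zA + P.ht (ab wA))
    (hB1 : P.ht zB ≤ s) (hB2 : t ≤ P.ht zB + P.ht (ab wB)) (hst : s + 4 * Lm ≤ t)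
    (hbig : 4 * C + 8 * r * Lm < (2 * h0 * r - 1) * (t - s)) :
    ∃ e ∈ edges zA wA, ∃ f ∈ edges zB wB, e.2 = 0 ∧ f.2 = 0 ∧
      |P.ht f.1 - P.ht e.1| ≤ h0 * P.ell 0 := by
  have hL0 : 0 ≤ Lm := (P.ell_pos 0).le.trans (hLm 0)
  by_contra hcon
  push Not at hcon
  obtain ⟨b1, b2, b3, hb, hb1, hb2, hb3, hb4⟩ := subpath P Lm hLm zB wB s t (by linarith) hB1 hB2
  obtain ⟨a1, a2, a3, ha, ha1, ha2, ha3, ha4⟩ := subpath P Lm hLm zA wA (s + Lm) (t - Lm)
    (by linarith) (by linarith) (by linarith)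
  have hcA := zeros_factor P C r wA a1 a2 a3 ha hA
  have hcB := zeros_factor P C r wB b1 b2 b3 hb hB
  have h1 := count_ineq P hh0 hh1 (zB + ab b1) b2 a2 (zA + ab a1)
    (by rw [ht_add, ht_add]; linarith) (by rw [ht_add, ht_add]; linarith) (by
      intro e he f hf he0 hf0
      have he' : e ∈ edges zA wA := by
        rw [ha, edges_append, edges_append, List.mem_append, List.mem_append]
        exact Or.inl (Or.inr he)
      have hf' : f ∈ edges zB wB := by
        rw [hb, edges_append, edges_append, List.mem_append, List.mem_append]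
        exact Or.inl (Or.inr hf)
      exact not_le.2 (hcon e he' f hf' he0 hf0))
  have h2 := GG_le P (zB + ab b1) b2 (P.ht (zA + ab a1)) (P.ht (zA + ab a1) + P.ht (ab a2))
  have h3 := h1.trans h2
  have h4 : (2 * h0 - 1) * (r * P.ht (ab a2) - 2 * C) ≤
      (2 * h0 - 1) * P.ell 0 * (a2.count 0 : ℝ) := by
    rw [mul_assoc]
    exact mul_le_mul_of_nonneg_left hcA (by linarith)
  have h5 : P.ht (ab b2) ≤ t - s := by linarith
  have h6 : t - s - 4 * Lm ≤ P.ht (ab a2) := by linarith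
  have h7 : t - s - 2 * Lm ≤ P.ht (ab b2) := by linarith
  have h8 : r * (t - s - 4 * Lm) ≤ r * P.ht (ab a2) := mul_le_mul_of_nonneg_left h6 hr0
  have h9 : r * (t - s - 2 * Lm) ≤ r * P.ht (ab b2) := mul_le_mul_of_nonneg_left h7 hr0
  have hC : 0 ≤ C := (abs_nonneg _).trans (hA 0)
  have h10 : (2 * h0 - 1) * (r * (t - s - 4 * Lm)) ≤ (2 * h0 - 1) * (r * P.ht (ab a2)) :=
    mul_le_mul_of_nonneg_left h8 (by linarith)
  have h11 : (2 * h0 - 1) * C ≤ C := by nlinarith
  have h12 : 0 ≤ r * Lm := mul_nonneg hr0 hL0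
  have h13 : (2 * h0 - 1) * (r * Lm) ≤ r * Lm := by nlinarith
  nlinarith

end

/-- the fraction of the length covered by the letter `0` -/
noncomputable def frac {M : Matrix (Fin (m+1)) (Fin (m+1)) ℤ} (P : PD M) : ℝ :=
  P.ell 0 * P.u 0 / ∑ i, P.ell i * P.u i

theorem den_pos {M : Matrix (Fin (m+1)) (Fin (m+1)) ℤ} (P : PD M) :
    0 < ∑ i, P.ell i * P.u i :=
  Finset.sum_pos (fun i _ => mul_pos (P.ell_pos i) (P.u_pos i)) Finset.univ_nonempty

theorem frac_nonneg {M : Matrix (Fin (m+1)) (Fin (m+1)) ℤ} (P : PD M) : 0 ≤ frac P :=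
  div_nonneg (mul_pos (P.ell_pos 0) (P.u_pos 0)).le (den_pos P).le

/-- the number of zeros in prefixes -/
theorem disc {S : Fin (m+1) → List (Fin (m+1))} (P : PD (inc S)) :
    ∃ C : ℝ, ∀ (n : ℕ) (a : Fin (m+1)) (k : ℕ),
      |P.ell 0 * ((((iter S n a).take k).count 0 : ℕ) : ℝ) -
        frac P * P.ht (ab ((iter S n a).take k))| ≤ C := by
  have hnn : ∀ i j, 0 ≤ inc S i j := fun i j => by unfold inc; positivity
  obtain ⟨B, hB⟩ : ∃ B : ℝ, B = P.c * ∑ i, ∑ j, ((inc S i j : ℤ) : ℝ) := ⟨_, rfl⟩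
  have hB0 : 0 ≤ B := by
    rw [hB]
    refine mul_nonneg P.c_pos.le (Finset.sum_nonneg fun i _ => Finset.sum_nonneg fun j _ => ?_)
    exact_mod_cast hnn i j
  obtain ⟨BS, hBS⟩ : ∃ BS : ℝ, BS = B / (1 - P.rho) + ∑ a : Fin (m+1), P.N (rv (ev a)) :=
    ⟨_, rfl⟩
  have hN : ∀ a : Fin (m+1), P.N (rv (ev a)) ≤ ∑ a : Fin (m+1), P.N (rv (ev a)) := fun a =>
    Finset.single_le_sum (f := fun a => P.N (rv (ev a))) (fun i _ => P.N_nonneg _)
      (Finset.mem_univ a)
  have hpre : ∀ (n : ℕ) (a : Fin (m+1)) (k : ℕ),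
      P.N (rv (ab ((iter S n a).take k))) ≤ BS := by
    intro n a j
    rw [← compList_replicate]
    refine (compList_prefix P (List.replicate n S) B hB0 ?_ a j).trans ?_
    · intro τ hτ
      rw [List.mem_replicate] at hτ
      rw [hτ.2]
      refine ⟨rfl, fun a k => ?_⟩
      rw [hB]
      exact JFin_BT P hnn S rfl a k
    · rw [hBS]
      linarith [hN a]
  refine ⟨P.ell 0 * (P.c * BS) + frac P * ∑ i, P.ell i * (P.c * BS), fun n a k => ?_⟩
  obtain ⟨x, hx⟩ : ∃ x, x = ab ((iter S n a).take k) := ⟨_, rfl⟩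
  have hN1 := hpre n a k
  rw [← hx] at hN1 ⊢
  have hc : ((((iter S n a).take k).count 0 : ℕ) : ℝ) = (x 0 : ℝ) := by
    rw [hx]; simp [ab]
  rw [hc]
  have hy : ∀ i, |rv x i - (∑ j, rv x j) * P.u i| ≤ P.c * BS := fun i =>
    (P.le_cN (rv x) i).trans (mul_le_mul_of_nonneg_left hN1 P.c_pos.le)
  obtain ⟨s, hs⟩ : ∃ s, s = ∑ j, rv x j := ⟨_, rfl⟩
  rw [← hs] at hy
  have h1 : P.ht x = ∑ i, P.ell i * (rv x i - s * P.u i) + s * ∑ i, P.ell i * P.u i := by
    rw [Finset.mul_sum, ← Finset.sum_add_distrib]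
    unfold PD.ht rv
    exact Finset.sum_congr rfl fun i _ => by ring
  have h2 : P.ell 0 * (x 0 : ℝ) - frac P * P.ht x =
      P.ell 0 * (rv x 0 - s * P.u 0) - frac P * ∑ i, P.ell i * (rv x i - s * P.u i) := by
    rw [h1]
    have h3 := den_pos P
    have h4 : frac P * ∑ i, P.ell i * P.u i = P.ell 0 * P.u 0 := by
      unfold frac
      field_simp
    unfold rv
    rw [mul_add, show frac P * (s * ∑ i, P.ell i * P.u i) =
      s * (frac P * ∑ i, P.ell i * P.u i) by ring, h4]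
    ring
  rw [h2]
  refine (abs_sub _ _).trans ?_
  rw [abs_mul, abs_mul, abs_of_pos (P.ell_pos 0), abs_of_nonneg (frac_nonneg P)]
  refine add_le_add (mul_le_mul_of_nonneg_left (hy 0) (P.ell_pos 0).le) ?_
  refine mul_le_mul_of_nonneg_left ?_ (frac_nonneg P)
  refine (Finset.abs_sum_le_sum_abs _ _).trans (Finset.sum_le_sum fun i _ => ?_)
  rw [abs_mul, abs_of_pos (P.ell_pos i)]
  exact mul_le_mul_of_nonneg_left (hy i) (P.ell_pos i).le

/-- every overlap leads to an overlap of two tiles of the letter `0` with a small offset -/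
theorem reach {S : Fin (m+1) → List (Fin (m+1))} (P : PD (inc S)) {h0 : ℝ} (hh0 : 1 / 2 ≤ h0)
    (hh1 : h0 ≤ 1) (hfr : 1 < 2 * h0 * frac P) (a b : Fin (m+1)) (v : Fin (m+1) → ℤ)
    (hov : 0 < P.OV (0, a) (v, b)) :
    ∃ n : ℕ, ∃ e ∈ edges 0 (iter S n a), ∃ f ∈ edges (((inc S) ^ n).mulVec v) (iter S n b),
      e.2 = 0 ∧ f.2 = 0 ∧ |P.ht (f.1 - e.1)| ≤ h0 * P.ell 0 := by
  obtain ⟨C, hC⟩ := disc P
  obtain ⟨Lm, hLm⟩ : ∃ Lm : ℝ, ∀ i, P.ell i ≤ Lm :=
    ⟨∑ i, P.ell i, fun i => Finset.single_le_sum (f := P.ell) (fun i _ => (P.ell_pos i).le)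
      (Finset.mem_univ i)⟩
  obtain ⟨δ, hδ⟩ : ∃ δ, δ = P.OV (0, a) (v, b) := ⟨_, rfl⟩
  rw [← hδ] at hov
  have hlam : 0 < P.lam := lt_trans one_pos P.lam_gt
  have hovl : δ = min (P.ell a) (P.ht v + P.ell b) - max 0 (P.ht v) := by
    rw [hδ]
    rw [hδ] at hov
    unfold PD.OV ovl at hov ⊢
    simp only [ht_zero, zero_add] at hov ⊢
    rcases lt_max_iff.1 hov with h | h
    · exact absurd h (lt_irrefl _)
    · exact max_eq_right h.le
  obtain ⟨n, hn⟩ : ∃ n : ℕ, 4 * Lm ≤ P.lam ^ n * δ ∧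
      (4 * C + 8 * frac P * Lm) / (2 * h0 * frac P - 1) < P.lam ^ n * δ := by
    have h2 : Filter.Tendsto (fun n : ℕ => P.lam ^ n * δ) Filter.atTop Filter.atTop :=
      (tendsto_pow_atTop_atTop_of_one_lt P.lam_gt).atTop_mul_const hov
    exact ((h2.eventually (Filter.eventually_ge_atTop (4 * Lm))).and
      (h2.eventually (Filter.eventually_gt_atTop _))).exists
  obtain ⟨hn1, hn2⟩ := hn
  have hpos : 0 < 2 * h0 * frac P - 1 := by linarith
  rw [div_lt_iff₀ hpos] at hn2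
  have hlamn : 0 < P.lam ^ n := pow_pos hlam n
  have hA : P.ht (ab (iter S n a)) = P.lam ^ n * P.ell a := by
    rw [ab_subst, inc_iter, ht_pow_mulVec, ht_ev]
  have hB : P.ht (ab (iter S n b)) = P.lam ^ n * P.ell b := by
    rw [ab_subst, inc_iter, ht_pow_mulVec, ht_ev]
  have hv : P.ht (((inc S) ^ n).mulVec v) = P.lam ^ n * P.ht v := ht_pow_mulVec P n v
  obtain ⟨e, he, f, hf, he0, hf0, hef⟩ := exists_good P (r := frac P) (C := C) hh0 hh1
    (frac_nonneg P) Lm hLm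
    0 (((inc S) ^ n).mulVec v) (iter S n a) (iter S n b) (hC n a) (hC n b)
    (P.lam ^ n * max 0 (P.ht v)) (P.lam ^ n * min (P.ell a) (P.ht v + P.ell b))
    (by rw [ht_zero]; exact mul_nonneg hlamn.le (le_max_left _ _))
    (by rw [ht_zero, zero_add, hA]; exact mul_le_mul_of_nonneg_left (min_le_left _ _) hlamn.le)
    (by rw [hv]; exact mul_le_mul_of_nonneg_left (le_max_right _ _) hlamn.le)
    (by rw [hv, hB, ← mul_add]; exact mul_le_mul_of_nonneg_left (min_le_right _ _) hlamn.le)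
    (by
      have : P.lam ^ n * δ = P.lam ^ n * min (P.ell a) (P.ht v + P.ell b) -
        P.lam ^ n * max 0 (P.ht v) := by rw [hovl]; ring
      linarith)
    (by
      have : P.lam ^ n * δ = P.lam ^ n * min (P.ell a) (P.ht v + P.ell b) -
        P.lam ^ n * max 0 (P.ht v) := by rw [hovl]; ring
      rw [← this]
      linarith)
  refine ⟨n, e, he, f, hf, he0, hf0, ?_⟩
  have : P.ht (f.1 - e.1) = P.ht f.1 - P.ht e.1 := by
    have h := ht_add P (f.1 - e.1) e.1
    rw [sub_add_cancel] at h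
    linarith
  rw [this]
  exact hef

end Pool.Agent.K9h44.PL
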