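import Pool.Agent.K9h44.PL.Bounds

/-!
The geometric coincidence condition for compositions of substitutions with a frequent letter.
-/

set_option autoImplicit false

namespace Pool.Agent.K9h44.PL
open Pool.Agent.H812R2.PI Pool.Agent.TH100.Pisot Pool.Agent.Y316.Pisot Pool.Agent.R889.PZ
open scoped BigOperators

variable {m : ℕ} {w : Fin (m+1) → ℕ}

theorem gcc_seq (τ : ℕ → Fin (m+1) → List (Fin (m+1))) (r : ℕ) (hr : 1 ≤ r)
    (hper : ∀ k, τ (k + r) = τ k) (hs : ∀ k, Sparse w (τ k))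
    (hdet : ∀ k, (inc (τ k)).det = 1 ∨ (inc (τ k)).det = -1) (P : PD (inc (cps τ r)))
    (hell : HB (1 / 4) w P.ell)
    (hu : ∑ i ∈ Finset.univ.erase 0, (w i : ℝ) * P.u i < P.u 0) : GCC P.ell (cps τ r) := by
  have hne : ∀ k j, τ k j ≠ [] := fun k j => ne_nil_of_det (by
    rcases hdet k with h | h <;> rw [h] <;> norm_num) j
  have hfr := frac_ge P hell hu
  refine gcc_of_zero P (h0 := 2 / 3) (by norm_num) (by norm_num) (by linarith) ?_
  refine core (sys hs hdet) hper hr P (2 / 3) ?_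
  obtain ⟨p, q, v, h, hv⟩ := (hs (r - 1)).zero
  have hcnt := count_zero_eq h hv
  have hdom := (hs (r - 1)).dom
  rw [hcnt] at hdom
  obtain ⟨ψ, hψ⟩ : ∃ ψ, ψ = pull P.ell (cps τ (r - 1)) := ⟨_, rfl⟩
  have hψ0 : P.ht (pv τ (r - 1)) = ψ 0 := by
    rw [hψ, ← ab_cps]
    rfl
  have hHB : HB (1 / 4) w ψ := by
    rw [hψ]
    unfold cps
    by_cases h0 : (List.range (r - 1)).map τ = []
    · rw [h0, pull_nil]
      exact hell
    · refine HB.list _ ?_ 1 _ le_rfl (hell.mono (by norm_num)) h0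
      intro σ hσ
      obtain ⟨k, -, rfl⟩ := List.mem_map.1 hσ
      exact ⟨hs k, hne k⟩
  have hψpos := hHB.1 0
  have htot : P.lam * P.ell 0 = ψ 0 * ((p + q : ℕ) : ℝ) +
      ∑ i ∈ Finset.univ.erase 0, ψ i * ((τ (r - 1) 0).count i : ℝ) := by
    rw [← hcnt, ← hh_ab, hψ, ab_subst, ← hh_mulVec]
    change _ = P.ht _
    rw [← pv_succ, Nat.sub_add_cancel hr]
    unfold pv
    rw [ht_mulVec, ht_ev]
  have hsum1 : 0 ≤ ∑ i ∈ Finset.univ.erase 0, ψ i * ((τ (r - 1) 0).count i : ℝ) :=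
    Finset.sum_nonneg fun i _ => mul_nonneg (hHB.1 i).le (Nat.cast_nonneg _)
  have hsum2 : ∑ i ∈ Finset.univ.erase 0, ψ i * ((τ (r - 1) 0).count i : ℝ) ≤
      ψ 0 / 4 * (((p + q : ℕ) : ℝ) - 4) := by
    have h1 : ∑ i ∈ Finset.univ.erase 0, ψ i * ((τ (r - 1) 0).count i : ℝ) ≤
        ∑ i ∈ Finset.univ.erase 0, ψ 0 / 4 * ((w i : ℝ) * ((τ (r - 1) 0).count i : ℝ)) := by
      refine Finset.sum_le_sum fun i hi => ?_
      have h2 := mul_le_mul_of_nonneg_right (hHB.2 i (Finset.ne_of_mem_erase hi))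
        (Nat.cast_nonneg ((τ (r - 1) 0).count i) : (0:ℝ) ≤ _)
      linarith
    rw [← Finset.mul_sum] at h1
    refine h1.trans (mul_le_mul_of_nonneg_left ?_ (by linarith))
    have h2 : ((∑ i ∈ Finset.univ.erase 0, w i * (τ (r - 1) 0).count i : ℕ) : ℝ) + 4 ≤
        ((p + q : ℕ) : ℝ) := by exact_mod_cast hdom
    push_cast at h2 ⊢
    linarith
  intro h' hh'
  refine top_zero h _ h' (by omega) ?_ ?_ hh'
  · rw [hψ0, le_div_iff₀ hψpos]
    linarith
  · rw [hψ0, div_le_iff₀ hψpos]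
    linarith

/-- compositions of substitutions with a frequent letter -/
theorem gcc_list (hm : 1 ≤ m) (l : List (Fin (m+1) → List (Fin (m+1)))) (hne : l ≠ [])
    (hl : ∀ τ ∈ l, Sparse w τ ∧ ((inc τ).det = 1 ∨ (inc τ).det = -1))
    (P : PD (inc (compList l))) : GCC P.ell (compList l) := by
  have hlen : 1 ≤ l.length := List.length_pos_iff.2 hne
  have hdet0 : ∀ τ ∈ l, (inc τ).det ≠ 0 := fun τ hτ => by
    rcases (hl τ hτ).2 with h | h <;> rw [h] <;> norm_num
  have hw : ∀ j : Fin (m+1), j ≠ 0 → 1 ≤ w j := by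
    obtain ⟨τ, t, ht⟩ := List.exists_cons_of_ne_nil hne
    have hτ : τ ∈ l := by rw [ht]; exact List.mem_cons_self ..
    exact fun j hj => w_pos (hl τ hτ).1 (hdet0 τ hτ) m j hj (Nat.sub_le _ _)
  have hell := ell_HB hm hw l hne (fun τ hτ => ⟨(hl τ hτ).1, ne_nil_of_det (hdet0 τ hτ)⟩) P
  have hu := u_lt l hne (fun τ hτ => (hl τ hτ).1) P.u P.u_pos P.lam (lt_trans one_pos P.lam_gt)
    (by funext i; exact P.M_u i)
  obtain ⟨τ, hτ⟩ : ∃ τ : ℕ → Fin (m+1) → List (Fin (m+1)),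
      τ = fun k => l[k % l.length]'(Nat.mod_lt _ hlen) := ⟨_, rfl⟩
  have hmem : ∀ k, τ k ∈ l := fun k => by
    rw [hτ]
    exact List.getElem_mem _
  have hmap : (List.range l.length).map τ = l := by
    apply List.ext_getElem
    · simp
    · intro k h1 h2
      rw [List.getElem_map, List.getElem_range, hτ]
      simp only [Nat.mod_eq_of_lt h2]
  have hcps : cps τ l.length = compList l := by
    unfold cps
    rw [hmap]
  revert P
  rw [← hcps]
  intro P hell hu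
  refine gcc_seq τ l.length hlen ?_ (fun k => (hl _ (hmem k)).1) (fun k => (hl _ (hmem k)).2) P
    hell hu
  intro k
  rw [hτ]
  simp only [Nat.add_mod_right]

end Pool.Agent.K9h44.PL
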