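import Pool.Agent.K9h44.PL.Pis

/-!
General criteria: Perron eigenvectors and the Pisot property.
-/

set_option autoImplicit false

namespace Pool.Agent.K9h44.PL
open Pool.Agent.H812R2.PI Pool.Agent.TH100.Pisot Pool.Agent.Y316.Pisot Pool.Agent.R889.PZ
open scoped BigOperators

variable {m : ℕ}

/-- Perron eigenvectors -/
theorem perron_gen (S : Fin (m+1) → List (Fin (m+1)))
    (hi0 : ∀ i, i ∈ iter S (m+1) 0) (h0j : ∀ j, (0 : Fin (m+1)) ∈ iter S (m+1) j) :
    ∃ (u f : Fin (m+1) → ℝ) (Λ : ℝ), (∀ i, 0 < u i) ∧ (∀ i, 0 < f i) ∧ 0 < Λ ∧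
      (∀ i, ∑ j, ((inc S i j : ℤ) : ℝ) * u j = Λ * u i) ∧
      (∀ j, ∑ i, f i * ((inc S i j : ℤ) : ℝ) = Λ * f j) := by
  obtain ⟨M, hM⟩ : ∃ M : Matrix (Fin (m+1)) (Fin (m+1)) ℤ, M = inc S := ⟨_, rfl⟩
  have hnn : ∀ (k : ℕ) (i j : Fin (m+1)), 0 ≤ (M ^ k) i j := by
    intro k i j
    rw [hM, ← inc_iter]
    unfold inc
    positivity
  have hpos : ∀ i j, 0 < (M ^ (2 * (m + 1))) i j := by
    intro i j
    have h1 := hi0 i
    have h2 := h0j j
    have h3 : 0 < (M ^ (m+1)) i 0 := by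
      rw [hM, ← inc_iter]
      change (0 : ℤ) < (((iter S (m+1) 0).count i : ℕ) : ℤ)
      exact_mod_cast List.count_pos_iff.2 h1
    have h4 : 0 < (M ^ (m+1)) 0 j := by
      rw [hM, ← inc_iter]
      change (0 : ℤ) < (((iter S (m+1) j).count 0 : ℕ) : ℤ)
      exact_mod_cast List.count_pos_iff.2 h2
    rw [show 2 * (m + 1) = (m + 1) + (m + 1) by ring, pow_add, Matrix.mul_apply]
    refine lt_of_lt_of_le (mul_pos h3 h4) ?_
    exact Finset.single_le_sum (f := fun k => (M ^ (m+1)) i k * (M ^ (m+1)) k j)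
      (fun k _ => mul_nonneg (hnn _ _ _) (hnn _ _ _)) (Finset.mem_univ 0)
  obtain ⟨B, hB⟩ : ∃ B : Matrix (Fin (m+1)) (Fin (m+1)) ℝ, B = M.map (Int.cast : ℤ → ℝ) :=
    ⟨_, rfl⟩
  have hBpow : ∀ (k : ℕ) (i j : Fin (m+1)), (B ^ k) i j = (((M ^ k) i j : ℤ) : ℝ) := by
    intro k
    have : B ^ k = (M ^ k).map (Int.cast : ℤ → ℝ) := by
      rw [hB]
      exact (map_pow (Int.castRingHom ℝ).mapMatrix M k).symm
    intro i j
    rw [this]
    rfl
  have hB0 : ∀ i j, 0 ≤ B i j := by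
    intro i j
    have := hBpow 1 i j
    rw [pow_one] at this
    rw [this]
    exact_mod_cast hnn 1 i j
  have hBsum : ∀ i j, 0 < (∑ k ∈ Finset.range (2 * (m+1) + 1), B ^ k) i j := by
    intro i j
    rw [Matrix.sum_apply]
    refine Finset.sum_pos' (fun k _ => ?_) ⟨2 * (m+1), by simp, ?_⟩
    · rw [hBpow]; exact_mod_cast hnn k i j
    · rw [hBpow]; exact_mod_cast hpos i j
  have hB1 : ∃ i j, 0 < B i j := by
    by_contra hcon
    push Not at hcon
    have h0 : B = 0 := by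
      ext i j
      exact le_antisymm (hcon i j) (hB0 i j)
    have h1 := hBpow (2 * (m+1)) 0 0
    rw [h0, zero_pow (by omega)] at h1
    have h2 := hpos 0 0
    have h3 : ((0 : Matrix (Fin (m+1)) (Fin (m+1)) ℝ) 0 0) = 0 := rfl
    rw [h3] at h1
    have h4 : (0:ℝ) < (((M ^ (2 * (m+1))) 0 0 : ℤ) : ℝ) := by exact_mod_cast h2
    linarith
  obtain ⟨u, Λ, hu, -, hΛ, hBu, -⟩ := H906C.perron B hB0 _ hBsum hB1
  have hBt : ∀ k, (B.transpose) ^ k = (B ^ k).transpose := fun k => (Matrix.transpose_pow B k).symm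
  obtain ⟨f, Λ', hf, -, hΛ', hBf, -⟩ := H906C.perron B.transpose (fun i j => hB0 j i)
    (2 * (m+1) + 1) (fun i j => by
      have h := hBsum j i
      rw [Matrix.sum_apply] at h ⊢
      refine lt_of_lt_of_eq h (Finset.sum_congr rfl fun k _ => ?_)
      rw [hBt]
      rfl) (by
      obtain ⟨i, j, h⟩ := hB1
      exact ⟨j, i, h⟩)
  have hu' : ∀ i, ∑ j, B i j * u j = Λ * u i := fun i => by
    have := congrFun hBu i
    simpa [Matrix.mulVec, dotProduct] using this
  have hf' : ∀ j, ∑ i, f i * B i j = Λ' * f j := fun j => by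
    have := congrFun hBf j
    simp only [Matrix.mulVec, dotProduct, Matrix.transpose_apply, Pi.smul_apply,
      smul_eq_mul] at this
    rw [← this]
    exact Finset.sum_congr rfl fun i _ => mul_comm _ _
  have hΛΛ : Λ' = Λ := by
    have h1 : ∑ j, (∑ i, f i * B i j) * u j = ∑ i, f i * ∑ j, B i j * u j := by
      simp only [Finset.sum_mul, Finset.mul_sum]
      rw [Finset.sum_comm]
      exact Finset.sum_congr rfl fun i _ => Finset.sum_congr rfl fun j _ => by ring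
    simp only [hu', hf'] at h1
    have h2 : Λ' * ∑ j, f j * u j = Λ * ∑ j, f j * u j := by
      rw [Finset.mul_sum, Finset.mul_sum]
      rw [show ∑ i, Λ' * (f i * u i) = ∑ i, Λ' * f i * u i from
        Finset.sum_congr rfl fun i _ => by ring, h1]
      exact Finset.sum_congr rfl fun i _ => by ring
    have h3 : 0 < ∑ j, f j * u j := Finset.sum_pos (fun j _ => mul_pos (hf j) (hu j))
      Finset.univ_nonempty
    exact mul_right_cancel₀ h3.ne' h2
  refine ⟨u, f, Λ, hu, hf, hΛ, ?_, ?_⟩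
  · intro i
    rw [← hu' i]
    refine Finset.sum_congr rfl fun j _ => ?_
    rw [hB, hM]
    rfl
  · intro j
    rw [← hΛΛ, ← hf' j]
    refine Finset.sum_congr rfl fun i _ => ?_
    rw [hB, hM]
    rfl

/-- a criterion for the Pisot property -/
theorem pisot_gen (S : Fin (m+1) → List (Fin (m+1))) (u f : Fin (m+1) → ℝ) (Λ : ℝ)
    (hu : ∀ i, 0 < u i) (hf : ∀ i, 0 < f i) (hΛ4 : 4 ≤ Λ)
    (hMu : ∀ i, ∑ j, ((inc S i j : ℤ) : ℝ) * u j = Λ * u i)
    (hfM : ∀ j, ∑ i, f i * ((inc S i j : ℤ) : ℝ) = Λ * f j)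
    (hdet : (inc S).det = 1 ∨ (inc S).det = -1)
    (hdec : ∀ (ν : ℂ) (y : Fin (m+1) → ℂ), 1 ≤ ‖ν‖ → rc S y = ν • y →
      ∑ i, y i * (u i : ℂ) = 0 → y = 0) :
    PisotMat (inc S) := by
  have hΛ : 0 < Λ := by linarith
  obtain ⟨M, hM⟩ : ∃ M, M = inc S := ⟨_, rfl⟩
  have hdetM : M.det ≠ 0 := by
    rw [hM]
    rcases hdet with h | h <;> rw [h] <;> norm_num
  have hmonic : M.charpoly.Monic := M.charpoly_monic
  have hdeg : 0 < M.charpoly.natDegree := by
    rw [Matrix.charpoly_natDegree_eq_dim]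
    simp
  have h0 : M.charpoly.coeff 0 ≠ 0 := by
    have h1 := Matrix.det_eq_sign_charpoly_coeff M
    rw [h1] at hdetM
    exact (mul_ne_zero_iff.1 hdetM).2
  have hcharT : (M.transpose.map (Int.cast : ℤ → ℂ)).charpoly =
      M.charpoly.map (Int.castRingHom ℂ) := by
    rw [charpoly_cast, Matrix.charpoly_transpose]
  have hrc : ∀ x, (M.transpose.map (Int.cast : ℤ → ℂ)).mulVec x = rc S x := by
    intro x
    funext j
    unfold rc
    rw [hM]
    simp only [Matrix.mulVec, dotProduct, Matrix.map_apply, Matrix.transpose_apply]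
    exact Finset.sum_congr rfl fun i _ => mul_comm _ _
  obtain ⟨F, hF⟩ : ∃ F : Fin (m+1) → ℂ, F = fun i => (f i : ℂ) := ⟨_, rfl⟩
  have hFM : rc S F = (Λ : ℂ) • F := by
    funext j
    unfold rc
    rw [hF]
    simp only [Pi.smul_apply, smul_eq_mul]
    rw [← Complex.ofReal_mul, ← hfM j]
    push_cast
    rfl
  have hFne : F ≠ 0 := by
    intro h
    have h1 := congrFun h 0
    rw [hF] at h1
    simp only [Pi.zero_apply] at h1
    exact (hf 0).ne' (by exact_mod_cast h1)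
  have hdot : ∀ x : Fin (m+1) → ℂ, ∑ j, rc S x j * (u j : ℂ) =
      Λ * ∑ i, x i * (u i : ℂ) := by
    intro x
    unfold rc
    simp only [Finset.sum_mul, Finset.mul_sum]
    rw [Finset.sum_comm]
    refine Finset.sum_congr rfl fun i _ => ?_
    have h1 : ∑ j, ((inc S i j : ℤ) : ℂ) * (u j : ℂ) = (Λ : ℂ) * (u i : ℂ) := by
      rw [← Complex.ofReal_mul, ← hMu i]
      push_cast
      rfl
    calc ∑ j, x i * ((inc S i j : ℤ) : ℂ) * (u j : ℂ) =
        x i * ∑ j, ((inc S i j : ℤ) : ℂ) * (u j : ℂ) := by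
          rw [Finset.mul_sum]
          exact Finset.sum_congr rfl fun j _ => by ring
      _ = _ := by rw [h1]; ring
  have hfu : (∑ i, F i * (u i : ℂ)) ≠ 0 := by
    have h1 : 0 < ∑ i, f i * u i := Finset.sum_pos (fun i _ => mul_pos (hf i) (hu i))
      Finset.univ_nonempty
    have h2 : (∑ i, F i * (u i : ℂ)) = ((∑ i, f i * u i : ℝ) : ℂ) := by
      rw [hF]; push_cast; rfl
    rw [h2]
    exact_mod_cast h1.ne'
  have rc_sub : ∀ x y : Fin (m+1) → ℂ, rc S (x - y) =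
      rc S x - rc S y := by
    intro x y
    rw [← hrc, ← hrc, ← hrc, Matrix.mulVec_sub]
  have key : ∀ (ν α : ℂ) (x : Fin (m+1) → ℂ), 1 ≤ ‖ν‖ →
      rc S x = ν • x + α • F → ∃ c : ℂ, x = c • F := by
    intro ν α x hν hx
    obtain ⟨c, hc⟩ : ∃ c, c = (∑ i, x i * (u i : ℂ)) / ∑ i, F i * (u i : ℂ) := ⟨_, rfl⟩
    obtain ⟨y, hy⟩ : ∃ y, y = x - c • F := ⟨_, rfl⟩
    have hyu : ∑ i, y i * (u i : ℂ) = 0 := by
      rw [hy]
      simp only [Pi.sub_apply, Pi.smul_apply, smul_eq_mul, sub_mul, Finset.sum_sub_distrib]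
      have h1 : ∑ i, c * F i * (u i : ℂ) = c * ∑ i, F i * (u i : ℂ) := by
        rw [Finset.mul_sum]
        exact Finset.sum_congr rfl fun i _ => by ring
      rw [h1, hc]
      field_simp
      ring
    have hyM : rc S y = ν • y + (ν * c + α - c * Λ) • F := by
      rw [hy, rc_sub, rc_smul, hFM, hx]
      funext j
      simp only [Pi.sub_apply, Pi.add_apply, Pi.smul_apply, smul_eq_mul]
      ring
    have h1 := hdot y
    rw [hyu, mul_zero, hyM] at h1
    simp only [Pi.add_apply, Pi.smul_apply, smul_eq_mul, add_mul, Finset.sum_add_distrib] at h1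
    have h2 : ∑ i, ν * y i * (u i : ℂ) = ν * ∑ i, y i * (u i : ℂ) := by
      rw [Finset.mul_sum]
      exact Finset.sum_congr rfl fun i _ => by ring
    have h3 : ∑ i, (ν * c + α - c * Λ) * F i * (u i : ℂ) =
        (ν * c + α - c * Λ) * ∑ i, F i * (u i : ℂ) := by
      rw [Finset.mul_sum]
      exact Finset.sum_congr rfl fun i _ => by ring
    rw [h2, hyu, mul_zero, zero_add, h3] at h1
    have h4 := (mul_eq_zero.1 h1).resolve_right hfu
    rw [h4, zero_smul, add_zero] at hyM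
    have h5 := hdec ν y hν hyM hyu
    refine ⟨c, ?_⟩
    rw [hy] at h5
    exact sub_eq_zero.1 h5
  have hΛn : (1 : ℝ) ≤ ‖(Λ : ℂ)‖ := by
    rw [Complex.norm_real, Real.norm_eq_abs, abs_of_pos hΛ]
    linarith
  have hothers : ∀ ν : ℂ, (M.charpoly.map (Int.castRingHom ℂ)).IsRoot ν → 1 ≤ ‖ν‖ →
      ν = (Λ : ℂ) := by
    intro ν hν hν1
    obtain ⟨x, hx, hxν⟩ := eig (M.transpose.map (Int.cast : ℤ → ℂ)) ν (by rw [hcharT]; exact hν)
    rw [hrc] at hxν
    obtain ⟨c, hc⟩ := key ν 0 x hν1 (by rw [hxν, zero_smul, add_zero])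
    have h1 : (ν - Λ) • x = 0 := by
      rw [sub_smul, ← hxν, hc, rc_smul, hFM, smul_comm, sub_self]
    rcases smul_eq_zero.1 h1 with h2 | h2
    · exact sub_eq_zero.1 h2
    · exact absurd h2 hx
  have hroot : (M.charpoly.map (Int.castRingHom ℂ)).IsRoot (Λ : ℂ) := by
    obtain ⟨μ, hμ, hμ1⟩ := exists_big_root M.charpoly hmonic hdeg h0
    rw [← hothers μ hμ hμ1]
    exact hμ
  have hsimple : (M.charpoly.map (Int.castRingHom ℂ)).rootMultiplicity (Λ : ℂ) ≤ 1 := by
    rw [← hcharT]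
    refine simple_root _ (Λ : ℂ) F fun x hx => ?_
    obtain ⟨α, hα⟩ := hx
    rw [hrc] at hα
    exact key (Λ : ℂ) α x hΛn hα
  rw [← hM]
  refine ⟨?_, by rw [hM]; exact hdet, Λ, by linarith, by rw [charpoly_cast]; exact hroot, ?_⟩
  · rw [charpoly_castQ]
    have h1 := irr_of_simple M.charpoly hmonic hdeg h0 (Λ : ℂ) hothers hsimple
    exact (hmonic.irreducible_iff_irreducible_map_fraction_map (K := ℚ)).1 h1
  · intro ν hν hne'
    refine ⟨?_, ?_⟩
    · rw [norm_pos_iff]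
      rintro rfl
      have h6 : (((M).map (Int.cast : ℤ → ℂ)).charpoly).eval 0 = 0 := hν
      rw [charpoly_cast, ← Polynomial.coeff_zero_eq_eval_zero, Polynomial.coeff_map] at h6
      have h7 : M.charpoly.coeff 0 = 0 := by
        rw [eq_intCast] at h6
        exact_mod_cast h6
      exact h0 h7
    · by_contra hcon
      push Not at hcon
      exact hne' (hothers ν (by rw [← charpoly_cast]; exact hν) hcon)

end Pool.Agent.K9h44.PL
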