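import Pool.Agent.K9h44.PL.Hub
import Pool.Agent.K9h44.PL.PGen

/-!
Heights, frequencies and coincidences for substitutions whose letter `0` is a hub.
-/

set_option autoImplicit false

namespace Pool.Agent.K9h44.PL
open Pool.Agent.H812R2.PI Pool.Agent.TH100.Pisot Pool.Agent.Y316.Pisot Pool.Agent.R889.PZ
open scoped BigOperators

variable {m : ℕ} {w z : Fin (m+1) → ℝ}

theorem one_ne (hm : 1 ≤ m) : (1 : Fin (m+1)) ≠ 0 := by
  intro h
  have h1 := congrArg Fin.val h
  rw [Fin.val_one', Fin.val_zero, Nat.mod_eq_of_lt (by omega)] at h1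
  exact one_ne_zero h1

/-! ### heights -/

/-- bounds for a positive functional -/
def HR (C : ℝ) (w : Fin (m+1) → ℝ) (φ : Fin (m+1) → ℝ) : Prop :=
  (∀ i, 0 < φ i) ∧ ∀ j, j ≠ 0 → φ j ≤ C * w j * φ 0

theorem HR.mono {C C' : ℝ} {φ : Fin (m+1) → ℝ} (h : HR C w φ) (hw : ∀ j, 0 < w j) (hC : C ≤ C') :
    HR C' w φ := by
  refine ⟨h.1, fun j hj => (h.2 j hj).trans ?_⟩
  exact mul_le_mul_of_nonneg_right (mul_le_mul_of_nonneg_right hC (hw j).le) (h.1 0).le

theorem HR.step {C : ℝ} {φ : Fin (m+1) → ℝ} (h : HR C w φ) (hw : ∀ j, 0 < w j) (hC : 1 ≤ C)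
    {τ : Fin (m+1) → List (Fin (m+1))} (hs : Hub w z τ) (hne : ∀ j, τ j ≠ []) :
    HR (max 1 (C / 5)) w (pull φ τ) := by
  have h0 := h.1 0
  have ha := hs.a_ge
  obtain ⟨a, hA⟩ : ∃ a : ℝ, a = ((τ 0).count 0 : ℝ) := ⟨_, rfl⟩
  rw [← hA] at ha
  have h2 : a * φ 0 ≤ pull φ τ 0 := by
    change _ ≤ hh φ (ab (τ 0))
    rw [hh_ab, ← hA]
    have h3 : 0 ≤ ∑ i ∈ Finset.univ.erase 0, φ i * ((τ 0).count i : ℝ) :=
      Finset.sum_nonneg fun i _ => mul_nonneg (h.1 i).le (Nat.cast_nonneg _)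
    linarith
  constructor
  · intro j
    obtain ⟨b, u, hu⟩ := List.exists_cons_of_ne_nil (hne j)
    change 0 < hh φ (ab (τ j))
    rw [hu, ab_cons, hh_add, hh_ev]
    linarith [h.1 b, hh_ab_nonneg h.1 u]
  · intro j hj
    obtain ⟨s, hs'⟩ : ∃ s, s = ∑ i ∈ Finset.univ.erase 0, w i * ((τ j).count i : ℝ) := ⟨_, rfl⟩
    have hs0 : 0 ≤ s := by
      rw [hs']
      exact Finset.sum_nonneg fun i _ => mul_nonneg (hw i).le (Nat.cast_nonneg _)
    have hcol := hs.col j hj
    rw [← hs', ← hA] at hcol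
    have h1 : pull φ τ j ≤ φ 0 * (((τ j).count 0 : ℝ) + C * s) := by
      change hh φ (ab (τ j)) ≤ _
      rw [hh_ab]
      have h2 : ∑ i ∈ Finset.univ.erase 0, φ i * ((τ j).count i : ℝ) ≤
          ∑ i ∈ Finset.univ.erase 0, C * φ 0 * (w i * ((τ j).count i : ℝ)) := by
        refine Finset.sum_le_sum fun i hi => ?_
        have h3 := h.2 i (Finset.ne_of_mem_erase hi)
        have h4 : (0 : ℝ) ≤ ((τ j).count i : ℝ) := Nat.cast_nonneg _
        calc φ i * ((τ j).count i : ℝ) ≤ C * w i * φ 0 * ((τ j).count i : ℝ) :=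
              mul_le_mul_of_nonneg_right h3 h4
          _ = _ := by ring
      rw [← Finset.mul_sum, ← hs'] at h2
      linarith
    have hb0 : (0:ℝ) ≤ ((τ j).count 0 : ℝ) := Nat.cast_nonneg _
    have hsw : s ≤ w j := by
      have h3 : a * s ≤ a * w j := by linarith
      exact le_of_mul_le_mul_left h3 (by linarith)
    -- `b + C s ≤ a * max 1 (C/8) * w j`
    have h3 : ((τ j).count 0 : ℝ) + C * s ≤ a * (max 1 (C / 5) * w j) := by
      have h4 : ((τ j).count 0 : ℝ) ≤ a * w j - a * s := by linarith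
      have hwj := hw j
      have hmx1 : 1 ≤ max 1 (C / 5) := le_max_left _ _
      have hmx2 : C / 5 ≤ max 1 (C / 5) := le_max_right _ _
      rcases le_total C a with hCa | hCa
      · have h5 : C * s ≤ a * s := mul_le_mul_of_nonneg_right hCa hs0
        have h6 : a * w j ≤ a * (max 1 (C / 5) * w j) := by
          have : w j ≤ max 1 (C / 5) * w j := by nlinarith
          exact mul_le_mul_of_nonneg_left this (by linarith)
        linarith
      · have h5 : (C - a) * s ≤ (C - a) * w j := mul_le_mul_of_nonneg_left hsw (by linarith)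
        have h6 : C * w j ≤ a * (max 1 (C / 5) * w j) := by
          have h7 : C ≤ a * max 1 (C / 5) := by nlinarith
          nlinarith
        nlinarith
    have h4 : 0 ≤ max 1 (C / 5) * w j := mul_nonneg (by positivity) (hw j).le
    calc pull φ τ j ≤ φ 0 * (((τ j).count 0 : ℝ) + C * s) := h1
      _ ≤ φ 0 * (a * (max 1 (C / 5) * w j)) := mul_le_mul_of_nonneg_left h3 h0.le
      _ = max 1 (C / 5) * w j * (a * φ 0) := by ring
      _ ≤ max 1 (C / 5) * w j * pull φ τ 0 := mul_le_mul_of_nonneg_left h2 h4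

theorem HR.list (hw : ∀ j, 0 < w j) (l : List (Fin (m+1) → List (Fin (m+1))))
    (hl : ∀ τ ∈ l, Hub w z τ ∧ ∀ j, τ j ≠ []) : ∀ (C : ℝ) (φ : Fin (m+1) → ℝ), 1 ≤ C →
    HR C w φ → l ≠ [] → HR (max 1 (C / 5)) w (pull φ (compList l)) := by
  induction l with
  | nil => intro C φ _ _ h; exact absurd rfl h
  | cons τ l ih =>
    intro C φ hC h _
    obtain ⟨h1, h2⟩ := hl τ (List.mem_cons_self ..)
    have h3 := h.step hw hC h1 h2
    simp only [compList]
    rw [pull_comp]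
    by_cases hl0 : l = []
    · rw [hl0, pull_nil]
      exact h3
    · have h4 := ih (fun τ' h => hl τ' (List.mem_cons_of_mem _ h)) (max 1 (C / 5)) _
        (le_max_left _ _) h3 hl0
      refine h4.mono hw ?_
      have h5 : max 1 (C / 5) ≤ C := max_le hC (by linarith)
      exact max_le_max le_rfl (by linarith)

/-- the heights of the letters different from `0` are small -/
theorem ell_HR (hm : 1 ≤ m) (hw : ∀ j, 0 < w j)
    (l : List (Fin (m+1) → List (Fin (m+1)))) (hne : l ≠ [])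
    (hl : ∀ τ ∈ l, Hub w z τ ∧ ∀ j, τ j ≠ []) (P : PD (inc (compList l))) :
    HR 1 w P.ell := by
  have hlam : 0 < P.lam := lt_trans one_pos P.lam_gt
  have hscale : ∀ C, HR C w (fun j => P.lam * P.ell j) → HR C w P.ell := by
    intro C h
    refine ⟨P.ell_pos, fun j hj => ?_⟩
    have h1 := h.2 j hj
    refine le_of_mul_le_mul_left (a := P.lam) ?_ hlam
    linarith
  obtain ⟨j0, hj0, hmax⟩ := Finset.exists_max_image (Finset.univ.erase (0 : Fin (m+1)))
    (fun j => P.ell j / w j) ⟨1, Finset.mem_erase.2 ⟨one_ne hm, Finset.mem_univ _⟩⟩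
  have hj0' := Finset.ne_of_mem_erase hj0
  obtain ⟨C, hC⟩ : ∃ C, C = P.ell j0 / w j0 / P.ell 0 := ⟨_, rfl⟩
  have h0 := P.ell_pos 0
  have hwj0 := hw j0
  have hHR : HR C w P.ell := by
    refine ⟨P.ell_pos, fun j hj => ?_⟩
    have h1 := hmax j (Finset.mem_erase.2 ⟨hj, Finset.mem_univ _⟩)
    rw [div_le_iff₀ (hw j)] at h1
    rw [hC]
    calc P.ell j ≤ P.ell j0 / w j0 * w j := h1
      _ = _ := by field_simp
  have hC1 : C ≤ 1 := by
    by_contra hcon
    push Not at hcon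
    have h1 := HR.list hw l hl C P.ell hcon.le hHR hne
    rw [pull_ell] at h1
    have h2 := (hscale _ h1).2 j0 hj0'
    have h3 : P.ell j0 = C * w j0 * P.ell 0 := by
      rw [hC]
      field_simp
    have h4 : max 1 (C / 5) < C := max_lt hcon (by linarith)
    have h5 : max 1 (C / 5) * w j0 * P.ell 0 < C * w j0 * P.ell 0 := by
      have h6 : 0 < w j0 * P.ell 0 := mul_pos hwj0 h0
      nlinarith
    linarith
  exact hHR.mono hw hC1

theorem HR_cps (hw : ∀ j, 0 < w j) (τ : ℕ → Fin (m+1) → List (Fin (m+1)))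
    (hτ : ∀ k, Hub w z (τ k)) (hne : ∀ k j, τ k j ≠ []) {φ : Fin (m+1) → ℝ}
    (h : HR 1 w φ) (K : ℕ) : HR 1 w (pull φ (cps τ K)) := by
  unfold cps
  by_cases h0 : (List.range K).map τ = []
  · rw [h0, pull_nil]
    exact h
  · have hlist : ∀ σ ∈ (List.range K).map τ, Hub w z σ ∧ ∀ j, σ j ≠ [] := by
      intro σ hσ
      obtain ⟨k, -, rfl⟩ := List.mem_map.1 hσ
      exact ⟨hτ k, hne k⟩
    have h1 := HR.list (z := z) hw ((List.range K).map τ) hlist 1 _ le_rfl h h0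
    have h2 : max (1:ℝ) (1 / 5) = 1 := max_eq_left (by norm_num)
    rwa [h2] at h1

/-! ### frequencies -/

theorem v_step {τ : Fin (m+1) → List (Fin (m+1))} (hs : Hub w z τ)
    (y : Fin (m+1) → ℝ)
    (hy : ∀ i, 0 ≤ y i) (hy0 : 0 < y 0) {C : ℝ} (hC : 1 / 4 ≤ C)
    (h : ∑ i ∈ Finset.univ.erase 0, w i * y i ≤ C * y 0) :
    (∀ i, 0 ≤ act (inc τ) y i) ∧ 0 < act (inc τ) y 0 ∧
      ∑ i ∈ Finset.univ.erase 0, w i * act (inc τ) y i < C * act (inc τ) y 0 := by
  have hcnt : ∀ i j, ((inc τ i j : ℤ) : ℝ) = ((τ j).count i : ℝ) := fun i j => by simp [inc]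
  have h1 : ∀ i, 0 ≤ act (inc τ) y i := fun i =>
    Finset.sum_nonneg fun j _ => mul_nonneg (by rw [hcnt]; exact Nat.cast_nonneg _) (hy j)
  have h2 : ((τ 0).count 0 : ℝ) * y 0 ≤ act (inc τ) y 0 := by
    rw [← hcnt]
    exact Finset.single_le_sum (f := fun j => ((inc τ 0 j : ℤ) : ℝ) * y j)
      (fun j _ => mul_nonneg (by rw [hcnt]; exact Nat.cast_nonneg _) (hy j)) (Finset.mem_univ 0)
  have ha := hs.a_ge
  have h3 : ∑ i ∈ Finset.univ.erase 0, w i * act (inc τ) y i =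
      ∑ j, (∑ i ∈ Finset.univ.erase 0, w i * ((τ j).count i : ℝ)) * y j := by
    unfold act
    simp only [Finset.mul_sum, Finset.sum_mul]
    rw [Finset.sum_comm]
    refine Finset.sum_congr rfl fun j _ => Finset.sum_congr rfl fun i _ => ?_
    rw [hcnt]; ring
  have h4 : ∑ j, (∑ i ∈ Finset.univ.erase 0, w i * ((τ j).count i : ℝ)) * y j ≤
      1 / 2 * y 0 + ∑ j ∈ Finset.univ.erase 0, w j * y j := by
    rw [← Finset.add_sum_erase _ _ (Finset.mem_univ (0 : Fin (m+1)))]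
    refine add_le_add (mul_le_mul_of_nonneg_right hs.col0 hy0.le)
      (Finset.sum_le_sum fun j hj => ?_)
    refine mul_le_mul_of_nonneg_right ?_ (hy j)
    have h5 := hs.col j (Finset.ne_of_mem_erase hj)
    have hb0 : (0:ℝ) ≤ ((τ j).count 0 : ℝ) := Nat.cast_nonneg _
    exact le_of_mul_le_mul_left (a := ((τ 0).count 0 : ℝ)) (by linarith) (by linarith)
  have h5 : 5 * y 0 ≤ ((τ 0).count 0 : ℝ) * y 0 := mul_le_mul_of_nonneg_right ha hy0.le
  refine ⟨h1, by linarith, ?_⟩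
  rw [h3]
  have h6 : C * (5 * y 0) ≤ C * act (inc τ) y 0 :=
    mul_le_mul_of_nonneg_left (h5.trans h2) (by linarith)
  have h7 : 1 / 4 * y 0 ≤ C * y 0 := mul_le_mul_of_nonneg_right hC hy0.le
  linarith

theorem v_list (l : List (Fin (m+1) → List (Fin (m+1))))
    (hl : ∀ τ ∈ l, Hub w z τ)
    (y : Fin (m+1) → ℝ) (hy : ∀ i, 0 ≤ y i) (hy0 : 0 < y 0) {C : ℝ} (hC : 1 / 4 ≤ C)
    (h : ∑ i ∈ Finset.univ.erase 0, w i * y i ≤ C * y 0) (hne : l ≠ []) :
    (∀ i, 0 ≤ act (inc (compList l)) y i) ∧ 0 < act (inc (compList l)) y 0 ∧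
      ∑ i ∈ Finset.univ.erase 0, w i * act (inc (compList l)) y i <
        C * act (inc (compList l)) y 0 := by
  induction l with
  | nil => exact absurd rfl hne
  | cons τ l ih =>
    have hτ := hl τ (List.mem_cons_self ..)
    have hact : ∀ S T : Fin (m+1) → List (Fin (m+1)), act (inc (comp S T)) y =
        act (inc S) (act (inc T) y) := by
      intro S T
      rw [inc_comp]
      exact act_mul _ _ _
    simp only [compList]
    rw [hact]
    by_cases hl0 : l = []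
    · subst hl0
      have h1 : act (inc (compList ([] : List (Fin (m+1) → List (Fin (m+1)))))) y = y := by
        simp only [compList]
        rw [JComp_inc_id]
        exact act_one y
      rw [h1]
      exact v_step hτ y hy hy0 hC h
    · obtain ⟨h1, h2, h3⟩ := ih (fun τ' h => hl τ' (List.mem_cons_of_mem _ h)) hl0
      exact v_step hτ _ h1 h2 hC h3.le

/-- the letters different from `0` are rare -/
theorem v_lt (l : List (Fin (m+1) → List (Fin (m+1)))) (hne : l ≠ [])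
    (hl : ∀ τ ∈ l, Hub w z τ) (u : Fin (m+1) → ℝ) (hu : ∀ i, 0 < u i) (lam : ℝ)
    (hM : act (inc (compList l)) u = fun i => lam * u i) :
    ∑ i ∈ Finset.univ.erase 0, w i * u i < 1 / 4 * u 0 := by
  by_contra hcon
  push Not at hcon
  obtain ⟨C, hC⟩ : ∃ C, C = (∑ i ∈ Finset.univ.erase 0, w i * u i) / u 0 := ⟨_, rfl⟩
  have h0 := hu 0
  have h1 : ∑ i ∈ Finset.univ.erase 0, w i * u i = C * u 0 := by rw [hC]; field_simp
  have hC1 : 1 / 4 ≤ C := by
    rw [hC, le_div_iff₀ h0]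
    exact hcon
  obtain ⟨-, -, h2⟩ := v_list l hl u (fun i => (hu i).le) h0 hC1 h1.le hne
  rw [hM] at h2
  have h3 : ∑ i ∈ Finset.univ.erase 0, w i * (lam * u i) =
      lam * ∑ i ∈ Finset.univ.erase 0, w i * u i := by
    rw [Finset.mul_sum]
    exact Finset.sum_congr rfl fun i _ => by ring
  simp only at h2
  rw [h3, h1] at h2
  nlinarith

/-- the letter `0` covers at least four fifths of the tiling -/
theorem frac_ge' {M : Matrix (Fin (m+1)) (Fin (m+1)) ℤ} (P : PD M) (h1 : HR 1 w P.ell)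
    (h2 : ∑ i ∈ Finset.univ.erase 0, w i * P.u i < 1 / 4 * P.u 0) : 4 / 5 ≤ frac P := by
  unfold frac
  rw [le_div_iff₀ (den_pos P), ← Finset.add_sum_erase _ _ (Finset.mem_univ (0 : Fin (m+1)))]
  have h3 : ∑ i ∈ Finset.univ.erase 0, P.ell i * P.u i ≤
      ∑ i ∈ Finset.univ.erase 0, P.ell 0 * (w i * P.u i) := by
    refine Finset.sum_le_sum fun i hi => ?_
    have h4 := mul_le_mul_of_nonneg_right (h1.2 i (Finset.ne_of_mem_erase hi)) (P.u_pos i).le
    linarith
  rw [← Finset.mul_sum] at h3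
  have h4 := P.ell_pos 0
  have h5 : P.ell 0 * ∑ i ∈ Finset.univ.erase 0, w i * P.u i ≤
      P.ell 0 * (1 / 4 * P.u 0) := mul_le_mul_of_nonneg_left h2.le h4.le
  linarith

/-! ### coincidences -/

theorem core_hub (hw : ∀ j, 0 < w j) (hz : ∀ j, 0 ≤ z j)
    {τ : ℕ → Fin (m+1) → List (Fin (m+1))} {r : ℕ} (hτ : ∀ k, Hub w z (τ k))
    (hdet : ∀ k, (inc (τ k)).det = 1 ∨ (inc (τ k)).det = -1)
    (hper : ∀ k, τ (k + r) = τ k) (hr : 1 ≤ r)
    (P : PD (inc (cps τ r))) (hell : HR 1 w P.ell)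
    (v : Fin (m+1) → ℤ) (hv : |P.ht v| ≤ 2 / 3 * P.ell 0) :
    ∃ n : ℕ, ((inc (cps τ r)) ^ n).mulVec v ∈ QQ (iter (cps τ r) n 0) := by
  have hlam : 0 < P.lam := lt_trans one_pos P.lam_gt
  have hne : ∀ k j, τ k j ≠ [] := fun k j => ne_nil_of_det (by
    rcases hdet k with h | h <;> rw [h] <;> norm_num) j
  -- the costs
  obtain ⟨a, ha⟩ : ∃ a : ℕ → ℕ, a = fun k => (τ k 0).count 0 := ⟨_, rfl⟩
  have haper : ∀ k, a (k + r) = a k := fun k => by rw [ha]; simp only [hper]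
  have ha8 : ∀ k, 5 ≤ a k := fun k => by rw [ha]; exact (hτ k).big
  obtain ⟨L, hL⟩ : ∃ L, L = ∏ k ∈ Finset.range r, a k := ⟨_, rfl⟩
  have hLpos : 0 < L := by
    rw [hL]
    exact Finset.prod_pos fun k _ => by have := ha8 k; omega
  have hmod : ∀ k, a (k % r) = a k := by
    intro k
    induction k using Nat.strong_induction_on with
    | _ k ih =>
      rcases Nat.lt_or_ge k r with h | h
      · rw [Nat.mod_eq_of_lt h]
      · have h1 := ih (k - r) (by omega)
        have h2 : k = (k - r) + r := by omega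
        conv_lhs => rw [h2]
        rw [Nat.add_mod_right, h1]
        conv_rhs => rw [h2]
        rw [haper]
  have hdvd : ∀ k, a k ∣ L := by
    intro k
    rw [← hmod k, hL]
    exact Finset.dvd_prod_of_mem _ (Finset.mem_range.2 (Nat.mod_lt _ hr))
  have haL : ∀ k, a k ≤ L := fun k => Nat.le_of_dvd hLpos (hdvd k)
  obtain ⟨q, hq⟩ : ∃ q : ℕ → ℤ, q = fun k => ((L / a k : ℕ) : ℤ) := ⟨_, rfl⟩
  have hqa : ∀ k, q k * ((a k : ℕ) : ℤ) = (L : ℤ) := by
    intro k
    rw [hq]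
    dsimp only
    rw [← Nat.cast_mul, Nat.div_mul_cancel (hdvd k)]
  have hqpos : ∀ k, 0 < q k := by
    intro k
    have h1 := hqa k
    have h2 : (0:ℤ) < L := by exact_mod_cast hLpos
    have h3 : (0:ℤ) ≤ q k := by rw [hq]; exact Int.natCast_nonneg _
    rcases h3.lt_or_eq with h | h
    · exact h
    · rw [← h, zero_mul] at h1
      omega
  have hqper : ∀ k, q (k + r) = q k := fun k => by rw [hq]; simp only [haper]
  have hLr : (0 : ℝ) < ((L : ℤ) : ℝ) := by exact_mod_cast hLpos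
  have hq5 : ∀ k, 5 * q k ≤ (L : ℤ) := by
    intro k
    have h1 := hqa k
    have h2 : (5:ℤ) ≤ (a k : ℤ) := by exact_mod_cast ha8 k
    have := hqpos k
    nlinarith
  have hcost := col_cost hτ q hqpos (L : ℤ) (fun k => by have := hqa k; rw [ha] at this; exact this)
  -- the small constant
  obtain ⟨c, hcdef⟩ : ∃ c : ℝ, c = 2 / (((L : ℤ) : ℝ) * (((L : ℤ) : ℝ) + 2)) := ⟨_, rfl⟩
  have hc : 0 < c := by
    rw [hcdef]
    positivity
  have hcA : ∀ k, c * (((τ k 0).count 0 : ℝ) * (((τ k 0).count 0 : ℝ) + 2)) ≤ 2 := by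
    intro k
    have h1 : ((τ k 0).count 0 : ℝ) ≤ ((L : ℤ) : ℝ) := by
      have h2 := haL k
      rw [ha] at h2
      exact_mod_cast h2
    have h0 : (0 : ℝ) ≤ ((τ k 0).count 0 : ℝ) := Nat.cast_nonneg _
    have h2 : ((τ k 0).count 0 : ℝ) * (((τ k 0).count 0 : ℝ) + 2) ≤
        ((L : ℤ) : ℝ) * (((L : ℤ) : ℝ) + 2) :=
      mul_le_mul h1 (by linarith) (by linarith) hLr.le
    refine (mul_le_mul_of_nonneg_left h2 hc.le).trans (le_of_eq ?_)
    rw [hcdef]
    field_simp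
  obtain ⟨F, hF⟩ : ∃ F : ℕ, ∑ i ∈ Finset.univ.erase 0, w i * z i ≤ F * c := by
    obtain ⟨F, hF⟩ := exists_nat_ge ((∑ i ∈ Finset.univ.erase 0, w i * z i) / c)
    refine ⟨F, ?_⟩
    rwa [div_le_iff₀ hc] at hF
  obtain ⟨K1, hK1⟩ : ∃ K1, K1 = m + m * F := ⟨_, rfl⟩
  obtain ⟨K0, hK0⟩ : ∃ K0, K0 = K1 + m := ⟨_, rfl⟩
  have hmK0 : m ≤ K0 := by omega
  obtain ⟨n, E, hn, hnK0, hval, hE0, hdig⟩ := digits_cost (τ := τ) (a := fun k => ((a k : ℕ) : ℤ))
    (q := q) (Q := fun K => (L : ℤ) / 2 + q (K+1)) (K0 := K0) (r := r) (by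
      intro K hK
      obtain ⟨R, hR1, hR2⟩ := lin_cost (w := w) (τ := τ) q hqpos ((L : ℤ) : ℝ) K
        ((inc (τ K)).mulVec (ev 0)) (by
        intro i hi _
        refine hcost K i hi ?_
        have : 0 < (i : ℕ) := Nat.pos_of_ne_zero fun h => hi (Fin.ext h)
        omega)
      refine ⟨R, ?_, ?_⟩
      · rw [hR1, pv_succ]
        congr 2
        rw [mulVec_ev', ha]
        rfl
      · have h3 : ∑ i ∈ Finset.univ.erase 0, w i * |(((inc (τ K)).mulVec (ev 0) i : ℤ) : ℝ)| =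
            ∑ i ∈ Finset.univ.erase 0, w i * ((τ K 0).count i : ℝ) := by
          refine Finset.sum_congr rfl fun i _ => ?_
          rw [mulVec_ev']
          simp [inc]
        rw [h3] at hR2
        have h4 := (hτ K).col0
        have h5 : ((∑ k ∈ Finset.range K, q k * |R k| : ℤ) : ℝ) ≤ ((L : ℤ) : ℝ) * (1 / 2) :=
          hR2.trans (mul_le_mul_of_nonneg_left h4 hLr.le)
        have h6 : 2 * (∑ k ∈ Finset.range K, q k * |R k|) ≤ (L : ℤ) := by
          have : (2 : ℝ) * ((∑ k ∈ Finset.range K, q k * |R k| : ℤ) : ℝ) ≤ ((L : ℤ) : ℝ) := by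
            linarith
          exact_mod_cast this
        omega) (by
      intro K
      rw [hqa K]
      have h1 := hq5 (K+1)
      have h2 : (0:ℤ) < L := by exact_mod_cast hLpos
      omega) (by
      refine ⟨m + 1, fun x => ?_⟩
      have hd : ∀ n, IsUnit (inc (cps τ n)).det := by
        intro n
        induction n with
        | zero => rw [cps_zero, JComp_inc_id, Matrix.det_one]; exact isUnit_one
        | succ n ih =>
          rw [inc_cps_succ, Matrix.det_mul]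
          refine ih.mul ?_
          rcases hdet n with h | h <;> rw [h]
          · exact isUnit_one
          · exact isUnit_one.neg
      obtain ⟨y, hy⟩ : ∃ y, (inc (cps τ m)).mulVec y = x := by
        refine ⟨(inc (cps τ m))⁻¹.mulVec x, ?_⟩
        rw [Matrix.mulVec_mulVec, Matrix.mul_nonsing_inv _ (hd m), Matrix.one_mulVec]
      obtain ⟨R, hR1, -⟩ := lin_cost (w := w) (τ := τ) q hqpos ((L : ℤ) : ℝ) m y (by
        intro i hi _
        refine hcost m i hi ?_
        have : 0 < (i : ℕ) := Nat.pos_of_ne_zero fun h => hi (Fin.ext h)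
        omega)
      refine ⟨fun k => if k < m then R k else y 0, ?_⟩
      rw [val_succ]
      have h1 : val τ (fun k => if k < m then R k else y 0) m = val τ R m := by
        unfold val
        refine Finset.sum_congr rfl fun k hk => ?_
        simp only [if_pos (Finset.mem_range.1 hk)]
      rw [h1, hR1]
      simp only [if_neg (lt_irrefl m)]
      rw [sub_add_cancel, hy]) hper hqper hqpos hr v 0
  rw [zero_smul, add_zero] at hval
  refine ⟨n, ?_⟩
  obtain ⟨K, hKN⟩ : ∃ K, n * r = K + 1 := ⟨n * r - 1, by omega⟩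
  rw [hKN] at hval hdig hnK0
  have hE : ∀ k, K0 ≤ k → k < K → |(E k : ℝ)| ≤ ((τ k 0).count 0 : ℝ) := by
    intro k hk1 hk2
    have h1 := hdig k hk1 (by omega)
    rw [hqa k] at h1
    have h2 := hq5 (k+1)
    have h3 : q k * |E k| ≤ q k * ((a k : ℕ) : ℤ) := by
      rw [hqa k]
      omega
    have h4 : |E k| ≤ ((a k : ℕ) : ℤ) := by
      have := hqpos k
      exact le_of_mul_le_mul_left h3 this
    have h5 : ((|E k| : ℤ) : ℝ) ≤ ((((τ k 0).count 0 : ℕ) : ℤ) : ℝ) := by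
      rw [ha] at h4
      exact_mod_cast h4
    rw [Int.cast_abs] at h5
    exact_mod_cast h5
  -- balanced digits
  obtain ⟨E1, ε, hbal, hε, hE10, hE1d⟩ := rebalance hτ E hK0 hE0 K (by omega) 0 rfl
    (fun i _ => by simpa using hz i) (fun i hi => absurd rfl hi) hE
  rw [Matrix.mulVec_zero, add_zero] at hbal
  obtain ⟨G, hG⟩ : ∃ G : ℕ → ℤ, G = fun k => if k < K then E1 k else E K + ε := ⟨_, rfl⟩
  have hGK : val τ G K = val τ E1 K := by
    unfold val
    refine Finset.sum_congr rfl fun k hk => ?_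
    rw [hG]
    simp only [if_pos (Finset.mem_range.1 hk)]
  have hGtop : G K = E K + ε := by rw [hG]; simp only [if_neg (lt_irrefl K)]
  have hvalG : val τ G (K+1) = ((inc (cps τ r)) ^ n).mulVec v := by
    rw [← hval, val_succ, val_succ, hGK, hGtop, hbal, add_smul]
    abel
  have hG0 : ∀ k < K1, G k = 0 := by
    intro k hk
    rw [hG]
    dsimp only
    rw [if_pos (by omega)]
    exact hE10 k hk
  have hGd : ∀ k < K, 2 * |(G k : ℝ)| ≤ ((τ k 0).count 0 : ℝ) + 2 := by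
    intro k hk
    rw [hG]
    dsimp only
    rw [if_pos hk]
    exact hE1d k hk
  have hE1 : ∀ k < K, |(G k : ℝ)| + 1 ≤ ((τ k 0).count 0 : ℝ) := by
    intro k hk
    have h1 := hGd k hk
    have h2 := (hτ k).a_ge
    linarith
  -- heights
  have hvht := val_ht P (τ := τ) G K hE1
  have hsm : ∀ (c : ℤ) (z : Fin (m+1) → ℤ), P.ht (c • z) = c * P.ht z := by
    intro c z
    unfold PD.ht
    rw [Finset.mul_sum]
    refine Finset.sum_congr rfl fun i _ => ?_
    simp only [Pi.smul_apply, smul_eq_mul, Int.cast_mul]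
    ring
  obtain ⟨ψ, hψ⟩ : ∃ ψ, ψ = pull P.ell (cps τ K) := ⟨_, rfl⟩
  have hψ0 : P.ht (pv τ K) = ψ 0 := by
    rw [hψ, ← ab_cps]
    rfl
  have hHR : HR 1 w ψ := by
    rw [hψ]
    exact HR_cps hw τ hτ hne hell K
  have hψpos := hHR.1 0
  have hs := hτ K
  have hage := hs.a_ge
  have htop : P.ht (pv τ (K+1)) ≤ (((τ K 0).count 0 : ℝ) + 1 / 2) * ψ 0 := by
    have h1 : P.ht (pv τ (K+1)) = hh ψ (ab (τ K 0)) := by
      rw [pv_succ, hψ, ab_subst, ← hh_mulVec]
      rfl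
    rw [h1, hh_ab]
    have h2 : ∑ i ∈ Finset.univ.erase 0, ψ i * ((τ K 0).count i : ℝ) ≤
        ∑ i ∈ Finset.univ.erase 0, ψ 0 * (w i * ((τ K 0).count i : ℝ)) := by
      refine Finset.sum_le_sum fun i hi => ?_
      have h3 := mul_le_mul_of_nonneg_right (hHR.2 i (Finset.ne_of_mem_erase hi))
        (Nat.cast_nonneg ((τ K 0).count i) : (0:ℝ) ≤ _)
      linarith
    rw [← Finset.mul_sum] at h2
    have h3 := mul_le_mul_of_nonneg_left hs.col0 hψpos.le
    linarith
  have hpK1 : P.ht (pv τ (K+1)) = P.lam ^ n * P.ell 0 := by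
    rw [← hKN]
    have h1 := pv_mul_add τ hper n 0
    rw [pv_zero] at h1
    change P.ht (pv τ (n * r + 0)) = _
    rw [h1, ht_pow_mulVec, ht_ev]
  have hlamn : 0 < P.lam ^ n := pow_pos hlam n
  have hMht : |P.ht (val τ G (K+1))| ≤ 2 / 3 * P.ht (pv τ (K+1)) := by
    rw [hvalG, ht_pow_mulVec, abs_mul, abs_of_pos hlamn, hpK1]
    have := mul_le_mul_of_nonneg_left hv hlamn.le
    linarith
  have hxa : |G K| < (((τ K 0).count 0 : ℕ) : ℤ) := by
    have h1 : |(G K : ℝ)| * ψ 0 ≤ |P.ht (val τ G (K+1))| + |P.ht (val τ G K)| := by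
      have h2 : (G K : ℝ) * ψ 0 = P.ht (val τ G (K+1)) - P.ht (val τ G K) := by
        rw [val_succ, ht_add, hsm, hψ0]
        ring
      have h3 := abs_sub (P.ht (val τ G (K+1))) (P.ht (val τ G K))
      rw [← h2, abs_mul, abs_of_pos hψpos] at h3
      exact h3
    rw [hψ0] at hvht
    have h2 : |(G K : ℝ)| * ψ 0 < ((τ K 0).count 0 : ℝ) * ψ 0 := by
      have h3 : |(G K : ℝ)| * ψ 0 ≤ (2 / 3 * (((τ K 0).count 0 : ℝ) + 1 / 2) + 1) * ψ 0 := by
        nlinarith
      refine lt_of_le_of_lt h3 (mul_lt_mul_of_pos_right ?_ hψpos)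
      linarith
    have h3 := lt_of_mul_lt_mul_right h2 hψpos.le
    have h4 : ((|G K| : ℤ) : ℝ) < ((((τ K 0).count 0 : ℕ) : ℤ) : ℝ) := by
      rw [Int.cast_abs]
      exact_mod_cast h3
    exact_mod_cast h4
  obtain ⟨d, hd0, hdc, hdQ, -⟩ := window (τ K 0) w (fun i => (hw i).le) (G K) hxa
  have h1 := descend hτ hw hz hc hcA hF (le_of_eq hK1.symm) G hG0 K (by omega) (-d)
    (by rw [Pi.neg_apply, hd0, neg_zero]) (by
    intro i hi
    rw [Pi.neg_apply]
    push_cast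
    rw [abs_neg]
    have h4 : |((d i : ℤ) : ℝ)| ≤ ((τ K 0).count i : ℝ) := by
      have h5 : ((|d i| : ℤ) : ℝ) ≤ ((((τ K 0).count i : ℕ) : ℤ) : ℝ) := by
        exact_mod_cast hdc i
      rw [Int.cast_abs] at h5
      exact_mod_cast h5
    have h5 := hs.row i hi
    have h6 : 0 ≤ ∑ j ∈ Finset.univ.erase 0, z j * ((τ K j).count i : ℝ) :=
      Finset.sum_nonneg fun j _ => mul_nonneg (hz j) (Nat.cast_nonneg _)
    linarith) (fun k _ hk => hGd k hk)
  have h2 := QQ_comp (S := cps τ K) (T := τ K) hdQ h1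
  rw [← cps_succ, ← hKN, cps_mul τ hper] at h2
  convert h2 using 1
  rw [← hvalG, val_succ, Matrix.mulVec_add, mulVec_zsmul, Matrix.mulVec_neg]
  change _ = G K • pv τ K + _ + _
  abel

end Pool.Agent.K9h44.PL
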