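import Pool.Agent.K9h44.PL.HMain

/-!
The case of common bounds for the incidence matrices.
-/

set_option autoImplicit false

namespace Pool.Agent.K9h44.PL
open Pool.Agent.H812R2.PI Pool.Agent.TH100.Pisot Pool.Agent.Y316.Pisot Pool.Agent.R889.PZ
open scoped BigOperators

variable {m : ℕ}

/-- one step along the edges between letters different from `0` -/
def step (N : Fin (m+1) → Fin (m+1) → ℕ) (y : Fin (m+1) → ℕ) : Fin (m+1) → ℕ :=
  fun i => if i = 0 then 0 else ∑ j ∈ Finset.univ.erase 0, N i j * y j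

theorem step_supp {N : Fin (m+1) → Fin (m+1) → ℕ}
    (hN : ∀ i j, i ≠ 0 → j ≠ 0 → i ≤ j → N i j = 0) (k : ℕ) :
    ∀ y : Fin (m+1) → ℕ, y 0 = 0 → ∀ i, ((step N)^[k] y) i ≠ 0 → k < (i : ℕ) := by
  induction k with
  | zero =>
    intro y hy i hi
    refine Nat.pos_of_ne_zero fun h => hi ?_
    have hi0 : i = 0 := Fin.ext h
    rw [hi0]
    exact hy
  | succ k ih =>
    intro y hy i hi
    rw [Function.iterate_succ_apply'] at hi
    by_cases hi0 : i = 0
    · exfalso
      apply hi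
      simp [step, hi0]
    · simp only [step, if_neg hi0] at hi
      obtain ⟨j, hj, hj'⟩ := Finset.exists_ne_zero_of_sum_ne_zero hi
      have hj0 := Finset.ne_of_mem_erase hj
      have h1 := ih y hy j (right_ne_zero_of_mul hj')
      have h2 : ¬ i ≤ j := fun h => left_ne_zero_of_mul hj' (hN i j hi0 hj0 h)
      have h3 : (j : ℕ) < i := not_le.1 h2
      omega

theorem hub_common (hm : 1 ≤ m) (N : Fin (m+1) → Fin (m+1) → ℕ) (c : Fin (m+1) → ℕ)
    (hN : ∀ i j, i ≠ 0 → j ≠ 0 → i ≤ j → N i j = 0)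
    (hc : ∀ j, j ≠ 0 → N 0 j + ∑ i ∈ Finset.univ.erase 0, c i * N i j ≤ c j)
    (l : List (Fin (m+1) → List (Fin (m+1)))) (hne : l ≠ [])
    (hl : ∀ τ ∈ l, (∀ i j, ¬ (i = 0 ∧ j = 0) → (τ j).count i ≤ N i j) ∧
      2 * ∑ i ∈ Finset.univ.erase 0, c i * N i 0 + 3 ≤ (τ 0).count 0 ∧
      ((inc τ).det = 1 ∨ (inc τ).det = -1)) :
    PisotMat (inc (compList l)) ∧ Coinc (compList l) ∧ SemiConjToral (compList l) := by
  have hdet0 : ∀ τ ∈ l, (inc τ).det ≠ 0 := fun τ hτ => by
    rcases (hl τ hτ).2.2 with h | h <;> rw [h] <;> norm_num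
  obtain ⟨τ0, t0, ht0⟩ := List.exists_cons_of_ne_nil hne
  have hτ0 : τ0 ∈ l := by rw [ht0]; exact List.mem_cons_self ..
  have hbig0 : ∀ τ ∈ l, ∀ j i : Fin (m+1), j ≠ 0 → i ∈ τ j → i ≠ 0 → j < i := by
    intro τ hτ j i hj hi hi0
    by_contra hcon
    have h1 := (hl τ hτ).1 i j (fun h => hj h.2)
    rw [hN i j hi0 hj (not_lt.1 hcon)] at h1
    have h2 := List.count_pos_iff.2 hi
    omega
  -- the weights are positive
  have hcpos : ∀ n : ℕ, ∀ j : Fin (m+1), j ≠ 0 → m - n ≤ (j : ℕ) → 1 ≤ c j := by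
    intro n
    induction n with
    | zero =>
      intro j hj hjm
      obtain ⟨i, t, hit⟩ := List.exists_cons_of_ne_nil (ne_nil_of_det (hdet0 τ0 hτ0) j)
      have hi : i ∈ τ0 j := by rw [hit]; exact List.mem_cons_self ..
      by_cases hi0 : i = 0
      · have h1 := (hl τ0 hτ0).1 i j (fun h => hj h.2)
        have h2 := List.count_pos_iff.2 hi
        rw [hi0] at h1 h2
        have h3 := hc j hj
        omega
      · have h1 : (j : ℕ) < i := hbig0 τ0 hτ0 j i hj hi hi0
        have := i.2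
        omega
    | succ n ih =>
      intro j hj hjm
      obtain ⟨i, t, hit⟩ := List.exists_cons_of_ne_nil (ne_nil_of_det (hdet0 τ0 hτ0) j)
      have hi : i ∈ τ0 j := by rw [hit]; exact List.mem_cons_self ..
      have h1 := (hl τ0 hτ0).1 i j (fun h => hj h.2)
      have h2 := List.count_pos_iff.2 hi
      by_cases hi0 : i = 0
      · rw [hi0] at h1 h2
        have h3 := hc j hj
        omega
      · have h4 : (j : ℕ) < i := hbig0 τ0 hτ0 j i hj hi hi0
        have h5 := ih i hi0 (by omega)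
        have h6 : c i * N i j ≤ ∑ i ∈ Finset.univ.erase 0, c i * N i j :=
          Finset.single_le_sum (f := fun i => c i * N i j) (fun _ _ => Nat.zero_le _)
            (Finset.mem_erase.2 ⟨hi0, Finset.mem_univ _⟩)
        have h7 : 1 * 1 ≤ c i * N i j := Nat.mul_le_mul h5 (by omega)
        have h8 := hc j hj
        omega
  have hc1 : ∀ j, j ≠ 0 → 1 ≤ c j := fun j hj => hcpos m j hj (by omega)
  -- the number of returns
  obtain ⟨R, hR⟩ : ∃ R, R = ∑ i ∈ Finset.univ.erase 0, c i * N i 0 := ⟨_, rfl⟩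
  have hR1 : 1 ≤ R := by
    obtain ⟨j, hj⟩ : ∃ j, (1 : Fin (m+1)) ∈ τ0 j := by
      by_contra hcon
      push Not at hcon
      apply hdet0 τ0 hτ0
      apply Matrix.det_eq_zero_of_row_eq_zero 1
      intro j
      simp [inc, List.count_eq_zero_of_not_mem (hcon j)]
    have hj0 : j = 0 := by
      by_contra hj0
      have h1 : (j : ℕ) < (1 : Fin (m+1)) := hbig0 τ0 hτ0 j 1 hj0 hj (one_ne hm)
      rw [Fin.val_one', Nat.mod_eq_of_lt (by omega)] at h1
      exact hj0 (Fin.ext (by rw [Fin.val_zero]; omega))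
    rw [hj0] at hj
    have h1 := (hl τ0 hτ0).1 1 0 (fun h => one_ne hm h.1)
    have h2 := List.count_pos_iff.2 hj
    have h3 : c 1 * N 1 0 ≤ R := by
      rw [hR]
      exact Finset.single_le_sum (f := fun i => c i * N i 0) (fun _ _ => Nat.zero_le _)
        (Finset.mem_erase.2 ⟨one_ne hm, Finset.mem_univ _⟩)
    have h4 : 1 * 1 ≤ c 1 * N 1 0 := Nat.mul_le_mul (hc1 1 (one_ne hm)) (by omega)
    omega
  obtain ⟨A, hA⟩ : ∃ A : ℝ, A = 2 * (R : ℝ) + 3 := ⟨_, rfl⟩
  have hApos : 0 < A := by rw [hA]; positivity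
  -- the rows
  obtain ⟨κ, hκ⟩ : ∃ κ : Fin (m+1) → ℕ, κ = fun i => if i = 0 then 0 else N i 0 := ⟨_, rfl⟩
  have hκ0 : κ 0 = 0 := by rw [hκ]; simp
  obtain ⟨Z, hZ⟩ : ∃ Z : ℕ → Fin (m+1) → ℕ, Z = fun k => (step N)^[k] κ := ⟨_, rfl⟩
  have hZ0 : Z 0 = κ := by rw [hZ]; rfl
  have hZs : ∀ k, Z (k+1) = step N (Z k) := fun k => by
    rw [hZ]
    exact Function.iterate_succ_apply' _ _ _
  have hZm : ∀ i, Z m i = 0 := by
    intro i
    by_contra h
    rw [hZ] at h
    have h1 := step_supp hN m κ hκ0 i h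
    have h2 := i.2
    omega
  obtain ⟨z, hz⟩ : ∃ z : Fin (m+1) → ℕ, z = fun i => ∑ k ∈ Finset.range m, Z k i := ⟨_, rfl⟩
  have hrow : ∀ i, i ≠ 0 → N i 0 + ∑ j ∈ Finset.univ.erase 0, z j * N i j = z i := by
    intro i hi
    have h1 : ∑ j ∈ Finset.univ.erase 0, z j * N i j = ∑ k ∈ Finset.range m, Z (k+1) i := by
      rw [hz]
      simp only [Finset.sum_mul]
      rw [Finset.sum_comm]
      refine Finset.sum_congr rfl fun k _ => ?_
      rw [hZs]
      simp only [step, if_neg hi]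
      exact Finset.sum_congr rfl fun j _ => mul_comm _ _
    have h2 : N i 0 = Z 0 i := by rw [hZ0, hκ]; simp [hi]
    rw [h1, h2, add_comm, ← Finset.sum_range_succ' (fun k => Z k i), Finset.sum_range_succ,
      hZm, add_zero, hz]
  have htel : ∀ n : ℕ, ∑ k ∈ Finset.range n, ∑ j ∈ Finset.univ.erase 0, N 0 j * Z k j +
      ∑ j ∈ Finset.univ.erase 0, c j * Z n j ≤ R := by
    intro n
    induction n with
    | zero =>
      rw [Finset.range_zero, Finset.sum_empty, zero_add, hR]
      refine le_of_eq (Finset.sum_congr rfl fun j hj => ?_)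
      rw [hZ0, hκ]
      simp [Finset.ne_of_mem_erase hj]
    | succ n ih =>
      refine le_trans ?_ ih
      rw [Finset.sum_range_succ, add_assoc]
      refine Nat.add_le_add_left ?_ _
      have h1 : ∑ i ∈ Finset.univ.erase 0, c i * Z (n+1) i =
          ∑ j ∈ Finset.univ.erase 0, (∑ i ∈ Finset.univ.erase 0, c i * N i j) * Z n j := by
        simp only [Finset.sum_mul]
        rw [Finset.sum_comm]
        refine Finset.sum_congr rfl fun i hi => ?_
        rw [hZs]
        simp only [step, if_neg (Finset.ne_of_mem_erase hi), Finset.mul_sum]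
        exact Finset.sum_congr rfl fun j _ => (mul_assoc _ _ _).symm
      rw [h1, ← Finset.sum_add_distrib]
      refine Finset.sum_le_sum fun j hj => ?_
      rw [← add_mul]
      exact Nat.mul_le_mul_right _ (hc j (Finset.ne_of_mem_erase hj))
  have hrow0 : ∑ j ∈ Finset.univ.erase 0, z j * N 0 j ≤ R := by
    refine le_trans (le_of_eq ?_) ((Nat.le_add_right _ _).trans (htel m))
    rw [hz]
    simp only [Finset.sum_mul]
    rw [Finset.sum_comm]
    exact Finset.sum_congr rfl fun k _ => Finset.sum_congr rfl fun j _ => mul_comm _ _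
  -- the conditions
  refine hub_main hm (w := fun j => if j = 0 then 1 else (c j : ℝ) / A) (z := fun j => (z j : ℝ))
    ?_ (fun j => Nat.cast_nonneg _) l hne fun τ hτ => ⟨?_, (hl τ hτ).2.2⟩
  · intro j
    split_ifs with h
    · exact one_pos
    · have h1 : (0:ℝ) < c j := by exact_mod_cast hc1 j h
      exact div_pos h1 hApos
  · obtain ⟨h1, h2, -⟩ := hl τ hτ
    rw [← hR] at h2
    have h2r : A ≤ ((τ 0).count 0 : ℝ) := by
      rw [hA]
      exact_mod_cast h2
    have hwsum : ∀ j, ∑ i ∈ Finset.univ.erase (0 : Fin (m+1)),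
        (if i = 0 then (1:ℝ) else (c i : ℝ) / A) * ((τ j).count i : ℝ) =
        (∑ i ∈ Finset.univ.erase 0, (c i : ℝ) * ((τ j).count i : ℝ)) / A := by
      intro j
      rw [Finset.sum_div]
      refine Finset.sum_congr rfl fun i hi => ?_
      rw [if_neg (Finset.ne_of_mem_erase hi)]
      ring
    refine ⟨by omega, fun j hj i hi hi0 => hbig0 τ hτ j i hj hi hi0, ?_, ?_, ?_, ?_⟩
    · intro j hj
      rw [hwsum, if_neg hj]
      have h3 : ((τ j).count 0 : ℝ) +
          ∑ i ∈ Finset.univ.erase 0, (c i : ℝ) * ((τ j).count i : ℝ) ≤ (c j : ℝ) := by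
        have h4 := hc j hj
        have h5 := h1 0 j (fun h => hj h.2)
        have h6 : ∑ i ∈ Finset.univ.erase 0, c i * (τ j).count i ≤
            ∑ i ∈ Finset.univ.erase 0, c i * N i j :=
          Finset.sum_le_sum fun i hi => Nat.mul_le_mul_left _
            (h1 i j (fun h => Finset.ne_of_mem_erase hi h.1))
        have h7 : (τ j).count 0 + ∑ i ∈ Finset.univ.erase 0, c i * (τ j).count i ≤ c j := by
          omega
        exact_mod_cast h7
      have h4 : (0:ℝ) ≤ ((τ j).count 0 : ℝ) := Nat.cast_nonneg _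
      have h5 : ((τ j).count 0 : ℝ) ≤ ((τ 0).count 0 : ℝ) * (((τ j).count 0 : ℝ) / A) := by
        rw [← mul_div_assoc, le_div_iff₀ hApos, mul_comm]
        exact mul_le_mul_of_nonneg_right h2r h4
      have h6 : ((τ 0).count 0 : ℝ) * ((((τ j).count 0 : ℝ) +
          ∑ i ∈ Finset.univ.erase 0, (c i : ℝ) * ((τ j).count i : ℝ)) / A) ≤
          ((τ 0).count 0 : ℝ) * ((c j : ℝ) / A) := by
        refine mul_le_mul_of_nonneg_left ?_ (Nat.cast_nonneg _)
        exact div_le_div_of_nonneg_right h3 hApos.le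
      rw [add_div, mul_add] at h6
      linarith
    · rw [hwsum, div_le_iff₀ hApos]
      have h3 : ∑ i ∈ Finset.univ.erase 0, c i * (τ 0).count i ≤ R := by
        rw [hR]
        exact Finset.sum_le_sum fun i hi => Nat.mul_le_mul_left _
          (h1 i 0 (fun h => Finset.ne_of_mem_erase hi h.1))
      have h4 : ∑ i ∈ Finset.univ.erase 0, (c i : ℝ) * ((τ 0).count i : ℝ) ≤ (R : ℝ) := by
        exact_mod_cast h3
      rw [hA]
      linarith
    · intro i hi
      have h3 : (τ 0).count i + ∑ j ∈ Finset.univ.erase 0, z j * (τ j).count i ≤ z i := by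
        rw [← hrow i hi]
        refine Nat.add_le_add (h1 i 0 (fun h => hi h.1)) ?_
        exact Finset.sum_le_sum fun j _ => Nat.mul_le_mul_left _ (h1 i j (fun h => hi h.1))
      exact_mod_cast h3
    · have h3 : ∑ j ∈ Finset.univ.erase 0, z j * (τ j).count 0 ≤ R := by
        refine le_trans (Finset.sum_le_sum fun j hj => Nat.mul_le_mul_left _
          (h1 0 j (fun h => Finset.ne_of_mem_erase hj h.2))) hrow0
      have h4 : 2 * ∑ j ∈ Finset.univ.erase 0, z j * (τ j).count 0 + 2 < (τ 0).count 0 := by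
        omega
      exact_mod_cast h4

end Pool.Agent.K9h44.PL
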