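import Pool.Agent.K9h44.PL.Pis

/-!
Final form, and the case of companion matrices.
-/

set_option autoImplicit false

namespace Pool.Agent.K9h44.PL
open Pool.Agent.H812R2.PI Pool.Agent.TH100.Pisot Pool.Agent.Y316.Pisot Pool.Agent.R889.PZ
open scoped BigOperators

variable {m : ℕ}

theorem semi_of_gcc {S : Fin (m+1) → List (Fin (m+1))} (hM : PisotMat (inc S))
    (h : ∀ P : PD (inc S), GCC P.ell S) : Coinc S ∧ SemiConjToral S := by
  have hnn : ∀ i j, 0 ≤ inc S i j := fun i j => by unfold inc; positivity
  obtain ⟨lam, u, hlam, hu, husum⟩ := exists_u (inc S) hnn hM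
  obtain ⟨P, -, -⟩ := exists_PD (inc S) hnn hM lam hlam u hu husum
  have hdet : IsUnit (inc S).det := by
    rcases hM.2.1 with h | h
    · rw [h]; exact isUnit_one
    · rw [h]; exact isUnit_one.neg
  have hg := h P
  exact ⟨(coinc_iff P).2 hg, semi_of_hit P hdet
    (gcc_hit P S 1 le_rfl (by rw [pow_one]) hg)⟩

theorem sparse_main (hm : 1 ≤ m) (w : Fin (m+1) → ℕ)
    (l : List (Fin (m+1) → List (Fin (m+1)))) (hne : l ≠ [])
    (hl : ∀ τ ∈ l, Sparse w τ ∧ ((inc τ).det = 1 ∨ (inc τ).det = -1)) :
    PisotMat (inc (compList l)) ∧ Coinc (compList l) ∧ SemiConjToral (compList l) := by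
  have h1 := pisot_list hm l hne hl
  exact ⟨h1, semi_of_gcc h1 fun P => gcc_list hm l hne hl P⟩

/-- a word with a single letter different from `0` -/
theorem single_split (b : Fin (m+1)) (W : List (Fin (m+1)))
    (h : ∀ i, i ≠ 0 → W.count i = if i = b then 1 else 0) (hb : b ≠ 0) :
    ∃ p q : ℕ, W = List.replicate p 0 ++ [b] ++ List.replicate q 0 := by
  have hmem : b ∈ W := by
    rw [← List.count_pos_iff, h b hb, if_pos rfl]
    exact one_pos
  obtain ⟨s, t, rfl⟩ := List.append_of_mem hmem
  have hcb := h b hb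
  rw [List.count_append, List.count_cons_self, if_pos rfl] at hcb
  have hz : ∀ i ∈ s ++ t, i = 0 := by
    intro i hi
    by_contra hi0
    have h1 := List.count_pos_iff.2 hi
    have h2 := h i hi0
    rw [List.count_append, List.count_cons] at h2
    rw [List.count_append] at h1
    by_cases hib : i = b
    · subst hib
      omega
    · rw [if_neg hib] at h2
      omega
  refine ⟨s.length, t.length, ?_⟩
  have hs : s = List.replicate s.length 0 :=
    List.eq_replicate_iff.2 ⟨rfl, fun i hi => hz i (List.mem_append_left _ hi)⟩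
  have ht : t = List.replicate t.length 0 :=
    List.eq_replicate_iff.2 ⟨rfl, fun i hi => hz i (List.mem_append_right _ hi)⟩
  rw [← hs, ← ht]
  simp

/-- Companion matrices, all letter orders: `j` is mapped to any word with at most `c j` letters `0`
and one letter `j + 1` (no such letter if `j = m`), and `0` is mapped to any word with one letter
`1` and at least `∑ c j + 4` letters `0`. -/
theorem companion (hm : 1 ≤ m) (c : Fin (m+1) → ℕ)
    (l : List (Fin (m+1) → List (Fin (m+1)))) (hne : l ≠ [])
    (hl : ∀ τ ∈ l, (∀ j i : Fin (m+1), i ≠ 0 → (τ j).count i = if (i : ℕ) = j + 1 then 1 else 0) ∧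
      (∀ j, j ≠ 0 → (τ j).count 0 ≤ c j) ∧ ∑ j ∈ Finset.univ.erase 0, c j + 4 ≤ (τ 0).count 0 ∧
      ((inc τ).det = 1 ∨ (inc τ).det = -1)) :
    PisotMat (inc (compList l)) ∧ Coinc (compList l) ∧ SemiConjToral (compList l) := by
  classical
  have h10 : (1 : Fin (m+1)) ≠ 0 := by
    intro h
    have h1 := congrArg Fin.val h
    rw [Fin.val_one', Fin.val_zero, Nat.mod_eq_of_lt (by omega)] at h1
    exact one_ne_zero h1
  have hv1 : ((1 : Fin (m+1)) : ℕ) = 1 := by
    rw [Fin.val_one', Nat.mod_eq_of_lt (by omega)]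
  refine sparse_main hm (fun j => ∑ i ∈ Finset.univ.filter (fun i => j ≤ i), c i) l hne
    fun τ hτ => ⟨?_, (hl τ hτ).2.2.2⟩
  obtain ⟨h1, h2, h3, -⟩ := hl τ hτ
  -- the weighted sums
  have hsum : ∀ j : Fin (m+1), ∑ i ∈ Finset.univ.erase 0,
      (∑ k ∈ Finset.univ.filter (fun k => i ≤ k), c k) * (τ j).count i =
      ∑ k ∈ Finset.univ.filter (fun k => j < k), c k := by
    intro j
    by_cases hj : (j : ℕ) + 1 < m + 1
    · obtain ⟨b, hb⟩ : ∃ b : Fin (m+1), b = ⟨j + 1, hj⟩ := ⟨_, rfl⟩
      have hbv : (b : ℕ) = j + 1 := by rw [hb]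
      have hb0 : b ≠ 0 := by
        intro h
        rw [h, Fin.val_zero] at hbv
        omega
      rw [Finset.sum_eq_single b]
      · rw [h1 j b hb0, if_pos hbv, mul_one]
        refine Finset.sum_congr ?_ fun _ _ => rfl
        ext k
        simp only [Finset.mem_filter, Finset.mem_univ, true_and]
        rw [Fin.le_def, Fin.lt_def, hbv]
        exact Nat.succ_le_iff
      · intro i hi hib
        rw [h1 j i (Finset.ne_of_mem_erase hi), if_neg, mul_zero]
        intro h
        exact hib (Fin.ext (by rw [h, hbv]))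
      · intro h
        exact absurd (Finset.mem_erase.2 ⟨hb0, Finset.mem_univ b⟩) h
    · rw [Finset.sum_eq_zero, Finset.sum_eq_zero]
      · intro k hk
        exfalso
        have h4 := (Finset.mem_filter.1 hk).2
        rw [Fin.lt_def] at h4
        have := k.2
        omega
      · intro i hi
        rw [h1 j i (Finset.ne_of_mem_erase hi), if_neg, mul_zero]
        intro h
        have := i.2
        omega
  refine ⟨?_, ?_, ?_, ?_⟩
  · obtain ⟨p, q, hpq⟩ := single_split (1 : Fin (m+1)) (τ 0) (by
      intro i hi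
      rw [h1 0 i hi, Fin.val_zero, zero_add]
      by_cases h : i = 1
      · rw [if_pos h, if_pos (by rw [h]; exact hv1)]
      · rw [if_neg h, if_neg]
        intro h'
        exact h (Fin.ext (by rw [h', hv1]))) h10
    exact ⟨p, q, [1], hpq, by simpa using h10.symm⟩
  · rw [hsum 0]
    refine le_trans (Nat.add_le_add_right (le_of_eq ?_) 4) h3
    refine Finset.sum_congr ?_ fun _ _ => rfl
    ext k
    simp only [Finset.mem_filter, Finset.mem_univ, true_and, Finset.mem_erase, and_true]
    exact Fin.pos_iff_ne_zero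
  · intro j _ i hi hi0
    have h4 := List.count_pos_iff.2 hi
    rw [h1 j i hi0] at h4
    by_cases h : (i : ℕ) = j + 1
    · rw [Fin.lt_def]
      omega
    · rw [if_neg h] at h4
      omega
  · intro j hj
    rw [hsum j]
    have h4 : Finset.univ.filter (fun i : Fin (m+1) => j ≤ i) =
        insert j (Finset.univ.filter (fun k => j < k)) := by
      ext k
      simp only [Finset.mem_filter, Finset.mem_univ, true_and, Finset.mem_insert]
      rw [le_iff_eq_or_lt]
      exact ⟨fun h => h.imp (fun h => h.symm) id, fun h => h.imp (fun h => h.symm) id⟩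
    rw [h4, Finset.sum_insert (by simp)]
    have := h2 j hj
    omega

end Pool.Agent.K9h44.PL
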