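import Pool.Agent.K9h44.PL.HBounds
import Pool.Agent.K9h44.PL.Main

/-!
Compositions of substitutions whose letter `0` is a hub: the geometric coincidence condition and
the Pisot property.
-/

set_option autoImplicit false

namespace Pool.Agent.K9h44.PL
open Pool.Agent.H812R2.PI Pool.Agent.TH100.Pisot Pool.Agent.Y316.Pisot Pool.Agent.R889.PZ
open scoped BigOperators

variable {m : ℕ} {w z : Fin (m+1) → ℝ}

/-- compositions of substitutions whose letter `0` is a hub -/
theorem gcc_list_hub (hm : 1 ≤ m) (hw : ∀ j, 0 < w j) (hz : ∀ j, 0 ≤ z j)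
    (l : List (Fin (m+1) → List (Fin (m+1)))) (hne : l ≠ [])
    (hl : ∀ τ ∈ l, Hub w z τ ∧ ((inc τ).det = 1 ∨ (inc τ).det = -1))
    (P : PD (inc (compList l))) : GCC P.ell (compList l) := by
  have hlen : 1 ≤ l.length := List.length_pos_iff.2 hne
  have hdet0 : ∀ τ ∈ l, (inc τ).det ≠ 0 := fun τ hτ => by
    rcases (hl τ hτ).2 with h | h <;> rw [h] <;> norm_num
  have hell := ell_HR hm hw l hne (fun τ hτ => ⟨(hl τ hτ).1, ne_nil_of_det (hdet0 τ hτ)⟩) P
  have hu := v_lt l hne (fun τ hτ => (hl τ hτ).1) P.u P.u_pos P.lam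
    (by funext i; exact P.M_u i)
  obtain ⟨τ, hτ⟩ : ∃ τ : ℕ → Fin (m+1) → List (Fin (m+1)),
      τ = fun k => l[k % l.length]'(Nat.mod_lt _ hlen) := ⟨_, rfl⟩
  have hmem : ∀ k, τ k ∈ l := fun k => by
    rw [hτ]
    exact List.getElem_mem _
  have hmap : (List.range l.length).map τ = l := by
    apply List.ext_getElem
    · simp
    · intro k h1 h2
      rw [List.getElem_map, List.getElem_range, hτ]
      simp only [Nat.mod_eq_of_lt h2]
  have hcps : cps τ l.length = compList l := by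
    unfold cps
    rw [hmap]
  have hper : ∀ k, τ (k + l.length) = τ k := by
    intro k
    rw [hτ]
    simp only [Nat.add_mod_right]
  revert P
  rw [← hcps]
  intro P hell hu
  have hfr := frac_ge' P hell hu
  exact gcc_of_zero P (h0 := 2 / 3) (by norm_num) (by norm_num) (by linarith) fun v hv =>
    core_hub hw hz (fun k => (hl _ (hmem k)).1) (fun k => (hl _ (hmem k)).2) hper hlen P hell
      v hv

/-! ### the Pisot property -/

/-- the cone -/
def KW (w : Fin (m+1) → ℝ) (f : Fin (m+1) → ℂ) : Prop :=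
  ∀ j, j ≠ 0 → ‖f j‖ ≤ 2 * w j * ‖f 0‖

theorem rc_zero_ge (τ : Fin (m+1) → List (Fin (m+1))) (f : Fin (m+1) → ℂ) :
    ((τ 0).count 0 : ℝ) * ‖f 0‖ ≤ ‖rc τ f 0‖ +
      ∑ i ∈ Finset.univ.erase 0, ‖f i‖ * ((τ 0).count i : ℝ) := by
  have h1 : rc τ f 0 = f 0 * (((τ 0).count 0 : ℕ) : ℂ) +
      ∑ i ∈ Finset.univ.erase 0, f i * (((τ 0).count i : ℕ) : ℂ) := by
    rw [Finset.add_sum_erase _ (fun i => f i * (((τ 0).count i : ℕ) : ℂ))
      (Finset.mem_univ (0 : Fin (m+1)))]
    unfold rc inc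
    simp
  have h4 : f 0 * (((τ 0).count 0 : ℕ) : ℂ) = rc τ f 0 -
      ∑ i ∈ Finset.univ.erase 0, f i * (((τ 0).count i : ℕ) : ℂ) := by
    rw [h1]; ring
  have h5 := norm_sub_le (rc τ f 0)
    (∑ i ∈ Finset.univ.erase 0, f i * (((τ 0).count i : ℕ) : ℂ))
  rw [← h4, norm_mul, Complex.norm_natCast] at h5
  have h6 : ‖∑ i ∈ Finset.univ.erase 0, f i * (((τ 0).count i : ℕ) : ℂ)‖ ≤
      ∑ i ∈ Finset.univ.erase 0, ‖f i‖ * ((τ 0).count i : ℝ) := by
    refine (norm_sum_le _ _).trans (le_of_eq (Finset.sum_congr rfl fun i _ => ?_))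
    rw [norm_mul, Complex.norm_natCast]
  linarith

theorem KW_step {τ : Fin (m+1) → List (Fin (m+1))} (hw : ∀ j, 0 < w j) (hs : Hub w z τ)
    {f : Fin (m+1) → ℂ} (h : KW w f) : KW w (rc τ f) := by
  have h0 : (0:ℝ) ≤ ‖f 0‖ := norm_nonneg _
  have ha := hs.a_ge
  obtain ⟨a, hA⟩ : ∃ a : ℝ, a = ((τ 0).count 0 : ℝ) := ⟨_, rfl⟩
  have hsum : ∀ j, ∑ i ∈ Finset.univ.erase 0, ‖f i‖ * ((τ j).count i : ℝ) ≤
      2 * ‖f 0‖ * ∑ i ∈ Finset.univ.erase 0, w i * ((τ j).count i : ℝ) := by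
    intro j
    rw [Finset.mul_sum]
    refine Finset.sum_le_sum fun i hi => ?_
    have h3 := mul_le_mul_of_nonneg_right (h i (Finset.ne_of_mem_erase hi))
      (Nat.cast_nonneg ((τ j).count i) : (0:ℝ) ≤ _)
    linarith
  have hbig : (a - 1) * ‖f 0‖ ≤ ‖rc τ f 0‖ := by
    have h1 := rc_zero_ge τ f
    have h2 := hsum 0
    have h3 := mul_le_mul_of_nonneg_left hs.col0 (by linarith : (0:ℝ) ≤ 2 * ‖f 0‖)
    rw [← hA] at h1
    linarith
  intro j hj
  have h1 := norm_rc_le τ f j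
  have h2 := hsum j
  obtain ⟨s, hs'⟩ : ∃ s, s = ∑ i ∈ Finset.univ.erase 0, w i * ((τ j).count i : ℝ) := ⟨_, rfl⟩
  have hs0 : 0 ≤ s := by
    rw [hs']
    exact Finset.sum_nonneg fun i _ => mul_nonneg (hw i).le (Nat.cast_nonneg _)
  have hcol := hs.col j hj
  rw [← hs', ← hA] at hcol
  rw [← hs'] at h2
  rw [← hA] at ha
  have h3 : ((τ j).count 0 : ℝ) + 2 * s ≤ a * w j := by
    have : 2 * s ≤ a * s := mul_le_mul_of_nonneg_right (by linarith) hs0
    linarith
  have hwj := hw j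
  have h4 : a * w j ≤ 2 * w j * (a - 1) := by nlinarith
  calc ‖rc τ f j‖ ≤ ‖f 0‖ * (((τ j).count 0 : ℝ) + 2 * s) := by linarith
    _ ≤ ‖f 0‖ * (2 * w j * (a - 1)) := mul_le_mul_of_nonneg_left (h3.trans h4) h0
    _ = 2 * w j * ((a - 1) * ‖f 0‖) := by ring
    _ ≤ 2 * w j * ‖rc τ f 0‖ := mul_le_mul_of_nonneg_left hbig (by linarith)

theorem KW_list (hw : ∀ j, 0 < w j) (l : List (Fin (m+1) → List (Fin (m+1))))
    (hl : ∀ τ ∈ l, Hub w z τ) :
    ∀ f : Fin (m+1) → ℂ, KW w f → KW w (rc (compList l) f) := by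
  induction l with
  | nil => intro f hf; simp only [compList]; rw [rc_id]; exact hf
  | cons τ l ih =>
    intro f hf
    simp only [compList]
    rw [rc_comp]
    exact ih (fun τ' h => hl τ' (List.mem_cons_of_mem _ h)) _
      (KW_step hw (hl τ (List.mem_cons_self ..)) hf)

/-- bounds, strict for the indices `≥ s` -/
def SW (w : Fin (m+1) → ℝ) (C : ℝ) (s : ℕ) (f : Fin (m+1) → ℂ) : Prop :=
  ∀ j : Fin (m+1), j ≠ 0 → ‖f j‖ ≤ C * w j ∧ (s ≤ j → ‖f j‖ < C * w j)

theorem SW_step (hm : 1 ≤ m) (hw : ∀ j, 0 < w j) {τ : Fin (m+1) → List (Fin (m+1))}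
    (hs : Hub w z τ) (hne : ∀ j, τ j ≠ []) {C : ℝ} {s : ℕ} {f : Fin (m+1) → ℂ}
    (h : SW w C s f) (hK : ¬ KW w (rc τ f)) : SW w C (s - 1) (rc τ f) := by
  have ha := hs.a_ge
  obtain ⟨a, hA⟩ : ∃ a : ℝ, a = ((τ 0).count 0 : ℝ) := ⟨_, rfl⟩
  rw [← hA] at ha
  have hC : 0 ≤ C := by
    have h1 := (h 1 (one_ne hm)).1
    have h2 := norm_nonneg (f 1)
    have h3 := hw 1
    by_contra hcon
    push Not at hcon
    nlinarith
  have hle : ∀ (j : Fin (m+1)), ∀ i ∈ Finset.univ.erase (0 : Fin (m+1)),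
      ‖f i‖ * ((τ j).count i : ℝ) ≤ C * (w i * ((τ j).count i : ℝ)) := by
    intro j i hi
    have h5 := mul_le_mul_of_nonneg_right (h i (Finset.ne_of_mem_erase hi)).1
      (Nat.cast_nonneg ((τ j).count i) : (0:ℝ) ≤ _)
    linarith
  have hsum : ∀ j, ∑ i ∈ Finset.univ.erase 0, ‖f i‖ * ((τ j).count i : ℝ) ≤
      C * ∑ i ∈ Finset.univ.erase 0, w i * ((τ j).count i : ℝ) := by
    intro j
    rw [Finset.mul_sum]
    exact Finset.sum_le_sum (hle j)
  -- the maximal ratio afterwards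
  obtain ⟨j0, hj0, hmax⟩ := Finset.exists_max_image (Finset.univ.erase (0 : Fin (m+1)))
    (fun j => ‖rc τ f j‖ / w j) ⟨1, Finset.mem_erase.2 ⟨one_ne hm, Finset.mem_univ _⟩⟩
  have hj0' := Finset.ne_of_mem_erase hj0
  obtain ⟨C', hC'⟩ : ∃ C', C' = ‖rc τ f j0‖ / w j0 := ⟨_, rfl⟩
  have hC'j : ‖rc τ f j0‖ = C' * w j0 := by
    rw [hC']
    have := hw j0
    field_simp
  have hf'0 : ‖rc τ f 0‖ < C' / 2 := by
    unfold KW at hK
    push Not at hK
    obtain ⟨j, hj, hj'⟩ := hK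
    have h1 := hmax j (Finset.mem_erase.2 ⟨hj, Finset.mem_univ _⟩)
    rw [div_le_iff₀ (hw j), ← hC'] at h1
    have h2 := hw j
    by_contra hcon
    push Not at hcon
    nlinarith
  have haf : a * ‖f 0‖ < (C' + C) / 2 := by
    have h1 := rc_zero_ge τ f
    have h2 := hsum 0
    have h3 := mul_le_mul_of_nonneg_left hs.col0 hC
    rw [← hA] at h1
    linarith
  -- general bound
  have hgen : ∀ j, j ≠ 0 → ∃ s : ℝ, 0 ≤ s ∧ s ≤ w j ∧ ‖rc τ f j‖ ≤ a * ‖f 0‖ * (w j - s) + C * s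
      := by
    intro j hj
    refine ⟨∑ i ∈ Finset.univ.erase 0, w i * ((τ j).count i : ℝ), ?_, ?_, ?_⟩
    · exact Finset.sum_nonneg fun i _ => mul_nonneg (hw i).le (Nat.cast_nonneg _)
    · have hcol := hs.col j hj
      rw [← hA] at hcol
      have hb0 : (0:ℝ) ≤ ((τ j).count 0 : ℝ) := Nat.cast_nonneg _
      refine le_of_mul_le_mul_left (a := a) ?_ (by linarith)
      linarith
    · have h1 := norm_rc_le τ f j
      have h2 := hsum j
      have hcol := hs.col j hj
      rw [← hA] at hcol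
      have h3 := mul_le_mul_of_nonneg_left hcol (norm_nonneg (f 0))
      linarith
  have hCC : C' ≤ C := by
    by_contra hcon
    push Not at hcon
    obtain ⟨s, hs0, hs1, hs2⟩ := hgen j0 hj0'
    rw [hC'j] at hs2
    have h1 : a * ‖f 0‖ < C' := by linarith
    rcases hs1.lt_or_eq with h2 | h2
    · have h3 : a * ‖f 0‖ * (w j0 - s) < C' * (w j0 - s) :=
        mul_lt_mul_of_pos_right h1 (by linarith)
      have h4 : C * s ≤ C' * s := mul_le_mul_of_nonneg_right hcon.le hs0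
      linarith
    · rw [h2, sub_self, mul_zero, zero_add] at hs2
      have := hw j0
      nlinarith
  have haC : a * ‖f 0‖ < C := by linarith
  intro j hj
  refine ⟨?_, fun hsj => ?_⟩
  · have h1 := hmax j (Finset.mem_erase.2 ⟨hj, Finset.mem_univ _⟩)
    rw [div_le_iff₀ (hw j), ← hC'] at h1
    have := mul_le_mul_of_nonneg_right hCC (hw j).le
    linarith
  · have hcol := hs.col j hj
    rw [← hA] at hcol
    have h1 := norm_rc_le τ f j
    have h2 := hsum j
    obtain ⟨c, t, hct⟩ := List.exists_cons_of_ne_nil (hne j)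
    have hc : c ∈ τ j := by rw [hct]; exact List.mem_cons_self ..
    have hcnt : (0:ℝ) < ((τ j).count c : ℝ) := by exact_mod_cast List.count_pos_iff.2 hc
    have hb0 : (0:ℝ) ≤ ((τ j).count 0 : ℝ) := Nat.cast_nonneg _
    obtain ⟨t', ht'⟩ : ∃ t', t' = ∑ i ∈ Finset.univ.erase 0, w i * ((τ j).count i : ℝ) :=
      ⟨_, rfl⟩
    rw [← ht'] at hcol h2
    have hmain : a * (‖f 0‖ * ((τ j).count 0 : ℝ) + C * t') ≤ a * (C * w j) := by
      have h3 := mul_le_mul_of_nonneg_left hcol hC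
      have h4 : a * ‖f 0‖ * ((τ j).count 0 : ℝ) ≤ C * ((τ j).count 0 : ℝ) :=
        mul_le_mul_of_nonneg_right haC.le hb0
      linarith
    by_cases hc0 : c = 0
    · subst hc0
      have h5 : a * ‖f 0‖ * ((τ j).count 0 : ℝ) < C * ((τ j).count 0 : ℝ) :=
        mul_lt_mul_of_pos_right haC hcnt
      have h3 := mul_le_mul_of_nonneg_left hcol hC
      have h6 : a * (‖f 0‖ * ((τ j).count 0 : ℝ) + C * t') < a * (C * w j) := by linarith
      have h7 := lt_of_mul_lt_mul_left h6 (by linarith)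
      linarith
    · have h5 : (j : ℕ) < c := hs.tri j hj c hc hc0
      have h6 := (h c hc0).2 (by omega)
      have h7 : ∑ i ∈ Finset.univ.erase 0, ‖f i‖ * ((τ j).count i : ℝ) < C * t' := by
        rw [ht', Finset.mul_sum]
        refine Finset.sum_lt_sum (hle j) ⟨c, Finset.mem_erase.2 ⟨hc0, Finset.mem_univ _⟩, ?_⟩
        have := mul_lt_mul_of_pos_right h6 hcnt
        linarith
      have h8 := le_of_mul_le_mul_left hmain (by linarith)
      linarith

theorem SW_list (hm : 1 ≤ m) (hw : ∀ j, 0 < w j)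
    (l : List (Fin (m+1) → List (Fin (m+1)))) (hl : ∀ τ ∈ l, Hub w z τ ∧ ∀ j, τ j ≠ [])
    {C : ℝ} : ∀ (s : ℕ) (f : Fin (m+1) → ℂ), SW w C s f → ¬ KW w (rc (compList l) f) →
    SW w C (s - l.length) (rc (compList l) f) := by
  induction l with
  | nil =>
    intro s f h _
    simp only [compList]
    rw [rc_id]
    exact h
  | cons τ l ih =>
    intro s f h hK
    obtain ⟨h1, h2⟩ := hl τ (List.mem_cons_self ..)
    have hl' : ∀ τ ∈ l, Hub w z τ ∧ ∀ j, τ j ≠ [] :=
      fun τ' h => hl τ' (List.mem_cons_of_mem _ h)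
    simp only [compList] at hK ⊢
    rw [rc_comp] at hK ⊢
    have hK' : ¬ KW w (rc τ f) := fun hcon => hK (KW_list hw l
      (fun τ' h => (hl' τ' h).1) _ hcon)
    have h3 := ih hl' (s - 1) _ (SW_step hm hw h1 h2 h hK') hK
    rw [List.length_cons, show s - (l.length + 1) = s - 1 - l.length by omega]
    exact h3

/-- eigenvectors orthogonal to the frequencies -/
theorem decay_hub (hm : 1 ≤ m) (hw : ∀ j, 0 < w j)
    (l : List (Fin (m+1) → List (Fin (m+1)))) (hne : l ≠ [])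
    (hl : ∀ τ ∈ l, Hub w z τ ∧ ∀ j, τ j ≠ []) (u : Fin (m+1) → ℝ)
    (hu0 : ∀ i, 0 < u i) (hu : ∑ i ∈ Finset.univ.erase 0, w i * u i < 1 / 4 * u 0)
    (ν : ℂ) (hν : 1 ≤ ‖ν‖) (y : Fin (m+1) → ℂ) (hy : rc (compList l) y = ν • y)
    (hyu : ∑ i, y i * (u i : ℂ) = 0) : y = 0 := by
  by_contra hy0
  have hν0 : ν ≠ 0 := by
    rintro rfl
    rw [norm_zero] at hν
    linarith
  have hnK : ∀ c : ℂ, c ≠ 0 → ¬ KW w (c • y) := by
    intro c hc hK
    have hK' : KW w y := by
      intro j hj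
      have h1 := hK j hj
      simp only [Pi.smul_apply, smul_eq_mul, norm_mul] at h1
      have h2 : 0 < ‖c‖ := norm_pos_iff.2 hc
      refine le_of_mul_le_mul_left ?_ h2
      linarith
    have h1 : y 0 * (u 0 : ℂ) = - ∑ i ∈ Finset.univ.erase 0, y i * (u i : ℂ) := by
      rw [← Finset.add_sum_erase _ _ (Finset.mem_univ (0 : Fin (m+1)))] at hyu
      linear_combination hyu
    have h2 : ‖y 0‖ * u 0 ≤ 2 * ‖y 0‖ * ∑ i ∈ Finset.univ.erase 0, w i * u i := by
      have h3 := congrArg norm h1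
      rw [norm_mul, norm_neg, Complex.norm_real, Real.norm_eq_abs, abs_of_pos (hu0 0)] at h3
      rw [h3, Finset.mul_sum]
      refine (norm_sum_le _ _).trans (Finset.sum_le_sum fun i hi => ?_)
      rw [norm_mul, Complex.norm_real, Real.norm_eq_abs, abs_of_pos (hu0 i)]
      have h4 := mul_le_mul_of_nonneg_right (hK' i (Finset.ne_of_mem_erase hi)) (hu0 i).le
      linarith
    have h3 : y 0 = 0 := by
      by_contra h4
      have h5 := mul_lt_mul_of_pos_left hu (norm_pos_iff.2 h4)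
      have h6 := mul_pos (norm_pos_iff.2 h4) (hu0 0)
      linarith
    apply hy0
    funext j
    by_cases hj : j = 0
    · rw [hj, h3]; rfl
    · have h4 := hK' j hj
      rw [h3, norm_zero, mul_zero] at h4
      simpa using norm_le_zero_iff.1 h4
  -- the power
  have hpow : ∀ n : ℕ, rc (iter (compList l) n) y = ν ^ n • y := by
    intro n
    induction n with
    | zero =>
      have h : iter (compList l) 0 = fun a => [a] := rfl
      rw [h, rc_id, pow_zero, one_smul]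
    | succ n ih =>
      have h : iter (compList l) (n+1) = comp (compList l) (iter (compList l) n) := by
        funext a
        rw [iter_succ]
        rfl
      rw [h, rc_comp, hy, rc_smul, ih, smul_smul, pow_succ']
  obtain ⟨j0, hj0, hmax⟩ := Finset.exists_max_image (Finset.univ.erase (0 : Fin (m+1)))
    (fun j => ‖y j‖ / w j) ⟨1, Finset.mem_erase.2 ⟨one_ne hm, Finset.mem_univ _⟩⟩
  have hj0' := Finset.ne_of_mem_erase hj0
  have hSt : SW w (‖y j0‖ / w j0) (m + 1) y := by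
    intro j hj
    refine ⟨?_, fun h => ?_⟩
    · have h1 := hmax j (Finset.mem_erase.2 ⟨hj, Finset.mem_univ _⟩)
      rwa [div_le_iff₀ (hw j)] at h1
    · have := j.2
      omega
  have h1 := SW_list hm hw ((List.replicate m l).flatten) (by
    intro τ hτ
    rw [List.mem_flatten] at hτ
    obtain ⟨l', h1, h2⟩ := hτ
    rw [List.mem_replicate] at h1
    rw [h1.2] at h2
    exact hl τ h2) (m + 1) y hSt (by
      rw [compList_flatten, hpow]
      exact hnK _ (pow_ne_zero _ hν0))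
  have h2 := (h1 j0 hj0').2 (by
    have := len_flatten l m hne
    have h3 : 0 < (j0 : ℕ) := Nat.pos_of_ne_zero fun h => hj0' (Fin.ext h)
    omega)
  rw [compList_flatten, hpow] at h2
  simp only [Pi.smul_apply, smul_eq_mul, norm_mul, norm_pow] at h2
  have h3 : ‖y j0‖ / w j0 * w j0 = ‖y j0‖ := by
    have := hw j0
    field_simp
  rw [h3] at h2
  have h4 : 1 ≤ ‖ν‖ ^ m := one_le_pow₀ hν
  have h5 := norm_nonneg (y j0)
  nlinarith

/-! ### Perron eigenvectors -/

theorem Hub.zero_mem {τ : Fin (m+1) → List (Fin (m+1))} (hs : Hub w z τ) :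
    (0 : Fin (m+1)) ∈ τ 0 := by
  rw [← List.count_pos_iff]
  have := hs.big
  omega

theorem reach_zero' (l : List (Fin (m+1) → List (Fin (m+1))))
    (hl : ∀ τ ∈ l, Hub w z τ ∧ ∀ j, τ j ≠ []) (j : Fin (m+1)) :
    ∃ c ∈ compList l j, c = 0 ∨ (j : ℕ) + l.length ≤ c := by
  induction l with
  | nil => exact ⟨j, by simp [compList], by simp⟩
  | cons τ l ih =>
    obtain ⟨c, hc, h⟩ := ih fun τ' h => hl τ' (List.mem_cons_of_mem _ h)
    obtain ⟨hs, hne⟩ := hl τ (List.mem_cons_self ..)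
    simp only [compList, comp]
    by_cases hc0 : c = 0
    · rw [hc0] at hc
      exact ⟨0, List.mem_flatMap.2 ⟨0, hc, hs.zero_mem⟩, Or.inl rfl⟩
    · obtain ⟨i, t, hit⟩ := List.exists_cons_of_ne_nil (hne c)
      have hi : i ∈ τ c := by rw [hit]; exact List.mem_cons_self ..
      refine ⟨i, List.mem_flatMap.2 ⟨c, hc, hi⟩, ?_⟩
      by_cases hi0 : i = 0
      · exact Or.inl hi0
      · right
        rcases h with h2 | h2
        · exact absurd h2 hc0
        · have h3 : (c : ℕ) < i := hs.tri c hc0 i hi hi0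
          rw [List.length_cons]
          omega

theorem from_zero' (l : List (Fin (m+1) → List (Fin (m+1))))
    (hl : ∀ τ ∈ l, Hub w z τ ∧ (inc τ).det ≠ 0) : ∀ i : Fin (m+1), (i : ℕ) ≤ l.length →
    i ∈ compList l 0 := by
  induction l with
  | nil =>
    intro i hi
    have : i = 0 := Fin.ext (by simpa using hi)
    rw [this]
    simp [compList]
  | cons τ l ih =>
    intro i hi
    have ih' := ih fun τ' h => hl τ' (List.mem_cons_of_mem _ h)
    obtain ⟨hs, hdet⟩ := hl τ (List.mem_cons_self ..)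
    simp only [compList, comp]
    by_cases hi0 : i = 0
    · rw [hi0]
      exact List.mem_flatMap.2 ⟨0, ih' 0 (Nat.zero_le _), hs.zero_mem⟩
    · obtain ⟨j, hj⟩ : ∃ j, i ∈ τ j := by
        by_contra hcon
        push Not at hcon
        apply hdet
        apply Matrix.det_eq_zero_of_row_eq_zero i
        intro j
        simp [inc, List.count_eq_zero_of_not_mem (hcon j)]
      by_cases hj0 : j = 0
      · rw [hj0] at hj
        exact List.mem_flatMap.2 ⟨0, ih' 0 (Nat.zero_le _), hj⟩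
      · have h3 : (j : ℕ) < i := hs.tri j hj0 i hj hi0
        rw [List.length_cons] at hi
        exact List.mem_flatMap.2 ⟨j, ih' j (by omega), hj⟩

/-- the eigenvalue is large -/
theorem lam_ge' (l : List (Fin (m+1) → List (Fin (m+1)))) (hne : l ≠ [])
    (hl : ∀ τ ∈ l, Hub w z τ) (u : Fin (m+1) → ℝ) (hu : ∀ i, 0 < u i) (Λ : ℝ)
    (h : ∀ i, ∑ j, ((inc (compList l) i j : ℤ) : ℝ) * u j = Λ * u i) : 4 ≤ Λ := by
  have key : ∀ (l : List (Fin (m+1) → List (Fin (m+1)))) (_ : ∀ τ ∈ l, Hub w z τ),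
      4 ^ l.length ≤ (inc (compList l)) 0 0 := by
    intro l
    induction l with
    | nil =>
      intro _
      simp only [compList]
      rw [JComp_inc_id]
      simp
    | cons τ l ih =>
      intro hl
      have ih' := ih fun τ' h => hl τ' (List.mem_cons_of_mem _ h)
      have hs := hl τ (List.mem_cons_self ..)
      simp only [compList]
      rw [inc_comp, Matrix.mul_apply]
      have h1 : inc τ 0 0 * inc (compList l) 0 0 ≤
          ∑ k, inc τ 0 k * inc (compList l) k 0 :=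
        Finset.single_le_sum (f := fun k => inc τ 0 k * inc (compList l) k 0)
          (fun k _ => mul_nonneg (by unfold inc; positivity) (by unfold inc; positivity))
          (Finset.mem_univ 0)
      have h2 : (4 : ℤ) ≤ inc τ 0 0 := by
        have := hs.big
        unfold inc
        omega
      have h3 : (0 : ℤ) < 4 ^ l.length := by positivity
      rw [List.length_cons, pow_succ]
      nlinarith
  have h1 := key l hl
  have h2 : (4 : ℤ) ≤ inc (compList l) 0 0 := by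
    refine le_trans ?_ h1
    have := List.length_pos_iff.2 hne
    calc (4 : ℤ) = 4 ^ 1 := by norm_num
      _ ≤ 4 ^ l.length := pow_le_pow_right₀ (by norm_num) this
  have h3 : ((inc (compList l) 0 0 : ℤ) : ℝ) * u 0 ≤ Λ * u 0 := by
    rw [← h 0]
    exact Finset.single_le_sum (f := fun j => ((inc (compList l) 0 j : ℤ) : ℝ) * u j)
      (fun j _ => mul_nonneg (by unfold inc; positivity) (hu j).le) (Finset.mem_univ 0)
  have h4 := le_of_mul_le_mul_right h3 (hu 0)
  have h5 : (4 : ℝ) ≤ ((inc (compList l) 0 0 : ℤ) : ℝ) := by exact_mod_cast h2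
  linarith

/-- unimodular, irreducible and Pisot -/
theorem pisot_list_hub (hm : 1 ≤ m) (hw : ∀ j, 0 < w j)
    (l : List (Fin (m+1) → List (Fin (m+1)))) (hne : l ≠ [])
    (hl : ∀ τ ∈ l, Hub w z τ ∧ ((inc τ).det = 1 ∨ (inc τ).det = -1)) :
    PisotMat (inc (compList l)) := by
  have hdet0 : ∀ τ ∈ l, (inc τ).det ≠ 0 := fun τ hτ => by
    rcases (hl τ hτ).2 with h | h <;> rw [h] <;> norm_num
  have hl1 : ∀ τ ∈ l, Hub w z τ := fun τ hτ => (hl τ hτ).1
  have hl2 : ∀ τ ∈ l, Hub w z τ ∧ ∀ j, τ j ≠ [] := fun τ hτ =>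
    ⟨(hl τ hτ).1, ne_nil_of_det (hdet0 τ hτ)⟩
  have hlen := len_flatten l (m+1) hne
  have hmem : ∀ τ ∈ (List.replicate (m+1) l).flatten, Hub w z τ ∧ (inc τ).det ≠ 0 := by
    intro τ hτ
    rw [List.mem_flatten] at hτ
    obtain ⟨l', h1, h2⟩ := hτ
    rw [List.mem_replicate] at h1
    rw [h1.2] at h2
    exact ⟨hl1 τ h2, hdet0 τ h2⟩
  obtain ⟨u, f, Λ, hu, hf, hΛ, hMu, hfM⟩ := perron_gen (compList l) (by
    intro i
    rw [← compList_flatten]
    exact from_zero' _ hmem i (by have := i.2; omega)) (by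
    intro j
    rw [← compList_flatten]
    obtain ⟨c, hc, h⟩ := reach_zero' _ (fun τ hτ => ⟨(hmem τ hτ).1,
      ne_nil_of_det (hmem τ hτ).2⟩) j
    rcases h with h | h
    · rw [h] at hc; exact hc
    · have := c.2
      omega)
  have hΛ4 := lam_ge' l hne hl1 u hu Λ hMu
  have hult := v_lt l hne hl1 u hu Λ (by funext i; exact hMu i)
  have hdet : (inc (compList l)).det = 1 ∨ (inc (compList l)).det = -1 :=
    list_det l fun τ hτ => (hl τ hτ).2
  exact pisot_gen (compList l) u f Λ hu hf hΛ4 hMu hfM hdet fun ν y hν hy hyu =>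
    decay_hub hm hw l hne hl2 u hu hult ν hν y hy hyu

theorem hub_main (hm : 1 ≤ m) (hw : ∀ j, 0 < w j) (hz : ∀ j, 0 ≤ z j)
    (l : List (Fin (m+1) → List (Fin (m+1)))) (hne : l ≠ [])
    (hl : ∀ τ ∈ l, Hub w z τ ∧ ((inc τ).det = 1 ∨ (inc τ).det = -1)) :
    PisotMat (inc (compList l)) ∧ Coinc (compList l) ∧ SemiConjToral (compList l) := by
  have h1 := pisot_list_hub hm hw l hne hl
  exact ⟨h1, semi_of_gcc h1 fun P => gcc_list_hub hm hw hz l hne hl P⟩

end Pool.Agent.K9h44.PL
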