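import Pool.Agent.K9h44.PL.Win

/-!
Substitutions whose letter `0` is a hub.
-/

set_option autoImplicit false

namespace Pool.Agent.K9h44.PL
open Pool.Agent.H812R2.PI Pool.Agent.TH100.Pisot Pool.Agent.Y316.Pisot Pool.Agent.R889.PZ
open scoped BigOperators

variable {m : ℕ}

/-- The letter `0` is a hub of `τ`, with loads `w j` of the columns and `z j` of the rows. All
conditions concern the numbers of occurrences only. Write `a` for the number of zeros in `τ 0`.
* `a ≥ 5`;
* for `j ≥ 1` the letters of `τ j` different from `0` are larger than `j`;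
* `|τ j|₀ + a ∑ w i |τ j|_i ≤ a w j` for `j ≥ 1` and `∑ w i |τ 0|_i ≤ 1/2`;
* `|τ 0|_i + ∑ z j |τ j|_i ≤ z i` for `i ≥ 1` and `2 ∑ z j |τ j|₀ + 2 < a`.
(The sums are over the letters `≥ 1`.) -/
structure Hub (w z : Fin (m+1) → ℝ) (τ : Fin (m+1) → List (Fin (m+1))) : Prop where
  big : 5 ≤ (τ 0).count 0
  tri : ∀ j, j ≠ 0 → ∀ i ∈ τ j, i ≠ 0 → j < i
  col : ∀ j, j ≠ 0 → ((τ j).count 0 : ℝ) + ((τ 0).count 0 : ℝ) *
    ∑ i ∈ Finset.univ.erase 0, w i * ((τ j).count i : ℝ) ≤ ((τ 0).count 0 : ℝ) * w j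
  col0 : ∑ i ∈ Finset.univ.erase 0, w i * ((τ 0).count i : ℝ) ≤ 1 / 2
  row : ∀ i, i ≠ 0 → ((τ 0).count i : ℝ) +
    ∑ j ∈ Finset.univ.erase 0, z j * ((τ j).count i : ℝ) ≤ z i
  row0 : 2 * ∑ j ∈ Finset.univ.erase 0, z j * ((τ j).count 0 : ℝ) + 2 < ((τ 0).count 0 : ℝ)

section
variable {w z : Fin (m+1) → ℝ}

theorem Hub.a_ge {τ : Fin (m+1) → List (Fin (m+1))} (h : Hub w z τ) :
    (5 : ℝ) ≤ ((τ 0).count 0 : ℝ) := by exact_mod_cast h.big

/-- bounds for the image of a vector -/
theorem Hub.mul_le {τ : Fin (m+1) → List (Fin (m+1))}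
    (y : Fin (m+1) → ℤ) (hy0 : y 0 = 0) (hyz : ∀ i, i ≠ 0 → (|y i| : ℝ) ≤ z i) (i : Fin (m+1)) :
    |(((inc τ).mulVec y i : ℤ) : ℝ)| ≤ ∑ j ∈ Finset.univ.erase 0, z j * ((τ j).count i : ℝ) := by
  have hmul : (((inc τ).mulVec y i : ℤ) : ℝ) =
      ∑ j ∈ Finset.univ.erase 0, ((τ j).count i : ℝ) * (y j : ℝ) := by
    simp only [Matrix.mulVec, dotProduct, Int.cast_sum, Int.cast_mul]
    rw [← Finset.add_sum_erase _ _ (Finset.mem_univ (0 : Fin (m+1))), hy0, Int.cast_zero,
      mul_zero, zero_add]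
    rfl
  rw [hmul]
  refine (Finset.abs_sum_le_sum_abs _ _).trans (Finset.sum_le_sum fun j hj => ?_)
  rw [abs_mul, abs_of_nonneg (Nat.cast_nonneg _ : (0:ℝ) ≤ ((τ j).count i : ℝ)), mul_comm]
  exact mul_le_mul_of_nonneg_right (hyz j (Finset.ne_of_mem_erase hj)) (Nat.cast_nonneg _)

/-- the load of the image of a vector -/
theorem Hub.load {τ : Fin (m+1) → List (Fin (m+1))} (hs : Hub w z τ) (hw : ∀ j, 0 < w j)
    (y : Fin (m+1) → ℤ) (hy0 : y 0 = 0) :
    |(((inc τ).mulVec y 0 : ℤ) : ℝ)| + ((τ 0).count 0 : ℝ) *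
      ∑ i ∈ Finset.univ.erase 0, w i * |(((inc τ).mulVec y i : ℤ) : ℝ)| ≤
      ((τ 0).count 0 : ℝ) * ∑ i ∈ Finset.univ.erase 0, w i * |(y i : ℝ)| := by
  have hmul : ∀ i, (((inc τ).mulVec y i : ℤ) : ℝ) =
      ∑ j ∈ Finset.univ.erase 0, ((τ j).count i : ℝ) * (y j : ℝ) := by
    intro i
    simp only [Matrix.mulVec, dotProduct, Int.cast_sum, Int.cast_mul]
    rw [← Finset.add_sum_erase _ _ (Finset.mem_univ (0 : Fin (m+1))), hy0, Int.cast_zero,
      mul_zero, zero_add]
    rfl
  have hb : ∀ i, |(((inc τ).mulVec y i : ℤ) : ℝ)| ≤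
      ∑ j ∈ Finset.univ.erase 0, ((τ j).count i : ℝ) * |(y j : ℝ)| := by
    intro i
    rw [hmul]
    refine (Finset.abs_sum_le_sum_abs _ _).trans (le_of_eq (Finset.sum_congr rfl fun j _ => ?_))
    rw [abs_mul, abs_of_nonneg (Nat.cast_nonneg _ : (0:ℝ) ≤ ((τ j).count i : ℝ))]
  have ha := hs.a_ge
  have h1 : ∑ i ∈ Finset.univ.erase 0, w i * |(((inc τ).mulVec y i : ℤ) : ℝ)| ≤
      ∑ j ∈ Finset.univ.erase 0, (∑ i ∈ Finset.univ.erase 0, w i * ((τ j).count i : ℝ)) *
        |(y j : ℝ)| := by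
    refine (Finset.sum_le_sum fun i _ => mul_le_mul_of_nonneg_left (hb i) (hw i).le).trans
      (le_of_eq ?_)
    simp only [Finset.mul_sum, Finset.sum_mul]
    rw [Finset.sum_comm]
    exact Finset.sum_congr rfl fun j _ => Finset.sum_congr rfl fun i _ => by ring
  have h2 := mul_le_mul_of_nonneg_left h1 (by linarith : (0:ℝ) ≤ ((τ 0).count 0 : ℝ))
  have h3 : ∑ j ∈ Finset.univ.erase 0, ((τ j).count 0 : ℝ) * |(y j : ℝ)| + ((τ 0).count 0 : ℝ) *
      ∑ j ∈ Finset.univ.erase 0, (∑ i ∈ Finset.univ.erase 0, w i * ((τ j).count i : ℝ)) *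
        |(y j : ℝ)| ≤ ((τ 0).count 0 : ℝ) * ∑ i ∈ Finset.univ.erase 0, w i * |(y i : ℝ)| := by
    rw [Finset.mul_sum, Finset.mul_sum, ← Finset.sum_add_distrib]
    refine Finset.sum_le_sum fun j hj => ?_
    have h4 := mul_le_mul_of_nonneg_right (hs.col j (Finset.ne_of_mem_erase hj))
      (abs_nonneg (y j : ℝ))
    linarith
  have h4 := hb 0
  linarith

/-- the low places: the load decreases until nothing is pending -/
theorem low {τ : ℕ → Fin (m+1) → List (Fin (m+1))} (hτ : ∀ k, Hub w z (τ k))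
    (hw : ∀ j, 0 < w j) (hz : ∀ j, 0 ≤ z j) {c : ℝ} (hc : 0 < c)
    (hcA : ∀ k, c * (((τ k 0).count 0 : ℝ) * (((τ k 0).count 0 : ℝ) + 2)) ≤ 2) (K : ℕ) :
    ∀ (y : Fin (m+1) → ℤ) (s F : ℕ), y 0 = 0 → (∀ i, i ≠ 0 → (|y i| : ℝ) ≤ z i) →
      (∀ i, y i ≠ 0 → s < (i : ℕ)) → s ≤ m →
      ∑ i ∈ Finset.univ.erase 0, w i * |(y i : ℝ)| ≤ F * c → m + m * F ≤ K + s →
      (inc (cps τ K)).mulVec y ∈ QQ (cps τ K 0) := by
  induction K with
  | zero =>
    intro y s F hy0 _ hsup hsm _ hK
    have hy : y = 0 := by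
      funext i
      by_contra h
      have h1 := hsup i h
      have h2 := i.2
      have h3 : m ≤ s := by
        have : m ≤ m + m * F := Nat.le_add_right _ _
        omega
      omega
    rw [hy, Matrix.mulVec_zero, cps_zero]
    exact ⟨0, 0, by simp [edges], by simp [edges], by simp⟩
  | succ K ih =>
    intro y s F hy0 hyz hsup hsm hF hK
    have hs := hτ K
    have ha := hs.a_ge
    have hcnt0 : 0 < (τ K 0).count 0 := by have := hs.big; omega
    have hstep : ∀ y' : Fin (m+1) → ℤ, (inc (cps τ K)).mulVec y' ∈ QQ (cps τ K 0) →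
        ∀ (x : ℤ) (d : Fin (m+1) → ℤ), x • ev 0 + d ∈ QQ (τ K 0) →
        (inc (τ K)).mulVec y = x • ev 0 + d + y' →
        (inc (cps τ (K+1))).mulVec y ∈ QQ (cps τ (K+1) 0) := by
      intro y' hy' x d hd hyd
      have h2 := QQ_comp (S := cps τ K) (T := τ K) hd hy'
      rw [cps_succ]
      convert h2 using 1
      rw [inc_comp, ← Matrix.mulVec_mulVec, hyd, Matrix.mulVec_add]
    by_cases hb0 : (inc (τ K)).mulVec y 0 = 0
    · -- nothing at `0`
      have hstep0 := fun y' h => hstep y' h 0 0 (by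
        rw [zero_smul, add_zero]
        exact zero_mem_QQ _ hcnt0)
      rcases Nat.lt_or_ge s m with hsm' | hsm'
      · refine hstep0 ((inc (τ K)).mulVec y) (ih _ (s+1) F hb0 ?_ ?_ (by omega) ?_ (by omega))
          (by rw [zero_smul, add_zero, zero_add])
        · intro i hi
          have h5 := hs.row i hi
          have h6 := Hub.mul_le (τ := τ K) y hy0 hyz i
          have h7 : (0:ℝ) ≤ ((τ K 0).count i : ℝ) := Nat.cast_nonneg _
          linarith
        · intro i hi
          have hi0 : i ≠ 0 := by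
            rintro rfl
            exact hi hb0
          obtain ⟨j, hj⟩ : ∃ j, inc (τ K) i j * y j ≠ 0 := by
            by_contra hcon
            push Not at hcon
            apply hi
            simp only [Matrix.mulVec, dotProduct]
            exact Finset.sum_eq_zero fun j _ => hcon j
          have hj1 : inc (τ K) i j ≠ 0 := left_ne_zero_of_mul hj
          have hj2 : y j ≠ 0 := right_ne_zero_of_mul hj
          have hj0 : j ≠ 0 := by
            rintro rfl
            exact hj2 hy0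
          have h3 := hsup j hj2
          have h4 : i ∈ τ K j := by
            rw [← List.count_pos_iff]
            simp only [inc] at hj1
            omega
          have h5 : (j : ℕ) < i := hs.tri j hj0 i h4 hi0
          omega
        · have h1 := hs.load hw y hy0
          rw [hb0, Int.cast_zero, abs_zero, zero_add] at h1
          have h2 := le_of_mul_le_mul_left h1 (by linarith)
          exact h2.trans hF
      · have hy : y = 0 := by
          funext i
          by_contra h
          have h1 := hsup i h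
          have h2 := i.2
          omega
        refine hstep0 0 (ih 0 m 0 rfl ?_ ?_ le_rfl ?_ (by omega)) (by
          rw [hy, Matrix.mulVec_zero, zero_smul, add_zero, add_zero])
        · intro i _
          simpa using hz i
        · intro i hi
          exact absurd rfl hi
        · simp
    · -- the load decreases
      have hbb : 2 * |(((inc (τ K)).mulVec y 0 : ℤ) : ℝ)| + 2 < ((τ K 0).count 0 : ℝ) := by
        have h1 := Hub.mul_le (τ := τ K) y hy0 hyz 0
        have h2 := hs.row0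
        linarith
      obtain ⟨b, hb⟩ : ∃ b, b = (inc (τ K)).mulVec y 0 := ⟨_, rfl⟩
      have hload := hs.load hw y hy0
      rw [← hb] at hbb hb0 hload
      have hb1 := abs_nonneg (b : ℝ)
      obtain ⟨d, hd0, hdc, hdQ, hdw⟩ := window (τ K 0) w (fun i => (hw i).le) b (by
        have h1 : ((|b| : ℤ) : ℝ) < ((((τ K 0).count 0 : ℕ) : ℤ) : ℝ) := by
          rw [Int.cast_abs]
          push_cast
          linarith
        exact_mod_cast h1)
      obtain ⟨y', hy'⟩ : ∃ y', y' = (inc (τ K)).mulVec y - b • ev 0 - d := ⟨_, rfl⟩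
      have hy'i : ∀ i, i ≠ 0 → y' i = (inc (τ K)).mulVec y i - d i := by
        intro i hi
        rw [hy']
        simp [ev, hi]
      -- the new load
      have hnew : ∑ i ∈ Finset.univ.erase 0, w i * |(y' i : ℝ)| + c ≤
          ∑ i ∈ Finset.univ.erase 0, w i * |(y i : ℝ)| := by
        obtain ⟨a, hA⟩ : ∃ a : ℝ, a = ((τ K 0).count 0 : ℝ) := ⟨_, rfl⟩
        obtain ⟨Φ, hΦ⟩ : ∃ Φ, Φ = ∑ i ∈ Finset.univ.erase 0, w i * |(y i : ℝ)| := ⟨_, rfl⟩
        obtain ⟨Ψ, hΨ⟩ : ∃ Ψ, Ψ = ∑ i ∈ Finset.univ.erase 0,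
          w i * |(((inc (τ K)).mulVec y i : ℤ) : ℝ)| := ⟨_, rfl⟩
        obtain ⟨Δ, hΔ⟩ : ∃ Δ, Δ = ∑ i ∈ Finset.univ.erase 0, w i * |(d i : ℝ)| := ⟨_, rfl⟩
        have h1 : ∑ i ∈ Finset.univ.erase 0, w i * |(y' i : ℝ)| ≤ Ψ + Δ := by
          rw [hΨ, hΔ, ← Finset.sum_add_distrib]
          refine Finset.sum_le_sum fun i hi => ?_
          rw [hy'i i (Finset.ne_of_mem_erase hi), ← mul_add]
          refine mul_le_mul_of_nonneg_left ?_ (hw i).le
          push_cast
          exact abs_sub _ _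
        rw [← hΨ, ← hΦ, ← hA] at hload
        rw [← hΔ, ← hA] at hdw
        have h2 := hcA K
        rw [← hA] at h2 hbb ha
        have h3 := mul_le_mul_of_nonneg_left hs.col0 (abs_nonneg (b : ℝ))
        have h4 : (1 : ℝ) ≤ |(b : ℝ)| := by
          have := Int.one_le_abs hb0
          rw [← Int.cast_abs]
          exact_mod_cast this
        have hΔ0 : 0 ≤ Δ := by
          rw [hΔ]
          exact Finset.sum_nonneg fun i _ => mul_nonneg (hw i).le (abs_nonneg _)
        -- `(a + 2) Δ ≤ |b|`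
        have h5 : (a + 2) * Δ ≤ |(b : ℝ)| := by
          have h6 : (a / 2 + 1) * Δ ≤ (a - |(b : ℝ)|) * Δ :=
            mul_le_mul_of_nonneg_right (by linarith) hΔ0
          linarith
        have hap : 0 < a := by linarith
        -- `|b| + a Ψ ≤ a Φ`
        have h7 := mul_le_mul_of_nonneg_left hload (by linarith : (0:ℝ) ≤ a + 2)
        have h8 := mul_le_mul_of_nonneg_left h5 hap.le
        have h12 : a * (a + 2) * (Ψ + Δ - Φ + c) ≤ 0 := by linarith
        have h13 : Ψ + Δ - Φ + c ≤ 0 := by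
          by_contra hcon
          push Not at hcon
          have : 0 < a * (a + 2) * (Ψ + Δ - Φ + c) :=
            mul_pos (mul_pos hap (by linarith)) hcon
          linarith
        rw [← hΦ]
        linarith
      have hsm' : s < m := by
        have hy : y ≠ 0 := by
          rintro rfl
          apply hb0
          rw [hb, Matrix.mulVec_zero]
          rfl
        obtain ⟨i, hi⟩ := Function.ne_iff.1 hy
        have h1 := hsup i hi
        have h2 := i.2
        omega
      have hF1 : 1 ≤ F := by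
        by_contra hcon
        have hF0 : F = 0 := by omega
        rw [hF0, Nat.cast_zero, zero_mul] at hF
        have h1 : 0 ≤ ∑ i ∈ Finset.univ.erase 0, w i * |(y' i : ℝ)| :=
          Finset.sum_nonneg fun i _ => mul_nonneg (hw i).le (abs_nonneg _)
        linarith
      obtain ⟨F', rfl⟩ : ∃ F', F = F' + 1 := ⟨F - 1, by omega⟩
      refine hstep y' (ih y' 0 F' ?_ ?_ ?_ (Nat.zero_le _) ?_ ?_) b d hdQ (by rw [hy']; abel)
      · rw [hy']
        simp [ev, hd0, hb]
      · intro i hi
        rw [hy'i i hi]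
        push_cast
        have h3 := abs_sub (((inc (τ K)).mulVec y i : ℤ) : ℝ) ((d i : ℤ) : ℝ)
        have h4 : |((d i : ℤ) : ℝ)| ≤ ((τ K 0).count i : ℝ) := by
          have := hdc i
          have h5 : ((|d i| : ℤ) : ℝ) ≤ ((((τ K 0).count i : ℕ) : ℤ) : ℝ) := by exact_mod_cast this
          rw [Int.cast_abs] at h5
          exact_mod_cast h5
        have h5 := hs.row i hi
        have h6 := Hub.mul_le (τ := τ K) y hy0 hyz i
        linarith
      · intro i hi
        refine Nat.pos_of_ne_zero fun h => hi ?_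
        have hi0 : i = 0 := Fin.ext h
        rw [hi0, hy']
        simp [ev, hd0, hb]
      · push_cast at hF
        linarith
      · rw [mul_add, mul_one] at hK
        omega

/-- processing the digits from the top -/
theorem descend {τ : ℕ → Fin (m+1) → List (Fin (m+1))} (hτ : ∀ k, Hub w z (τ k))
    (hw : ∀ j, 0 < w j) (hz : ∀ j, 0 ≤ z j) {c : ℝ} (hc : 0 < c)
    (hcA : ∀ k, c * (((τ k 0).count 0 : ℝ) * (((τ k 0).count 0 : ℝ) + 2)) ≤ 2) {F K0 : ℕ}
    (hF : ∑ i ∈ Finset.univ.erase 0, w i * z i ≤ F * c) (hK0 : m + m * F ≤ K0)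
    (E : ℕ → ℤ) (hE0 : ∀ k < K0, E k = 0) (K : ℕ) (hK : K0 ≤ K) :
    ∀ y : Fin (m+1) → ℤ, y 0 = 0 → (∀ i, i ≠ 0 → (|y i| : ℝ) ≤ z i) →
      (∀ k, K0 ≤ k → k < K → 2 * |(E k : ℝ)| ≤ ((τ k 0).count 0 : ℝ) + 2) →
      val τ E K + (inc (cps τ K)).mulVec y ∈ QQ (cps τ K 0) := by
  induction K, hK using Nat.le_induction with
  | base =>
    intro y hy0 hyz _
    have h1 : val τ E K0 = 0 := by
      unfold val
      exact Finset.sum_eq_zero fun k hk => by rw [hE0 k (Finset.mem_range.1 hk), zero_smul]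
    rw [h1, zero_add]
    refine low hτ hw hz hc hcA K0 y 0 F hy0 hyz ?_ (Nat.zero_le _) ?_ (by omega)
    · intro i hi
      refine Nat.pos_of_ne_zero fun h => hi ?_
      have hi0 : i = 0 := Fin.ext h
      rw [hi0, hy0]
    · refine le_trans (Finset.sum_le_sum fun i hi => ?_) hF
      exact mul_le_mul_of_nonneg_left (hyz i (Finset.ne_of_mem_erase hi)) (hw i).le
  | succ K hK ih =>
    intro y hy0 hyz hE
    have hs := hτ K
    have ha := hs.a_ge
    obtain ⟨b, hb⟩ : ∃ b, b = (inc (τ K)).mulVec y 0 := ⟨_, rfl⟩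
    have hbb : 2 * |(b : ℝ)| + 2 < ((τ K 0).count 0 : ℝ) := by
      rw [hb]
      have h1 := Hub.mul_le (τ := τ K) y hy0 hyz 0
      have h2 := hs.row0
      linarith
    obtain ⟨x, hx⟩ : ∃ x, x = E K + b := ⟨_, rfl⟩
    have hx2 : |x| < (((τ K 0).count 0 : ℕ) : ℤ) := by
      have h1 : |(x : ℝ)| < ((τ K 0).count 0 : ℝ) := by
        have h2 := hE K hK (Nat.lt_succ_self K)
        rw [hx]
        push_cast
        have h3 := abs_add_le (E K : ℝ) (b : ℝ)
        linarith
      have h2 : ((|x| : ℤ) : ℝ) < ((((τ K 0).count 0 : ℕ) : ℤ) : ℝ) := by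
        rw [Int.cast_abs]
        exact_mod_cast h1
      exact_mod_cast h2
    obtain ⟨d, hd0, hdc, hdQ, -⟩ := window (τ K 0) w (fun i => (hw i).le) x hx2
    obtain ⟨y', hy'⟩ : ∃ y', y' = (inc (τ K)).mulVec y - b • ev 0 - d := ⟨_, rfl⟩
    have hy'i : ∀ i, i ≠ 0 → y' i = (inc (τ K)).mulVec y i - d i := by
      intro i hi
      rw [hy']
      simp [ev, hi]
    have h1 := ih y' ?_ ?_ ?_
    · have h2 := QQ_comp (S := cps τ K) (T := τ K) hdQ h1
      rw [cps_succ]
      convert h2 using 1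
      rw [val_succ, inc_comp, ← Matrix.mulVec_mulVec, hy', hx]
      simp only [Matrix.mulVec_add, Matrix.mulVec_sub, mulVec_zsmul, add_smul]
      change _ = E K • pv τ K + b • pv τ K + _ + (_ + (_ - b • pv τ K - _))
      abel
    · rw [hy']
      simp [ev, hd0, hb]
    · intro i hi
      rw [hy'i i hi]
      push_cast
      have h3 := abs_sub (((inc (τ K)).mulVec y i : ℤ) : ℝ) ((d i : ℤ) : ℝ)
      have h4 : |((d i : ℤ) : ℝ)| ≤ ((τ K 0).count i : ℝ) := by
        have := hdc i
        have h5 : ((|d i| : ℤ) : ℝ) ≤ ((((τ K 0).count i : ℕ) : ℤ) : ℝ) := by exact_mod_cast this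
        rw [Int.cast_abs] at h5
        exact_mod_cast h5
      have h5 := hs.row i hi
      have h6 := Hub.mul_le (τ := τ K) y hy0 hyz i
      linarith
    · intro k hk1 hk2
      exact hE k hk1 (by omega)

/-- making the digits balanced -/
theorem rebalance {τ : ℕ → Fin (m+1) → List (Fin (m+1))} (hτ : ∀ k, Hub w z (τ k))
    (E : ℕ → ℤ) {K0 K1 : ℕ} (hK01 : K0 = K1 + m) (hE0 : ∀ k < K0, E k = 0) (K : ℕ)
    (hK : K1 ≤ K) :
    ∀ y : Fin (m+1) → ℤ, y 0 = 0 → (∀ i, i ≠ 0 → (|y i| : ℝ) ≤ z i) →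
      (∀ i, y i ≠ 0 → K0 + 1 ≤ K + i) →
      (∀ k, K0 ≤ k → k < K → |(E k : ℝ)| ≤ ((τ k 0).count 0 : ℝ)) →
      ∃ (E' : ℕ → ℤ) (ε : ℤ),
        val τ E K + (inc (cps τ K)).mulVec y = val τ E' K + ε • pv τ K ∧ |ε| ≤ 1 ∧
        (∀ k < K1, E' k = 0) ∧ ∀ k < K, 2 * |(E' k : ℝ)| ≤ ((τ k 0).count 0 : ℝ) + 2 := by
  induction K, hK using Nat.le_induction with
  | base =>
    intro y hy0 hyz hsup _
    have h1 : val τ E K1 = 0 := by
      unfold val
      exact Finset.sum_eq_zero fun k hk => by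
        rw [hE0 k (by have := Finset.mem_range.1 hk; omega), zero_smul]
    have hy : y = 0 := by
      funext i
      by_contra h
      have h2 := hsup i h
      have h3 := i.2
      omega
    refine ⟨fun _ => 0, 0, ?_, by simp, fun _ _ => rfl, fun k _ => ?_⟩
    · rw [h1, hy, Matrix.mulVec_zero, zero_smul]
      simp [val]
    · have := (hτ k).a_ge
      rw [Int.cast_zero, abs_zero]
      linarith
  | succ K hK ih =>
    intro y hy0 hyz hsup hE
    have hs := hτ K
    have ha := hs.a_ge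
    obtain ⟨b, hb⟩ : ∃ b, b = (inc (τ K)).mulVec y 0 := ⟨_, rfl⟩
    have hbb : 2 * |(b : ℝ)| + 2 < ((τ K 0).count 0 : ℝ) := by
      rw [hb]
      have h1 := Hub.mul_le (τ := τ K) y hy0 hyz 0
      have h2 := hs.row0
      linarith
    obtain ⟨a, hA⟩ : ∃ a : ℤ, a = (((τ K 0).count 0 : ℕ) : ℤ) := ⟨_, rfl⟩
    have hAr : (a : ℝ) = ((τ K 0).count 0 : ℝ) := by rw [hA]; push_cast; rfl
    -- the carry
    obtain ⟨e, he1, he2, he3⟩ : ∃ e : ℤ, |e| ≤ 1 ∧ 2 * |E K + b - a * e| ≤ a ∧
        (K < K0 → e = 0) := by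
      have hb' : 2 * |b| + 2 < a := by
        have : ((2 * |b| + 2 : ℤ) : ℝ) < (a : ℝ) := by
          push_cast
          rw [hAr]
          exact hbb
        exact_mod_cast this
      rcases Nat.lt_or_ge K K0 with h | h
      · refine ⟨0, by simp, ?_, fun _ => rfl⟩
        rw [hE0 K h, zero_add, mul_zero, sub_zero]
        omega
      · have h1 : |E K| ≤ a := by
          have h2 := hE K h (Nat.lt_succ_self K)
          rw [← hAr] at h2
          have h3 : ((|E K| : ℤ) : ℝ) ≤ (a : ℝ) := by rw [Int.cast_abs]; exact h2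
          exact_mod_cast h3
        have h2 := abs_le.1 h1
        have h3 : |b| ≤ |b| := le_rfl
        have h4 := abs_le.1 h3
        rcases lt_or_ge a (2 * (E K + b)) with h5 | h5
        · refine ⟨1, by simp, ?_, fun h6 => absurd h6 (by omega)⟩
          rw [mul_one]
          have : |E K + b - a| ≤ a / 2 := abs_le.2 ⟨by omega, by omega⟩
          omega
        · rcases lt_or_ge (2 * (E K + b)) (-a) with h6 | h6
          · refine ⟨-1, by simp, ?_, fun h7 => absurd h7 (by omega)⟩
            have : |E K + b - a * -1| ≤ a / 2 := abs_le.2 ⟨by omega, by omega⟩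
            omega
          · refine ⟨0, by simp, ?_, fun _ => rfl⟩
            rw [mul_zero, sub_zero]
            have : |E K + b| ≤ a / 2 := abs_le.2 ⟨by omega, by omega⟩
            omega
    obtain ⟨κ, hκ⟩ : ∃ κ, κ = (inc (τ K)).mulVec (ev 0) - a • ev 0 := ⟨_, rfl⟩
    have hκi : ∀ i, i ≠ 0 → κ i = (((τ K 0).count i : ℕ) : ℤ) := by
      intro i hi
      rw [hκ]
      simp [Matrix.mulVec, dotProduct, ev, hi, inc]
    have hκ0 : κ 0 = 0 := by
      rw [hκ, hA]
      simp [Matrix.mulVec, dotProduct, ev, inc]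
    obtain ⟨y', hy'⟩ : ∃ y', y' = (inc (τ K)).mulVec y - b • ev 0 - e • κ := ⟨_, rfl⟩
    have hy'i : ∀ i, i ≠ 0 → y' i = (inc (τ K)).mulVec y i - e * (((τ K 0).count i : ℕ) : ℤ) := by
      intro i hi
      rw [hy']
      simp [ev, hi, hκi i hi]
    have key := ih y' ?_ ?_ ?_ ?_
    · obtain ⟨E', ε, h1, h2, h3, h4⟩ := key
      refine ⟨fun k => if k < K then E' k else E K + b - a * e + ε, e, ?_, he1, ?_, ?_⟩
      · have e1 : val τ (fun k => if k < K then E' k else E K + b - a * e + ε) K = val τ E' K := by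
          unfold val
          refine Finset.sum_congr rfl fun k hk => ?_
          simp only [if_pos (Finset.mem_range.1 hk)]
        rw [val_succ, val_succ, e1]
        simp only [if_neg (lt_irrefl K)]
        have e2 : val τ E' K = val τ E K + (inc (cps τ K)).mulVec y' - ε • pv τ K := by
          rw [h1]; abel
        have e3 : (inc (cps τ (K+1))).mulVec y = (inc (cps τ K)).mulVec ((inc (τ K)).mulVec y) := by
          rw [cps_succ, inc_comp, ← Matrix.mulVec_mulVec]
        have e4 : (inc (τ K)).mulVec y = y' + b • ev 0 + e • κ := by rw [hy']; abel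
        have e5 : (inc (cps τ K)).mulVec κ = pv τ (K+1) - a • pv τ K := by
          rw [hκ, Matrix.mulVec_sub, mulVec_zsmul, ← pv_succ]
          rfl
        rw [e3, e2, e4, Matrix.mulVec_add, Matrix.mulVec_add, mulVec_zsmul, mulVec_zsmul, e5]
        change _ + (_ + b • pv τ K + _) = _
        rw [add_smul, sub_smul, add_smul, smul_sub, mul_comm a e, mul_smul]
        abel
      · intro k hk
        dsimp only
        rw [if_pos (by omega)]
        exact h3 k hk
      · intro k hk
        dsimp only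
        rcases Nat.lt_or_ge k K with hkK | hkK
        · rw [if_pos hkK]
          exact h4 k hkK
        · have : k = K := by omega
          subst this
          rw [if_neg (lt_irrefl k), ← hAr]
          have h5 : 2 * |E k + b - a * e + ε| ≤ a + 2 := by
            have := abs_add_le (E k + b - a * e) ε
            omega
          have h6 : ((2 * |E k + b - a * e + ε| : ℤ) : ℝ) ≤ ((a + 2 : ℤ) : ℝ) := by
            exact_mod_cast h5
          push_cast at h6 ⊢
          exact h6
    · rw [hy']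
      simp [ev, hκ0, hb]
    · intro i hi
      rw [hy'i i hi]
      push_cast
      have h3 := abs_sub (((inc (τ K)).mulVec y i : ℤ) : ℝ) ((e : ℝ) * ((τ K 0).count i : ℝ))
      have h4 : |(e : ℝ) * ((τ K 0).count i : ℝ)| ≤ ((τ K 0).count i : ℝ) := by
        rw [abs_mul, abs_of_nonneg (Nat.cast_nonneg _ : (0:ℝ) ≤ ((τ K 0).count i : ℝ))]
        have h5 : |(e : ℝ)| ≤ 1 := by
          rw [← Int.cast_abs]
          exact_mod_cast he1
        have h6 : (0:ℝ) ≤ ((τ K 0).count i : ℝ) := Nat.cast_nonneg _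
        nlinarith
      have h5 := hs.row i hi
      have h6 := Hub.mul_le (τ := τ K) y hy0 hyz i
      linarith
    · intro i hi
      by_cases hi0 : i = 0
      · exfalso
        apply hi
        rw [hi0, hy']
        simp [ev, hκ0, hb]
      · rw [hy'i i hi0] at hi
        have hipos : 0 < (i : ℕ) := Nat.pos_of_ne_zero fun h => hi0 (Fin.ext h)
        by_cases he0 : e = 0
        · rw [he0, zero_mul, sub_zero] at hi
          obtain ⟨j, hj⟩ : ∃ j, inc (τ K) i j * y j ≠ 0 := by
            by_contra hcon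
            push Not at hcon
            apply hi
            simp only [Matrix.mulVec, dotProduct]
            exact Finset.sum_eq_zero fun j _ => hcon j
          have hj1 : inc (τ K) i j ≠ 0 := left_ne_zero_of_mul hj
          have hj2 : y j ≠ 0 := right_ne_zero_of_mul hj
          have hj0 : j ≠ 0 := by
            rintro rfl
            exact hj2 hy0
          have h3 := hsup j hj2
          have h4 : i ∈ τ K j := by
            rw [← List.count_pos_iff]
            simp only [inc] at hj1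
            omega
          have h5 : (j : ℕ) < i := hs.tri j hj0 i h4 hi0
          omega
        · have hKK : ¬ K < K0 := fun h => he0 (he3 h)
          omega
    · intro k hk1 hk2
      exact hE k hk1 (by omega)

/-- heights of expansions with small digits -/
theorem val_ht {M : Matrix (Fin (m+1)) (Fin (m+1)) ℤ} (P : PD M)
    {τ : ℕ → Fin (m+1) → List (Fin (m+1))} (E : ℕ → ℤ) (K : ℕ)
    (hE : ∀ k < K, |(E k : ℝ)| + 1 ≤ ((τ k 0).count 0 : ℝ)) :
    |P.ht (val τ E K)| ≤ P.ht (pv τ K) := by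
  have hsm : ∀ (c : ℤ) (z : Fin (m+1) → ℤ), P.ht (c • z) = c * P.ht z := by
    intro c z
    unfold PD.ht
    rw [Finset.mul_sum]
    refine Finset.sum_congr rfl fun i _ => ?_
    simp only [Pi.smul_apply, smul_eq_mul, Int.cast_mul]
    ring
  have hpvnn : ∀ k, 0 ≤ P.ht (pv τ k) := fun k => by
    rw [← ab_cps]
    exact UTot_ht_nonneg P _
  have hgrow : ∀ k, ((τ k 0).count 0 : ℝ) * P.ht (pv τ k) ≤ P.ht (pv τ (k+1)) := by
    intro k
    have h1 : ∀ u : List (Fin (m+1)), (u.count 0 : ℝ) * P.ht (pv τ k) ≤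
        P.ht (ab (ext (cps τ k) u)) := by
      intro u
      induction u with
      | nil => simp [ext, ab_nil, ht_zero]
      | cons c u ih =>
        rw [ext_cons, ab_append, ht_add]
        by_cases hc : c = 0
        · subst hc
          rw [List.count_cons_self, ab_cps]
          push_cast
          linarith
        · rw [List.count_cons_of_ne (by exact hc)]
          have := UTot_ht_nonneg P (cps τ k c)
          linarith
    have h2 := h1 (τ k 0)
    rwa [ab_ext, ab_subst, ← pv_succ] at h2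
  induction K with
  | zero =>
    have h0 : val τ E 0 = 0 := by simp [val]
    rw [h0, ht_zero, abs_zero]
    exact hpvnn 0
  | succ K ih =>
    have ih' := ih fun k hk => hE k (by omega)
    rw [val_succ, ht_add, hsm]
    have h1 := hE K (Nat.lt_succ_self K)
    have h2 := hgrow K
    have h3 := mul_le_mul_of_nonneg_right h1 (hpvnn K)
    refine (abs_add_le _ _).trans ?_
    rw [abs_mul, abs_of_nonneg (hpvnn K)]
    linarith

/-! ### relations -/

/-- a linear combination of columns has an expansion if the columns have -/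
theorem lin_cost {τ : ℕ → Fin (m+1) → List (Fin (m+1))} (q : ℕ → ℤ) (hq : ∀ k, 0 < q k) (L : ℝ)
    (K : ℕ) (c : Fin (m+1) → ℤ)
    (h : ∀ i, i ≠ 0 → c i ≠ 0 → ∃ R : ℕ → ℤ,
      val τ R K = (inc (cps τ K)).mulVec (ev i) ∧
      ((∑ k ∈ Finset.range K, q k * |R k| : ℤ) : ℝ) ≤ L * w i) :
    ∃ R : ℕ → ℤ, val τ R K = (inc (cps τ K)).mulVec c - c 0 • pv τ K ∧
      ((∑ k ∈ Finset.range K, q k * |R k| : ℤ) : ℝ) ≤
        L * ∑ i ∈ Finset.univ.erase 0, w i * |(c i : ℝ)| := by
  have h1 : ∀ i, ∃ R : ℕ → ℤ, i ≠ 0 → c i ≠ 0 →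
      val τ R K = (inc (cps τ K)).mulVec (ev i) ∧
      ((∑ k ∈ Finset.range K, q k * |R k| : ℤ) : ℝ) ≤ L * w i := by
    intro i
    by_cases hi : i ≠ 0 ∧ c i ≠ 0
    · obtain ⟨R, hR⟩ := h i hi.1 hi.2
      exact ⟨R, fun _ _ => hR⟩
    · exact ⟨0, fun h2 h3 => absurd ⟨h2, h3⟩ hi⟩
  choose R hR using h1
  refine ⟨fun k => ∑ i ∈ Finset.univ.erase 0, c i * R i k, ?_, ?_⟩
  · have h2 : val τ (fun k => ∑ i ∈ Finset.univ.erase 0, c i * R i k) K =
        ∑ i ∈ Finset.univ.erase 0, c i • val τ (R i) K := by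
      unfold val
      simp only [Finset.sum_smul, Finset.smul_sum, mul_smul]
      rw [Finset.sum_comm]
    rw [h2]
    have h3 : c = ∑ i, c i • ev i := by
      funext j
      simp [ev]
    have h4 : (inc (cps τ K)).mulVec c = ∑ i, c i • (inc (cps τ K)).mulVec (ev i) := by
      conv_lhs => rw [h3]
      rw [Matrix.mulVec_sum]
      exact Finset.sum_congr rfl fun i _ => mulVec_zsmul _ _ _
    rw [h4, ← Finset.add_sum_erase _ _ (Finset.mem_univ (0 : Fin (m+1)))]
    change _ = c 0 • pv τ K + _ - _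
    rw [add_sub_cancel_left]
    refine Finset.sum_congr rfl fun i hi => ?_
    by_cases hc : c i = 0
    · rw [hc, zero_smul, zero_smul]
    · rw [(hR i (Finset.ne_of_mem_erase hi) hc).1]
  · have h5 : ∑ k ∈ Finset.range K, q k * |∑ i ∈ Finset.univ.erase 0, c i * R i k| ≤
        ∑ i ∈ Finset.univ.erase 0, |c i| * ∑ k ∈ Finset.range K, q k * |R i k| := by
      calc ∑ k ∈ Finset.range K, q k * |∑ i ∈ Finset.univ.erase 0, c i * R i k| ≤
          ∑ k ∈ Finset.range K, ∑ i ∈ Finset.univ.erase 0, |c i| * (q k * |R i k|) := by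
            refine Finset.sum_le_sum fun k _ => ?_
            have h6 : |∑ i ∈ Finset.univ.erase 0, c i * R i k| ≤
                ∑ i ∈ Finset.univ.erase 0, |c i| * |R i k| :=
              (Finset.abs_sum_le_sum_abs _ _).trans
                (Finset.sum_le_sum fun i _ => (abs_mul _ _).le)
            have h7 := mul_le_mul_of_nonneg_left h6 (hq k).le
            refine h7.trans (le_of_eq ?_)
            rw [Finset.mul_sum]
            exact Finset.sum_congr rfl fun i _ => by ring
        _ = _ := by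
            rw [Finset.sum_comm]
            exact Finset.sum_congr rfl fun i _ => (Finset.mul_sum _ _ _).symm
    have h6 : ((∑ k ∈ Finset.range K, q k * |∑ i ∈ Finset.univ.erase 0, c i * R i k| : ℤ) : ℝ) ≤
        ∑ i ∈ Finset.univ.erase 0, |(c i : ℝ)| *
          ((∑ k ∈ Finset.range K, q k * |R i k| : ℤ) : ℝ) := by
      have h7 : ((∑ k ∈ Finset.range K, q k * |∑ i ∈ Finset.univ.erase 0, c i * R i k| : ℤ) : ℝ) ≤
          ((∑ i ∈ Finset.univ.erase 0, |c i| * ∑ k ∈ Finset.range K, q k * |R i k| : ℤ) : ℝ) := by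
        exact_mod_cast h5
      refine h7.trans (le_of_eq ?_)
      push_cast
      rfl
    refine h6.trans ?_
    rw [Finset.mul_sum]
    refine Finset.sum_le_sum fun i hi => ?_
    by_cases hc : c i = 0
    · rw [hc, Int.cast_zero, abs_zero, zero_mul, mul_zero, mul_zero]
    · have h7 := mul_le_mul_of_nonneg_left (hR i (Finset.ne_of_mem_erase hi) hc).2
        (abs_nonneg (c i : ℝ))
      linarith

theorem mulVec_ev' (M : Matrix (Fin (m+1)) (Fin (m+1)) ℤ) (j : Fin (m+1)) :
    M.mulVec (ev j) = fun i => M i j := by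
  funext i
  simp [Matrix.mulVec, dotProduct, ev]

/-- expansions of the columns -/
theorem col_cost {τ : ℕ → Fin (m+1) → List (Fin (m+1))} (hτ : ∀ k, Hub w z (τ k))
    (q : ℕ → ℤ) (hq : ∀ k, 0 < q k) (L : ℤ) (hL : ∀ k, q k * (((τ k 0).count 0 : ℕ) : ℤ) = L)
    (K : ℕ) : ∀ j : Fin (m+1), j ≠ 0 → m + 1 ≤ K + j →
    ∃ R : ℕ → ℤ, val τ R K = (inc (cps τ K)).mulVec (ev j) ∧
      ((∑ k ∈ Finset.range K, q k * |R k| : ℤ) : ℝ) ≤ L * w j := by
  induction K with
  | zero =>
    intro j _ h
    have := j.2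
    omega
  | succ K ih =>
    intro j hj hK
    obtain ⟨R, hR1, hR2⟩ := lin_cost (w := w) (τ := τ) q hq (L : ℝ) K
      ((inc (τ K)).mulVec (ev j)) (by
      intro i hi hc
      refine ih i hi ?_
      rw [mulVec_ev'] at hc
      have h1 : i ∈ τ K j := by
        rw [← List.count_pos_iff]
        simp only [inc] at hc
        omega
      have h2 : j < i := (hτ K).tri j hj i h1 hi
      have h3 : (j : ℕ) < i := h2
      omega)
    refine ⟨fun k => if k < K then R k else (inc (τ K)) 0 j, ?_, ?_⟩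
    · rw [val_succ, inc_cps_succ, ← Matrix.mulVec_mulVec]
      have h1 : val τ (fun k => if k < K then R k else (inc (τ K)) 0 j) K = val τ R K := by
        unfold val
        refine Finset.sum_congr rfl fun k hk => ?_
        simp only [if_pos (Finset.mem_range.1 hk)]
      rw [h1, hR1]
      simp only [if_neg (lt_irrefl K)]
      have h2 : (inc (τ K)).mulVec (ev j) 0 = (inc (τ K)) 0 j := by rw [mulVec_ev']
      rw [h2, sub_add_cancel]
    · rw [Finset.sum_range_succ]
      simp only [if_neg (lt_irrefl K)]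
      have h1 : ∑ k ∈ Finset.range K, q k * |if k < K then R k else (inc (τ K)) 0 j| =
          ∑ k ∈ Finset.range K, q k * |R k| := by
        refine Finset.sum_congr rfl fun k hk => ?_
        rw [if_pos (Finset.mem_range.1 hk)]
      rw [h1]
      have h3 : ∑ i ∈ Finset.univ.erase 0, w i * |(((inc (τ K)).mulVec (ev j) i : ℤ) : ℝ)| =
          ∑ i ∈ Finset.univ.erase 0, w i * ((τ K j).count i : ℝ) := by
        refine Finset.sum_congr rfl fun i _ => ?_
        rw [mulVec_ev']
        simp [inc]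
      rw [h3] at hR2
      have h4 : |(inc (τ K)) 0 j| = (((τ K j).count 0 : ℕ) : ℤ) := by simp [inc]
      rw [h4, Int.cast_add, Int.cast_mul]
      have h2 := (hτ K).col j hj
      have hqr : (0 : ℝ) < (q K : ℝ) := by exact_mod_cast hq K
      have hLr : (q K : ℝ) * ((τ K 0).count 0 : ℝ) = (L : ℝ) := by exact_mod_cast hL K
      have h5 := mul_le_mul_of_nonneg_left h2 hqr.le
      rw [mul_add, ← mul_assoc, ← mul_assoc, hLr] at h5
      have h6 : ((((τ K j).count 0 : ℕ) : ℤ) : ℝ) = ((τ K j).count 0 : ℝ) := by push_cast; rfl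
      rw [h6]
      linarith

end

end Pool.Agent.K9h44.PL
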