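import Pool.Agent.K9h44.PL.Core

/-!
Digits of expansions of minimal weight; the coincidence theorem.
-/

set_option autoImplicit false

namespace Pool.Agent.K9h44.PL
open Pool.Agent.H812R2.PI Pool.Agent.TH100.Pisot Pool.Agent.Y316.Pisot Pool.Agent.R889.PZ
open scoped BigOperators

variable {m : ℕ}

/-- a sequence of substitutions with relations `pv (K+1) = a K • pv K + (small terms)`, and enough
differences of positions of `0` in the images of `0` -/
structure Sys (τ : ℕ → Fin (m+1) → List (Fin (m+1))) (a A : ℕ → ℤ) (K0 : ℕ) : Prop where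
  rel : ∀ K, K0 ≤ K → ∃ R : ℕ → ℤ, val τ R K = pv τ (K+1) - a K • pv τ K ∧
    ∑ k ∈ Finset.range K, |R k| ≤ A K
  nonneg : ∀ K, 0 ≤ A K
  dom : ∀ K, 1 + A K < a K
  gen : ∃ K1, ∀ w : Fin (m+1) → ℤ, ∃ E : ℕ → ℤ, val τ E K1 = w
  cap : ∀ (k : ℕ) (x : ℤ), 2 * |x| ≤ a k + A k + 3 → ∃ ε : ℤ, |ε| ≤ 1 ∧
    x • ev 0 + ε • (inc (τ k)).mulVec (ev 0) ∈ QQ (τ k 0)

/-- the arithmetic of one reduction -/
theorem reduce_arith (e a A : ℤ) (hA : 1 + A < a)
    (h : ∀ t : ℤ, |t| = 1 → |e| ≤ |e - t * a| + 1 + A) : 2 * |e| ≤ a + A + 1 := by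
  rcases le_total 0 e with he | he
  · have h1 := h 1 (by simp)
    rw [one_mul, abs_of_nonneg he] at h1
    rw [abs_of_nonneg he]
    rcases abs_cases (e - a) with ⟨h2, h3⟩ | ⟨h2, h3⟩ <;> rw [h2] at h1 <;> linarith
  · have h1 := h (-1) (by simp)
    rw [neg_one_mul, abs_of_nonpos he] at h1
    rw [abs_of_nonpos he]
    rcases abs_cases (e - -a) with ⟨h2, h3⟩ | ⟨h2, h3⟩ <;> rw [h2] at h1 <;> linarith

/-- weight of a modified expansion -/
theorem weight_mod (E R : ℕ → ℤ) (K N : ℕ) (hK : K + 1 < N) (a A t : ℤ) (ht : |t| = 1)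
    (hR : ∑ k ∈ Finset.range K, |R k| ≤ A) :
    ∑ k ∈ Finset.range N, |E k + t * ((if k = K+1 then 1 else 0) - (if k = K then a else 0) -
      (if k < K then R k else 0))| ≤
      ∑ k ∈ Finset.range N, |E k| + (|E K - t * a| - |E K| + 1 + A) := by
  have h1 : ∑ k ∈ Finset.range N, (if k = K+1 then (1:ℤ) else 0) = 1 := by
    rw [Finset.sum_eq_single (K+1)]
    · simp
    · intro b _ hb
      simp [hb]
    · intro h
      exact absurd (Finset.mem_range.2 hK) h
  have h2 : ∑ k ∈ Finset.range N, (if k = K then |E K - t * a| - |E K| else 0) =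
      |E K - t * a| - |E K| := by
    rw [Finset.sum_eq_single K]
    · simp
    · intro b _ hb
      simp [hb]
    · intro h
      exact absurd (Finset.mem_range.2 (by omega)) h
  have h3 : ∑ k ∈ Finset.range N, (if k < K then |R k| else 0) =
      ∑ k ∈ Finset.range K, |R k| := by
    have h4 : Finset.range K ⊆ Finset.range N := Finset.range_subset_range.2 (by omega)
    rw [← Finset.sum_subset h4]
    · refine Finset.sum_congr rfl fun k hk => ?_
      rw [if_pos (Finset.mem_range.1 hk)]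
    · intro k _ hk
      rw [if_neg (by rwa [Finset.mem_range] at hk)]
  have h5 : ∑ k ∈ Finset.range N, |E k + t * ((if k = K+1 then 1 else 0) -
      (if k = K then a else 0) - (if k < K then R k else 0))| ≤
      ∑ k ∈ Finset.range N, (|E k| + (if k = K then |E K - t * a| - |E K| else 0) +
        (if k = K+1 then (1:ℤ) else 0) + (if k < K then |R k| else 0)) := by
    refine Finset.sum_le_sum fun k _ => ?_
    rcases lt_trichotomy k K with h | h | h
    · have e1 : ¬ k = K + 1 := by omega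
      have e2 : ¬ k = K := by omega
      simp only [e1, e2, h, if_true, if_false, add_zero, sub_zero, zero_sub]
      refine (abs_add_le _ _).trans ?_
      rw [abs_mul, ht, one_mul, abs_neg]
    · subst h
      have e1 : ¬ k = k + 1 := by omega
      have e2 : ¬ k < k := by omega
      simp only [e1, e2, if_true, if_false, add_zero, sub_zero, zero_sub, mul_neg,
        ← sub_eq_add_neg]
      linarith
    · rw [if_neg (show ¬ k = K by omega), if_neg (show ¬ k < K by omega),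
        if_neg (show ¬ k = K by omega), if_neg (show ¬ k < K by omega), sub_zero, sub_zero,
        add_zero, add_zero]
      refine (abs_add_le _ _).trans ?_
      rw [abs_mul, ht, one_mul]
      split_ifs <;> simp
  refine h5.trans ?_
  rw [Finset.sum_add_distrib, Finset.sum_add_distrib, Finset.sum_add_distrib, h1, h2, h3]
  linarith

section
variable {τ : ℕ → Fin (m+1) → List (Fin (m+1))} {a A : ℕ → ℤ} {K0 r : ℕ}

/-- expansions with small digits -/
theorem digits (hs : Sys τ a A K0) (hper : ∀ k, τ (k + r) = τ k) (hr : 1 ≤ r)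
    (v : Fin (m+1) → ℤ) (g : ℤ) : ∃ (n : ℕ) (E : ℕ → ℤ), 1 ≤ n ∧
      val τ E (n * r) + g • pv τ (n * r) = ((inc (cps τ r)) ^ n).mulVec v ∧
      ∀ K, K + 1 < n * r → 2 * |E K| ≤ a K + A K + 1 := by
  classical
  obtain ⟨K1, hgen⟩ := hs.gen
  let Pr : ℕ → Prop := fun ω => ∃ (n : ℕ) (E : ℕ → ℤ), 1 ≤ n ∧
    val τ E (n * r) + g • pv τ (n * r) = ((inc (cps τ r)) ^ n).mulVec v ∧
    ∑ k ∈ Finset.range (n * r), |E k| = (ω : ℤ)
  have hex : ∃ ω, Pr ω := by
    obtain ⟨n, hn⟩ : ∃ n, n = K1 + 1 := ⟨_, rfl⟩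
    obtain ⟨E, hE⟩ := hgen (((inc (cps τ r)) ^ n).mulVec v - g • pv τ (n * r))
    have hle : K1 ≤ n * r := by
      have : n ≤ n * r := Nat.le_mul_of_pos_right n hr
      omega
    obtain ⟨E', hE'⟩ : ∃ E' : ℕ → ℤ, E' = fun k => if k < K1 then E k else 0 := ⟨_, rfl⟩
    have h1 : val τ E' (n * r) = val τ E K1 := by
      unfold val
      have h4 : Finset.range K1 ⊆ Finset.range (n * r) := Finset.range_subset_range.2 hle
      rw [← Finset.sum_subset h4]
      · refine Finset.sum_congr rfl fun k hk => ?_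
        rw [hE']
        simp only [if_pos (Finset.mem_range.1 hk)]
      · intro k _ hk
        rw [hE']
        simp only [if_neg (show ¬ k < K1 by rwa [Finset.mem_range] at hk), zero_smul]
    refine ⟨(∑ k ∈ Finset.range (n * r), |E' k|).toNat, n, E', by omega, ?_, ?_⟩
    · rw [h1, hE, sub_add_cancel]
    · rw [Int.toNat_of_nonneg (Finset.sum_nonneg fun k _ => abs_nonneg _)]
  obtain ⟨n, E, hn, hval, hw⟩ := Nat.find_spec hex
  have hmin : ∀ (n' : ℕ) (E' : ℕ → ℤ), 1 ≤ n' →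
      val τ E' (n' * r) + g • pv τ (n' * r) = ((inc (cps τ r)) ^ n').mulVec v →
      ((Nat.find hex : ℕ) : ℤ) ≤ ∑ k ∈ Finset.range (n' * r), |E' k| := by
    intro n' E' hn' hE'
    have h1 : Nat.find hex ≤ (∑ k ∈ Finset.range (n' * r), |E' k|).toNat := by
      apply Nat.find_min'
      exact ⟨n', E', hn', hE', by
        rw [Int.toNat_of_nonneg (Finset.sum_nonneg fun k _ => abs_nonneg _)]⟩
    have h2 : 0 ≤ ∑ k ∈ Finset.range (n' * r), |E' k| :=
      Finset.sum_nonneg fun k _ => abs_nonneg _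
    omega
  obtain ⟨ω, hω⟩ : ∃ ω, ω = Nat.find hex := ⟨_, rfl⟩
  rw [← hω] at hw hmin
  -- shift
  obtain ⟨E', hE'⟩ : ∃ E' : ℕ → ℤ, E' = fun k => if k < K0 * r then 0 else E (k - K0 * r) :=
    ⟨_, rfl⟩
  have hN : (K0 + n) * r = K0 * r + n * r := by ring
  have hval' : val τ E' ((K0 + n) * r) + g • pv τ ((K0 + n) * r) =
      ((inc (cps τ r)) ^ (K0 + n)).mulVec v := by
    rw [hN, hE', val_shift τ hper, pv_mul_add τ hper, ← mulVec_zsmul, ← Matrix.mulVec_add, hval,
      Matrix.mulVec_mulVec, ← pow_add]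
  have hw' : ∑ k ∈ Finset.range ((K0 + n) * r), |E' k| = (ω : ℤ) := by
    rw [hN, Finset.sum_range_add, ← hw]
    have h1 : ∑ k ∈ Finset.range (K0 * r), |E' k| = 0 := by
      apply Finset.sum_eq_zero
      intro k hk
      rw [hE']
      simp only [if_pos (Finset.mem_range.1 hk), abs_zero]
    rw [h1, zero_add]
    refine Finset.sum_congr rfl fun k _ => ?_
    rw [hE']
    dsimp only
    rw [if_neg (by omega), Nat.add_sub_cancel_left]
  refine ⟨K0 + n, E', by omega, hval', fun K hK => ?_⟩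
  rcases Nat.lt_or_ge K K0 with hlt | hge
  · have h0 : E' K = 0 := by
      rw [hE']
      have : K0 ≤ K0 * r := Nat.le_mul_of_pos_right K0 hr
      simp only [if_pos (show K < K0 * r by omega)]
    rw [h0, abs_zero]
    have h1 := hs.nonneg K
    have h2 := hs.dom K
    linarith
  · obtain ⟨R, hR1, hR2⟩ := hs.rel K hge
    refine reduce_arith _ _ _ (hs.dom K) fun t ht => ?_
    have h1 := weight_mod E' R K ((K0 + n) * r) hK (a K) (A K) t ht hR2
    have h2 := hmin (K0 + n) (fun k => E' k + t * ((if k = K+1 then 1 else 0) -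
      (if k = K then a K else 0) - (if k < K then R k else 0))) (by omega) (by
        rw [apply_rel τ E' R K _ hK (a K) t hR1]
        exact hval')
    rw [hw'] at h1
    linarith

/-- coincidences -/
theorem core (hs : Sys τ a A K0) (hper : ∀ k, τ (k + r) = τ k) (hr : 1 ≤ r)
    (P : PD (inc (cps τ r))) (h0 : ℝ)
    (htop : ∀ h : ℝ, |h| ≤ h0 → ∃ g : ℤ, ∀ x : ℤ,
      |P.lam * P.ell 0 / P.ht (pv τ (r - 1)) * (h - g) - x| < 1 →
        x • ev 0 + g • (inc (τ (r - 1))).mulVec (ev 0) ∈ QQ (τ (r - 1) 0))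
    (v : Fin (m+1) → ℤ) (hv : |P.ht v| ≤ h0 * P.ell 0) :
    ∃ n : ℕ, ((inc (cps τ r)) ^ n).mulVec v ∈ QQ (iter (cps τ r) n 0) := by
  have hl := P.ell_pos 0
  have hlam : 0 < P.lam := lt_trans one_pos P.lam_gt
  obtain ⟨h, hh⟩ : ∃ h, h = P.ht v / P.ell 0 := ⟨_, rfl⟩
  have hh' : P.ht v = h * P.ell 0 := by rw [hh]; field_simp
  obtain ⟨g, hg⟩ := htop h (by
    rw [hh, abs_div, abs_of_pos hl, div_le_iff₀ hl]; exact hv)
  obtain ⟨n, E, hn, hval, hdig⟩ := digits hs hper hr v g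
  refine ⟨n, ?_⟩
  obtain ⟨n', rfl⟩ : ∃ n', n = n' + 1 := ⟨n - 1, by omega⟩
  obtain ⟨K, hK⟩ : ∃ K, K = n' * r + (r - 1) := ⟨_, rfl⟩
  have hKN : (n' + 1) * r = K + 1 := by
    rw [hK, Nat.succ_mul]
    omega
  rw [hKN] at hval hdig
  obtain ⟨ε, hε, hy⟩ := carry τ E K (fun k hk x hx => hs.cap k x (by
    have h1 := hdig k (by omega)
    have h2 : |x| ≤ |x - E k| + |E k| := by
      have := abs_add_le (x - E k) (E k)
      rwa [sub_add_cancel] at this
    linarith))
  obtain ⟨y, hyd⟩ : ∃ y, y = val τ E K + ε • pv τ K := ⟨_, rfl⟩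
  rw [← hyd] at hy
  obtain ⟨x, hx⟩ : ∃ x, x = E K - ε := ⟨_, rfl⟩
  have hτK : τ K = τ (r - 1) := by rw [hK]; exact tau_mul_add τ hper _ _
  have hMv : ((inc (cps τ r)) ^ (n'+1)).mulVec v = y + x • pv τ K + g • pv τ (K+1) := by
    rw [← hval, val_succ, hyd, hx, sub_smul]
    abel
  -- heights
  have hyht := QQ_ht P hy
  rw [ab_cps] at hyht
  have hpK : P.ht (pv τ K) = P.lam ^ n' * P.ht (pv τ (r - 1)) := by
    rw [hK, pv_mul_add τ hper, ht_pow_mulVec]
  have hpK1 : P.ht (pv τ (K+1)) = P.lam ^ (n'+1) * P.ell 0 := by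
    rw [← hKN]
    have h1 := pv_mul_add τ hper (n'+1) 0
    rw [pv_zero] at h1
    change P.ht (pv τ ((n'+1) * r + 0)) = _
    rw [h1, ht_pow_mulVec, ht_ev]
  have hsm : ∀ (c : ℤ) (z : Fin (m+1) → ℤ), P.ht (c • z) = c * P.ht z := by
    intro c z
    unfold PD.ht
    rw [Finset.mul_sum]
    refine Finset.sum_congr rfl fun i _ => ?_
    simp only [Pi.smul_apply, smul_eq_mul, Int.cast_mul]
    ring
  have hpos : 0 < P.ht (pv τ (r - 1)) := by
    have h1 : 0 < P.ht (pv τ K) := lt_of_le_of_lt (abs_nonneg _) hyht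
    rw [hpK] at h1
    exact (pos_iff_pos_of_mul_pos h1).1 (pow_pos hlam n')
  have hht : P.lam ^ (n'+1) * (h * P.ell 0) = P.ht y + x * P.ht (pv τ K) +
      g * (P.lam ^ (n'+1) * P.ell 0) := by
    rw [← hh', ← ht_pow_mulVec, hMv, ht_add, ht_add, hsm, hsm, hpK1]
  have hx1 : |P.lam * P.ell 0 / P.ht (pv τ (r - 1)) * (h - g) - x| < 1 := by
    have hψ : 0 < P.ht (pv τ K) := lt_of_le_of_lt (abs_nonneg _) hyht
    have h1 : P.lam * P.ell 0 / P.ht (pv τ (r - 1)) * (h - g) - x =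
        P.ht y / P.ht (pv τ K) := by
      rw [hpK] at hψ hht ⊢
      field_simp
      rw [pow_succ] at hht
      linear_combination hht
    rw [h1, abs_div, abs_of_pos hψ, div_lt_one hψ]
    exact hyht
  have h2 := hg x hx1
  rw [← hτK] at h2
  have h3 := QQ_comp (S := cps τ K) (T := τ K) h2 hy
  rw [← cps_succ, ← hKN, cps_mul τ hper] at h3
  convert h3 using 1
  rw [hMv, Matrix.mulVec_add, mulVec_zsmul, mulVec_zsmul, ← pv_succ]
  change _ = x • pv τ K + _ + _
  abel

end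

/-- from coincidences of two tiles of the letter `0` to the geometric coincidence condition -/
theorem gcc_of_zero {S : Fin (m+1) → List (Fin (m+1))} (P : PD (inc S)) {h0 : ℝ}
    (hh0 : 1 / 2 ≤ h0) (hh1 : h0 ≤ 1) (hfr : 1 < 2 * h0 * frac P)
    (h : ∀ v : Fin (m+1) → ℤ, |P.ht v| ≤ h0 * P.ell 0 →
      ∃ n : ℕ, ((inc S) ^ n).mulVec v ∈ QQ (iter S n 0)) : GCC P.ell S := by
  intro a b v hov
  rw [← ov_pos_iff] at hov
  obtain ⟨n, e, he, f, hf, he0, hf0, hef⟩ := reach P hh0 hh1 hfr a b v hov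
  obtain ⟨k, x, y, hx, hy, hxy⟩ := h _ hef
  refine ⟨k + n, (x + (inc (iter S k)).mulVec e.1, 0), ?_, ?_⟩
  · rw [← comp_iter]
    exact JComp_mem0 he (by rw [he0]; exact hx)
  · rw [← comp_iter, ← inc_iter, ← comp_iter]
    refine JComp_mem1 (g := e) (h := (x, 0)) (by rw [inc_iter]; exact hf) ?_
    rw [hf0, inc_iter, hxy]
    have h1 := JComp_mem_translate (t := x - y) hy
    rw [zero_add] at h1
    simpa using h1

end Pool.Agent.K9h44.PL
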