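import Pool.Agent.K9h44.PL.Gcc
import Pool.Agent.Y316.Pisot.Pis
import Pool.Agent.Y316.Pisot.Main
import Pool.Agent.R889.PZ.NMain
import Pool.Agent.H906R3.CY.PF

/-!
Compositions of substitutions with a frequent letter are unimodular, irreducible and Pisot.
-/

set_option autoImplicit false

namespace Pool.Agent.K9h44.PL
open Pool.Agent.H812R2.PI Pool.Agent.TH100.Pisot Pool.Agent.Y316.Pisot Pool.Agent.R889.PZ
open scoped BigOperators

variable {m : ℕ} {w : Fin (m+1) → ℕ}

/-- the action on complex row vectors -/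
noncomputable def rc (τ : Fin (m+1) → List (Fin (m+1))) (f : Fin (m+1) → ℂ) : Fin (m+1) → ℂ :=
  fun j => ∑ i, f i * ((inc τ i j : ℤ) : ℂ)

theorem rc_comp (S T : Fin (m+1) → List (Fin (m+1))) (f : Fin (m+1) → ℂ) :
    rc (comp S T) f = rc T (rc S f) := by
  funext j
  unfold rc
  rw [inc_comp]
  simp only [Matrix.mul_apply, Int.cast_sum, Int.cast_mul, Finset.mul_sum, Finset.sum_mul]
  rw [Finset.sum_comm]
  exact Finset.sum_congr rfl fun i _ => Finset.sum_congr rfl fun k _ => by ring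

theorem rc_id (f : Fin (m+1) → ℂ) : rc (fun a => [a]) f = f := by
  funext j
  unfold rc
  rw [JComp_inc_id]
  simp [Matrix.one_apply]

theorem rc_smul (τ : Fin (m+1) → List (Fin (m+1))) (c : ℂ) (f : Fin (m+1) → ℂ) :
    rc τ (c • f) = c • rc τ f := by
  funext j
  simp only [rc, Pi.smul_apply, smul_eq_mul, Finset.mul_sum]
  exact Finset.sum_congr rfl fun i _ => by ring

theorem norm_rc_le (τ : Fin (m+1) → List (Fin (m+1))) (f : Fin (m+1) → ℂ) (j : Fin (m+1)) :
    ‖rc τ f j‖ ≤ ‖f 0‖ * ((τ j).count 0 : ℝ) +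
      ∑ i ∈ Finset.univ.erase 0, ‖f i‖ * ((τ j).count i : ℝ) := by
  rw [Finset.add_sum_erase _ (fun i => ‖f i‖ * ((τ j).count i : ℝ))
    (Finset.mem_univ (0 : Fin (m+1)))]
  refine (norm_sum_le _ _).trans (le_of_eq (Finset.sum_congr rfl fun i _ => ?_))
  rw [norm_mul]
  simp [inc]

/-- the cone -/
def Kc (w : Fin (m+1) → ℕ) (f : Fin (m+1) → ℂ) : Prop := ∀ j, j ≠ 0 → ‖f j‖ ≤ w j * ‖f 0‖

theorem Kc_step {τ : Fin (m+1) → List (Fin (m+1))} (hs : Sparse w τ) {f : Fin (m+1) → ℂ}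
    (h : Kc w f) : Kc w (rc τ f) := by
  have h0 : (0:ℝ) ≤ ‖f 0‖ := norm_nonneg _
  have hbig : 4 * ‖f 0‖ ≤ ‖rc τ f 0‖ := by
    have h1 : rc τ f 0 = f 0 * (((τ 0).count 0 : ℕ) : ℂ) +
        ∑ i ∈ Finset.univ.erase 0, f i * (((τ 0).count i : ℕ) : ℂ) := by
      rw [Finset.add_sum_erase _ (fun i => f i * (((τ 0).count i : ℕ) : ℂ))
        (Finset.mem_univ (0 : Fin (m+1)))]
      unfold rc inc
      simp
    have h2 : ‖∑ i ∈ Finset.univ.erase 0, f i * (((τ 0).count i : ℕ) : ℂ)‖ ≤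
        ‖f 0‖ * ((∑ i ∈ Finset.univ.erase 0, w i * (τ 0).count i : ℕ) : ℝ) := by
      refine (norm_sum_le _ _).trans ?_
      push_cast
      rw [Finset.mul_sum]
      refine Finset.sum_le_sum fun i hi => ?_
      rw [norm_mul, Complex.norm_natCast]
      have h3 := mul_le_mul_of_nonneg_right (h i (Finset.ne_of_mem_erase hi))
        (Nat.cast_nonneg ((τ 0).count i) : (0:ℝ) ≤ _)
      linarith
    have h3 : ‖f 0‖ * ((τ 0).count 0 : ℝ) ≤ ‖rc τ f 0‖ +
        ‖∑ i ∈ Finset.univ.erase 0, f i * (((τ 0).count i : ℕ) : ℂ)‖ := by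
      have h4 : f 0 * (((τ 0).count 0 : ℕ) : ℂ) = rc τ f 0 -
          ∑ i ∈ Finset.univ.erase 0, f i * (((τ 0).count i : ℕ) : ℂ) := by
        rw [h1]; ring
      have h5 := norm_sub_le (rc τ f 0)
        (∑ i ∈ Finset.univ.erase 0, f i * (((τ 0).count i : ℕ) : ℂ))
      rw [← h4, norm_mul, Complex.norm_natCast] at h5
      exact h5
    have h4 : ((∑ i ∈ Finset.univ.erase 0, w i * (τ 0).count i : ℕ) : ℝ) + 4 ≤
        ((τ 0).count 0 : ℝ) := by exact_mod_cast hs.dom
    have h5 := mul_le_mul_of_nonneg_left h4 h0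
    linarith
  intro j hj
  have h1 := norm_rc_le τ f j
  have h2 : ∑ i ∈ Finset.univ.erase 0, ‖f i‖ * ((τ j).count i : ℝ) ≤
      ‖f 0‖ * ∑ i ∈ Finset.univ.erase 0, (w i : ℝ) * ((τ j).count i : ℝ) := by
    rw [Finset.mul_sum]
    refine Finset.sum_le_sum fun i hi => ?_
    have h3 := mul_le_mul_of_nonneg_right (h i (Finset.ne_of_mem_erase hi))
      (Nat.cast_nonneg ((τ j).count i) : (0:ℝ) ≤ _)
    linarith
  have h3 : ((τ j).count 0 : ℝ) + ∑ i ∈ Finset.univ.erase 0, (w i : ℝ) * ((τ j).count i : ℝ) ≤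
      w j := by exact_mod_cast hs.wt j hj
  have h4 := mul_le_mul_of_nonneg_left h3 h0
  have h5 : (0:ℝ) ≤ w j := Nat.cast_nonneg _
  have h6 : ‖rc τ f j‖ ≤ ‖f 0‖ * w j := by linarith
  have h7 : ‖f 0‖ * w j ≤ w j * ‖rc τ f 0‖ := by nlinarith
  exact h6.trans h7

theorem Kc_list (l : List (Fin (m+1) → List (Fin (m+1)))) (hl : ∀ τ ∈ l, Sparse w τ) :
    ∀ f : Fin (m+1) → ℂ, Kc w f → Kc w (rc (compList l) f) := by
  induction l with
  | nil => intro f hf; simp only [compList]; rw [rc_id]; exact hf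
  | cons τ l ih =>
    intro f hf
    simp only [compList]
    rw [rc_comp]
    exact ih (fun τ' h => hl τ' (List.mem_cons_of_mem _ h)) _
      (Kc_step (hl τ (List.mem_cons_self ..)) hf)

/-- bounds, strict for the indices `≥ s` -/
def St (w : Fin (m+1) → ℕ) (C : ℝ) (s : ℕ) (f : Fin (m+1) → ℂ) : Prop :=
  ∀ j : Fin (m+1), j ≠ 0 → ‖f j‖ ≤ C * w j ∧ (s ≤ j → ‖f j‖ < C * w j)

theorem St_step (hw : ∀ j : Fin (m+1), j ≠ 0 → 1 ≤ w j) {τ : Fin (m+1) → List (Fin (m+1))}
    (hs : Sparse w τ) (hne : ∀ j, τ j ≠ []) {C : ℝ} {s : ℕ} {f : Fin (m+1) → ℂ}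
    (h : St w C s f) (hK : ¬ Kc w f) : St w C (s - 1) (rc τ f) := by
  have hf0 : ‖f 0‖ < C := by
    unfold Kc at hK
    push Not at hK
    obtain ⟨j, hj, hj'⟩ := hK
    have h1 := (h j hj).1
    have h2 : (0:ℝ) < w j := by exact_mod_cast hw j hj
    nlinarith
  have hC : 0 < C := lt_of_le_of_lt (norm_nonneg _) hf0
  intro j hj
  have h1 := norm_rc_le τ f j
  have h3 : ((τ j).count 0 : ℝ) + ∑ i ∈ Finset.univ.erase 0, (w i : ℝ) * ((τ j).count i : ℝ) ≤
      w j := by exact_mod_cast hs.wt j hj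
  have h4 := mul_le_mul_of_nonneg_left h3 hC.le
  have hle : ∀ i ∈ Finset.univ.erase (0 : Fin (m+1)), ‖f i‖ * ((τ j).count i : ℝ) ≤
      C * ((w i : ℝ) * ((τ j).count i : ℝ)) := by
    intro i hi
    have h5 := mul_le_mul_of_nonneg_right (h i (Finset.ne_of_mem_erase hi)).1
      (Nat.cast_nonneg ((τ j).count i) : (0:ℝ) ≤ _)
    linarith
  have h2 : ∑ i ∈ Finset.univ.erase 0, ‖f i‖ * ((τ j).count i : ℝ) ≤
      C * ∑ i ∈ Finset.univ.erase 0, (w i : ℝ) * ((τ j).count i : ℝ) := by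
    rw [Finset.mul_sum]
    exact Finset.sum_le_sum hle
  have h0 : ‖f 0‖ * ((τ j).count 0 : ℝ) ≤ C * ((τ j).count 0 : ℝ) :=
    mul_le_mul_of_nonneg_right hf0.le (Nat.cast_nonneg _)
  refine ⟨by linarith, fun hsj => ?_⟩
  obtain ⟨c, t, hct⟩ := List.exists_cons_of_ne_nil (hne j)
  have hc : c ∈ τ j := by rw [hct]; exact List.mem_cons_self ..
  have hcnt : (0:ℝ) < ((τ j).count c : ℝ) := by exact_mod_cast List.count_pos_iff.2 hc
  by_cases hc0 : c = 0
  · subst hc0
    have h5 : ‖f 0‖ * ((τ j).count 0 : ℝ) < C * ((τ j).count 0 : ℝ) :=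
      mul_lt_mul_of_pos_right hf0 hcnt
    linarith
  · have h5 : (j : ℕ) < c := hs.tri j hj c hc hc0
    have h6 := (h c hc0).2 (by omega)
    have h7 : ∑ i ∈ Finset.univ.erase 0, ‖f i‖ * ((τ j).count i : ℝ) <
        C * ∑ i ∈ Finset.univ.erase 0, (w i : ℝ) * ((τ j).count i : ℝ) := by
      rw [Finset.mul_sum]
      refine Finset.sum_lt_sum hle ⟨c, Finset.mem_erase.2 ⟨hc0, Finset.mem_univ _⟩, ?_⟩
      have := mul_lt_mul_of_pos_right h6 hcnt
      linarith
    linarith

theorem St_list (hw : ∀ j : Fin (m+1), j ≠ 0 → 1 ≤ w j)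
    (l : List (Fin (m+1) → List (Fin (m+1)))) (hl : ∀ τ ∈ l, Sparse w τ ∧ ∀ j, τ j ≠ [])
    {C : ℝ} : ∀ (s : ℕ) (f : Fin (m+1) → ℂ), St w C s f → ¬ Kc w (rc (compList l) f) →
    St w C (s - l.length) (rc (compList l) f) := by
  induction l with
  | nil =>
    intro s f h _
    simp only [compList]
    rw [rc_id]
    exact h
  | cons τ l ih =>
    intro s f h hK
    obtain ⟨h1, h2⟩ := hl τ (List.mem_cons_self ..)
    have hl' : ∀ τ ∈ l, Sparse w τ ∧ ∀ j, τ j ≠ [] := fun τ' h => hl τ' (List.mem_cons_of_mem _ h)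
    have hK' : ¬ Kc w f := fun hcon => hK (Kc_list (τ :: l)
      (fun τ' h => (hl τ' h).1) f hcon)
    simp only [compList] at hK ⊢
    rw [rc_comp] at hK ⊢
    have h3 := ih hl' (s - 1) _ (St_step hw h1 h2 h hK') hK
    rw [List.length_cons, show s - (l.length + 1) = s - 1 - l.length by omega]
    exact h3

/-- eigenvectors orthogonal to the frequencies -/
theorem decay (hm : 1 ≤ m) (hw : ∀ j : Fin (m+1), j ≠ 0 → 1 ≤ w j)
    (l : List (Fin (m+1) → List (Fin (m+1)))) (hne : l ≠ [])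
    (hl : ∀ τ ∈ l, Sparse w τ ∧ ∀ j, τ j ≠ []) (u : Fin (m+1) → ℝ)
    (hu0 : ∀ i, 0 < u i) (hu : ∑ i ∈ Finset.univ.erase 0, (w i : ℝ) * u i < u 0)
    (ν : ℂ) (hν : 1 ≤ ‖ν‖) (y : Fin (m+1) → ℂ) (hy : rc (compList l) y = ν • y)
    (hyu : ∑ i, y i * (u i : ℂ) = 0) : y = 0 := by
  by_contra hy0
  have hν0 : ν ≠ 0 := by
    rintro rfl
    rw [norm_zero] at hν
    linarith
  have hnK : ∀ c : ℂ, c ≠ 0 → ¬ Kc w (c • y) := by
    intro c hc hK
    have hK' : Kc w y := by
      intro j hj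
      have h1 := hK j hj
      simp only [Pi.smul_apply, smul_eq_mul, norm_mul] at h1
      have h2 : 0 < ‖c‖ := norm_pos_iff.2 hc
      refine le_of_mul_le_mul_left ?_ h2
      linarith
    have h1 : y 0 * (u 0 : ℂ) = - ∑ i ∈ Finset.univ.erase 0, y i * (u i : ℂ) := by
      rw [← Finset.add_sum_erase _ _ (Finset.mem_univ (0 : Fin (m+1)))] at hyu
      linear_combination hyu
    have h2 : ‖y 0‖ * u 0 ≤ ‖y 0‖ * ∑ i ∈ Finset.univ.erase 0, (w i : ℝ) * u i := by
      have h3 := congrArg norm h1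
      rw [norm_mul, norm_neg, Complex.norm_real, Real.norm_eq_abs, abs_of_pos (hu0 0)] at h3
      rw [h3, Finset.mul_sum]
      refine (norm_sum_le _ _).trans (Finset.sum_le_sum fun i hi => ?_)
      rw [norm_mul, Complex.norm_real, Real.norm_eq_abs, abs_of_pos (hu0 i)]
      have h4 := mul_le_mul_of_nonneg_right (hK' i (Finset.ne_of_mem_erase hi)) (hu0 i).le
      linarith
    have h3 : y 0 = 0 := by
      by_contra h4
      have h5 := mul_lt_mul_of_pos_left hu (norm_pos_iff.2 h4)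
      linarith
    apply hy0
    funext j
    by_cases hj : j = 0
    · rw [hj, h3]; rfl
    · have h4 := hK' j hj
      rw [h3, norm_zero, mul_zero] at h4
      simpa using norm_le_zero_iff.1 h4
  -- the power
  have hpow : ∀ n : ℕ, rc (iter (compList l) n) y = ν ^ n • y := by
    intro n
    induction n with
    | zero =>
      have h : iter (compList l) 0 = fun a => [a] := rfl
      rw [h, rc_id, pow_zero, one_smul]
    | succ n ih =>
      have h : iter (compList l) (n+1) = comp (compList l) (iter (compList l) n) := by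
        funext a
        rw [iter_succ]
        rfl
      rw [h, rc_comp, hy, rc_smul, ih, smul_smul, pow_succ']
  have h10 : (1 : Fin (m+1)) ≠ 0 := by
    intro h
    have h1 := congrArg Fin.val h
    rw [Fin.val_one', Fin.val_zero, Nat.mod_eq_of_lt (by omega)] at h1
    exact one_ne_zero h1
  obtain ⟨j0, hj0, hmax⟩ := Finset.exists_max_image (Finset.univ.erase (0 : Fin (m+1)))
    (fun j => ‖y j‖ / w j) ⟨1, Finset.mem_erase.2 ⟨h10, Finset.mem_univ _⟩⟩
  have hj0' := Finset.ne_of_mem_erase hj0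
  have hwj : ∀ j : Fin (m+1), j ≠ 0 → (0 : ℝ) < w j := fun j hj => by exact_mod_cast hw j hj
  have hSt : St w (‖y j0‖ / w j0) (m + 1) y := by
    intro j hj
    refine ⟨?_, fun h => ?_⟩
    · have h1 := hmax j (Finset.mem_erase.2 ⟨hj, Finset.mem_univ _⟩)
      rwa [div_le_iff₀ (hwj j hj)] at h1
    · have := j.2
      omega
  have h1 := St_list hw ((List.replicate m l).flatten) (by
    intro τ hτ
    rw [List.mem_flatten] at hτ
    obtain ⟨l', h1, h2⟩ := hτ
    rw [List.mem_replicate] at h1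
    rw [h1.2] at h2
    exact hl τ h2) (m + 1) y hSt (by
      rw [compList_flatten, hpow]
      exact hnK _ (pow_ne_zero _ hν0))
  have h2 := (h1 j0 hj0').2 (by
    have := len_flatten l m hne
    have h3 : 0 < (j0 : ℕ) := Nat.pos_of_ne_zero fun h => hj0' (Fin.ext h)
    omega)
  rw [compList_flatten, hpow] at h2
  simp only [Pi.smul_apply, smul_eq_mul, norm_mul, norm_pow] at h2
  have h3 : ‖y j0‖ / w j0 * w j0 = ‖y j0‖ := by
    have := hwj j0 hj0'
    field_simp
  rw [h3] at h2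
  have h4 : 1 ≤ ‖ν‖ ^ m := one_le_pow₀ hν
  have h5 := norm_nonneg (y j0)
  nlinarith

/-! ### Perron eigenvectors -/

theorem zero_mem {τ : Fin (m+1) → List (Fin (m+1))} (hs : Sparse w τ) :
    (0 : Fin (m+1)) ∈ τ 0 := by
  rw [← List.count_pos_iff]
  have := hs.dom
  omega

theorem reach_zero (l : List (Fin (m+1) → List (Fin (m+1))))
    (hl : ∀ τ ∈ l, Sparse w τ ∧ ∀ j, τ j ≠ []) (j : Fin (m+1)) :
    ∃ c ∈ compList l j, c = 0 ∨ (j : ℕ) + l.length ≤ c := by
  induction l with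
  | nil => exact ⟨j, by simp [compList], by simp⟩
  | cons τ l ih =>
    obtain ⟨c, hc, h⟩ := ih fun τ' h => hl τ' (List.mem_cons_of_mem _ h)
    obtain ⟨hs, hne⟩ := hl τ (List.mem_cons_self ..)
    simp only [compList, comp]
    by_cases hc0 : c = 0
    · rw [hc0] at hc
      exact ⟨0, List.mem_flatMap.2 ⟨0, hc, zero_mem hs⟩, Or.inl rfl⟩
    · obtain ⟨i, t, hit⟩ := List.exists_cons_of_ne_nil (hne c)
      have hi : i ∈ τ c := by rw [hit]; exact List.mem_cons_self ..
      refine ⟨i, List.mem_flatMap.2 ⟨c, hc, hi⟩, ?_⟩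
      by_cases hi0 : i = 0
      · exact Or.inl hi0
      · right
        rcases h with h2 | h2
        · exact absurd h2 hc0
        · have h3 : (c : ℕ) < i := hs.tri c hc0 i hi hi0
          rw [List.length_cons]
          omega

theorem from_zero (l : List (Fin (m+1) → List (Fin (m+1))))
    (hl : ∀ τ ∈ l, Sparse w τ ∧ (inc τ).det ≠ 0) : ∀ i : Fin (m+1), (i : ℕ) ≤ l.length →
    i ∈ compList l 0 := by
  induction l with
  | nil =>
    intro i hi
    have : i = 0 := Fin.ext (by simpa using hi)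
    rw [this]
    simp [compList]
  | cons τ l ih =>
    intro i hi
    have ih' := ih fun τ' h => hl τ' (List.mem_cons_of_mem _ h)
    obtain ⟨hs, hdet⟩ := hl τ (List.mem_cons_self ..)
    simp only [compList, comp]
    by_cases hi0 : i = 0
    · rw [hi0]
      exact List.mem_flatMap.2 ⟨0, ih' 0 (Nat.zero_le _), zero_mem hs⟩
    · obtain ⟨j, hj⟩ : ∃ j, i ∈ τ j := by
        by_contra hcon
        push Not at hcon
        apply hdet
        apply Matrix.det_eq_zero_of_row_eq_zero i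
        intro j
        simp [inc, List.count_eq_zero_of_not_mem (hcon j)]
      by_cases hj0 : j = 0
      · rw [hj0] at hj
        exact List.mem_flatMap.2 ⟨0, ih' 0 (Nat.zero_le _), hj⟩
      · have h3 : (j : ℕ) < i := hs.tri j hj0 i hj hi0
        rw [List.length_cons] at hi
        exact List.mem_flatMap.2 ⟨j, ih' j (by omega), hj⟩

/-- Perron eigenvectors of compositions -/
theorem perron_data (l : List (Fin (m+1) → List (Fin (m+1)))) (hne : l ≠ [])
    (hl : ∀ τ ∈ l, Sparse w τ ∧ (inc τ).det ≠ 0) :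
    ∃ (u f : Fin (m+1) → ℝ) (Λ : ℝ), (∀ i, 0 < u i) ∧ (∀ i, 0 < f i) ∧ 0 < Λ ∧
      (∀ i, ∑ j, ((inc (compList l) i j : ℤ) : ℝ) * u j = Λ * u i) ∧
      (∀ j, ∑ i, f i * ((inc (compList l) i j : ℤ) : ℝ) = Λ * f j) := by
  obtain ⟨M, hM⟩ : ∃ M : Matrix (Fin (m+1)) (Fin (m+1)) ℤ, M = inc (compList l) := ⟨_, rfl⟩
  have hnn : ∀ (k : ℕ) (i j : Fin (m+1)), 0 ≤ (M ^ k) i j := by
    intro k i j
    rw [hM, ← inc_iter]
    unfold inc
    positivity
  have hpos : ∀ i j, 0 < (M ^ (2 * (m + 1))) i j := by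
    intro i j
    have hlen := len_flatten l (m+1) hne
    have hmem : ∀ τ ∈ (List.replicate (m+1) l).flatten, Sparse w τ ∧ (inc τ).det ≠ 0 := by
      intro τ hτ
      rw [List.mem_flatten] at hτ
      obtain ⟨l', h1, h2⟩ := hτ
      rw [List.mem_replicate] at h1
      rw [h1.2] at h2
      exact hl τ h2
    have h1 : i ∈ iter (compList l) (m+1) 0 := by
      rw [← compList_flatten]
      exact from_zero _ hmem i (by have := i.2; omega)
    have h2 : (0 : Fin (m+1)) ∈ iter (compList l) (m+1) j := by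
      rw [← compList_flatten]
      obtain ⟨c, hc, h⟩ := reach_zero _ (fun τ hτ => ⟨(hmem τ hτ).1,
        ne_nil_of_det (hmem τ hτ).2⟩) j
      rcases h with h | h
      · rw [h] at hc; exact hc
      · have := c.2
        omega
    have h3 : 0 < (M ^ (m+1)) i 0 := by
      rw [hM, ← inc_iter]
      change (0 : ℤ) < (((iter (compList l) (m+1) 0).count i : ℕ) : ℤ)
      exact_mod_cast List.count_pos_iff.2 h1
    have h4 : 0 < (M ^ (m+1)) 0 j := by
      rw [hM, ← inc_iter]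
      change (0 : ℤ) < (((iter (compList l) (m+1) j).count 0 : ℕ) : ℤ)
      exact_mod_cast List.count_pos_iff.2 h2
    rw [show 2 * (m + 1) = (m + 1) + (m + 1) by ring, pow_add, Matrix.mul_apply]
    refine lt_of_lt_of_le (mul_pos h3 h4) ?_
    exact Finset.single_le_sum (f := fun k => (M ^ (m+1)) i k * (M ^ (m+1)) k j)
      (fun k _ => mul_nonneg (hnn _ _ _) (hnn _ _ _)) (Finset.mem_univ 0)
  obtain ⟨B, hB⟩ : ∃ B : Matrix (Fin (m+1)) (Fin (m+1)) ℝ, B = M.map (Int.cast : ℤ → ℝ) :=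
    ⟨_, rfl⟩
  have hBpow : ∀ (k : ℕ) (i j : Fin (m+1)), (B ^ k) i j = (((M ^ k) i j : ℤ) : ℝ) := by
    intro k
    have : B ^ k = (M ^ k).map (Int.cast : ℤ → ℝ) := by
      rw [hB]
      exact (map_pow (Int.castRingHom ℝ).mapMatrix M k).symm
    intro i j
    rw [this]
    rfl
  have hB0 : ∀ i j, 0 ≤ B i j := by
    intro i j
    have := hBpow 1 i j
    rw [pow_one] at this
    rw [this]
    exact_mod_cast hnn 1 i j
  have hBsum : ∀ i j, 0 < (∑ k ∈ Finset.range (2 * (m+1) + 1), B ^ k) i j := by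
    intro i j
    rw [Matrix.sum_apply]
    refine Finset.sum_pos' (fun k _ => ?_) ⟨2 * (m+1), by simp, ?_⟩
    · rw [hBpow]; exact_mod_cast hnn k i j
    · rw [hBpow]; exact_mod_cast hpos i j
  have hB1 : ∃ i j, 0 < B i j := by
    by_contra hcon
    push Not at hcon
    have h0 : B = 0 := by
      ext i j
      exact le_antisymm (hcon i j) (hB0 i j)
    have h1 := hBpow (2 * (m+1)) 0 0
    rw [h0, zero_pow (by omega)] at h1
    have h2 := hpos 0 0
    have h3 : ((0 : Matrix (Fin (m+1)) (Fin (m+1)) ℝ) 0 0) = 0 := rfl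
    rw [h3] at h1
    have h4 : (0:ℝ) < (((M ^ (2 * (m+1))) 0 0 : ℤ) : ℝ) := by exact_mod_cast h2
    linarith
  obtain ⟨u, Λ, hu, -, hΛ, hBu, -⟩ := H906C.perron B hB0 _ hBsum hB1
  have hBt : ∀ k, (B.transpose) ^ k = (B ^ k).transpose := fun k => (Matrix.transpose_pow B k).symm
  obtain ⟨f, Λ', hf, -, hΛ', hBf, -⟩ := H906C.perron B.transpose (fun i j => hB0 j i)
    (2 * (m+1) + 1) (fun i j => by
      have h := hBsum j i
      rw [Matrix.sum_apply] at h ⊢
      refine lt_of_lt_of_eq h (Finset.sum_congr rfl fun k _ => ?_)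
      rw [hBt]
      rfl) (by
      obtain ⟨i, j, h⟩ := hB1
      exact ⟨j, i, h⟩)
  have hu' : ∀ i, ∑ j, B i j * u j = Λ * u i := fun i => by
    have := congrFun hBu i
    simpa [Matrix.mulVec, dotProduct] using this
  have hf' : ∀ j, ∑ i, f i * B i j = Λ' * f j := fun j => by
    have := congrFun hBf j
    simp only [Matrix.mulVec, dotProduct, Matrix.transpose_apply, Pi.smul_apply,
      smul_eq_mul] at this
    rw [← this]
    exact Finset.sum_congr rfl fun i _ => mul_comm _ _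
  have hΛΛ : Λ' = Λ := by
    have h1 : ∑ j, (∑ i, f i * B i j) * u j = ∑ i, f i * ∑ j, B i j * u j := by
      simp only [Finset.sum_mul, Finset.mul_sum]
      rw [Finset.sum_comm]
      exact Finset.sum_congr rfl fun i _ => Finset.sum_congr rfl fun j _ => by ring
    simp only [hu', hf'] at h1
    have h2 : Λ' * ∑ j, f j * u j = Λ * ∑ j, f j * u j := by
      rw [Finset.mul_sum, Finset.mul_sum]
      rw [show ∑ i, Λ' * (f i * u i) = ∑ i, Λ' * f i * u i from
        Finset.sum_congr rfl fun i _ => by ring, h1]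
      exact Finset.sum_congr rfl fun i _ => by ring
    have h3 : 0 < ∑ j, f j * u j := Finset.sum_pos (fun j _ => mul_pos (hf j) (hu j))
      Finset.univ_nonempty
    exact mul_right_cancel₀ h3.ne' h2
  refine ⟨u, f, Λ, hu, hf, hΛ, ?_, ?_⟩
  · intro i
    rw [← hu' i]
    refine Finset.sum_congr rfl fun j _ => ?_
    rw [hB, hM]
    rfl
  · intro j
    rw [← hΛΛ, ← hf' j]
    refine Finset.sum_congr rfl fun i _ => ?_
    rw [hB, hM]
    rfl

/-- the eigenvalue is large -/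
theorem lam_ge (l : List (Fin (m+1) → List (Fin (m+1)))) (hne : l ≠ [])
    (hl : ∀ τ ∈ l, Sparse w τ) (u : Fin (m+1) → ℝ) (hu : ∀ i, 0 < u i) (Λ : ℝ)
    (h : ∀ i, ∑ j, ((inc (compList l) i j : ℤ) : ℝ) * u j = Λ * u i) : 4 ≤ Λ := by
  have key : ∀ (l : List (Fin (m+1) → List (Fin (m+1)))) (_ : ∀ τ ∈ l, Sparse w τ),
      4 ^ l.length ≤ (inc (compList l)) 0 0 := by
    intro l
    induction l with
    | nil =>
      intro _
      simp only [compList]
      rw [JComp_inc_id]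
      simp
    | cons τ l ih =>
      intro hl
      have ih' := ih fun τ' h => hl τ' (List.mem_cons_of_mem _ h)
      have hs := hl τ (List.mem_cons_self ..)
      simp only [compList]
      rw [inc_comp, Matrix.mul_apply]
      have h1 : inc τ 0 0 * inc (compList l) 0 0 ≤
          ∑ k, inc τ 0 k * inc (compList l) k 0 :=
        Finset.single_le_sum (f := fun k => inc τ 0 k * inc (compList l) k 0)
          (fun k _ => mul_nonneg (by unfold inc; positivity) (by unfold inc; positivity))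
          (Finset.mem_univ 0)
      have h2 : (4 : ℤ) ≤ inc τ 0 0 := by
        have := hs.dom
        unfold inc
        omega
      have h3 : (0 : ℤ) < 4 ^ l.length := by positivity
      rw [List.length_cons, pow_succ]
      nlinarith
  have h1 := key l hl
  have h2 : (4 : ℤ) ≤ inc (compList l) 0 0 := by
    refine le_trans ?_ h1
    have := List.length_pos_iff.2 hne
    calc (4 : ℤ) = 4 ^ 1 := by norm_num
      _ ≤ 4 ^ l.length := pow_le_pow_right₀ (by norm_num) this
  have h3 : ((inc (compList l) 0 0 : ℤ) : ℝ) * u 0 ≤ Λ * u 0 := by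
    rw [← h 0]
    exact Finset.single_le_sum (f := fun j => ((inc (compList l) 0 j : ℤ) : ℝ) * u j)
      (fun j _ => mul_nonneg (by unfold inc; positivity) (hu j).le) (Finset.mem_univ 0)
  have h4 := le_of_mul_le_mul_right h3 (hu 0)
  have h5 : (4 : ℝ) ≤ ((inc (compList l) 0 0 : ℤ) : ℝ) := by exact_mod_cast h2
  linarith

/-- unimodular, irreducible and Pisot -/
theorem pisot_list (hm : 1 ≤ m) (l : List (Fin (m+1) → List (Fin (m+1)))) (hne : l ≠ [])
    (hl : ∀ τ ∈ l, Sparse w τ ∧ ((inc τ).det = 1 ∨ (inc τ).det = -1)) :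
    PisotMat (inc (compList l)) := by
  have hdet0 : ∀ τ ∈ l, (inc τ).det ≠ 0 := fun τ hτ => by
    rcases (hl τ hτ).2 with h | h <;> rw [h] <;> norm_num
  have hw : ∀ j : Fin (m+1), j ≠ 0 → 1 ≤ w j := by
    obtain ⟨τ, t, ht⟩ := List.exists_cons_of_ne_nil hne
    have hτ : τ ∈ l := by rw [ht]; exact List.mem_cons_self ..
    exact fun j hj => w_pos (hl τ hτ).1 (hdet0 τ hτ) m j hj (Nat.sub_le _ _)
  have hl1 : ∀ τ ∈ l, Sparse w τ := fun τ hτ => (hl τ hτ).1
  have hl2 : ∀ τ ∈ l, Sparse w τ ∧ ∀ j, τ j ≠ [] := fun τ hτ =>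
    ⟨(hl τ hτ).1, ne_nil_of_det (hdet0 τ hτ)⟩
  obtain ⟨u, f, Λ, hu, hf, hΛ, hMu, hfM⟩ := perron_data l hne fun τ hτ => ⟨hl1 τ hτ, hdet0 τ hτ⟩
  have hΛ4 := lam_ge l hne hl1 u hu Λ hMu
  have hult := u_lt l hne hl1 u hu Λ hΛ (by funext i; exact hMu i)
  have hdet : (inc (compList l)).det = 1 ∨ (inc (compList l)).det = -1 :=
    list_det l fun τ hτ => (hl τ hτ).2
  obtain ⟨M, hM⟩ : ∃ M, M = inc (compList l) := ⟨_, rfl⟩
  have hdetM : M.det ≠ 0 := by
    rw [hM]
    rcases hdet with h | h <;> rw [h] <;> norm_num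
  have hmonic : M.charpoly.Monic := M.charpoly_monic
  have hdeg : 0 < M.charpoly.natDegree := by
    rw [Matrix.charpoly_natDegree_eq_dim]
    simp
  have h0 : M.charpoly.coeff 0 ≠ 0 := by
    have h1 := Matrix.det_eq_sign_charpoly_coeff M
    rw [h1] at hdetM
    exact (mul_ne_zero_iff.1 hdetM).2
  have hcharT : (M.transpose.map (Int.cast : ℤ → ℂ)).charpoly =
      M.charpoly.map (Int.castRingHom ℂ) := by
    rw [charpoly_cast, Matrix.charpoly_transpose]
  have hrc : ∀ x, (M.transpose.map (Int.cast : ℤ → ℂ)).mulVec x = rc (compList l) x := by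
    intro x
    funext j
    unfold rc
    rw [hM]
    simp only [Matrix.mulVec, dotProduct, Matrix.map_apply, Matrix.transpose_apply]
    exact Finset.sum_congr rfl fun i _ => mul_comm _ _
  obtain ⟨F, hF⟩ : ∃ F : Fin (m+1) → ℂ, F = fun i => (f i : ℂ) := ⟨_, rfl⟩
  have hFM : rc (compList l) F = (Λ : ℂ) • F := by
    funext j
    unfold rc
    rw [hF]
    simp only [Pi.smul_apply, smul_eq_mul]
    rw [← Complex.ofReal_mul, ← hfM j]
    push_cast
    rfl
  have hFne : F ≠ 0 := by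
    intro h
    have h1 := congrFun h 0
    rw [hF] at h1
    simp only [Pi.zero_apply] at h1
    exact (hf 0).ne' (by exact_mod_cast h1)
  have hdot : ∀ x : Fin (m+1) → ℂ, ∑ j, rc (compList l) x j * (u j : ℂ) =
      Λ * ∑ i, x i * (u i : ℂ) := by
    intro x
    unfold rc
    simp only [Finset.sum_mul, Finset.mul_sum]
    rw [Finset.sum_comm]
    refine Finset.sum_congr rfl fun i _ => ?_
    have h1 : ∑ j, ((inc (compList l) i j : ℤ) : ℂ) * (u j : ℂ) = (Λ : ℂ) * (u i : ℂ) := by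
      rw [← Complex.ofReal_mul, ← hMu i]
      push_cast
      rfl
    calc ∑ j, x i * ((inc (compList l) i j : ℤ) : ℂ) * (u j : ℂ) =
        x i * ∑ j, ((inc (compList l) i j : ℤ) : ℂ) * (u j : ℂ) := by
          rw [Finset.mul_sum]
          exact Finset.sum_congr rfl fun j _ => by ring
      _ = _ := by rw [h1]; ring
  have hfu : (∑ i, F i * (u i : ℂ)) ≠ 0 := by
    have h1 : 0 < ∑ i, f i * u i := Finset.sum_pos (fun i _ => mul_pos (hf i) (hu i))
      Finset.univ_nonempty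
    have h2 : (∑ i, F i * (u i : ℂ)) = ((∑ i, f i * u i : ℝ) : ℂ) := by
      rw [hF]; push_cast; rfl
    rw [h2]
    exact_mod_cast h1.ne'
  have rc_sub : ∀ x y : Fin (m+1) → ℂ, rc (compList l) (x - y) =
      rc (compList l) x - rc (compList l) y := by
    intro x y
    rw [← hrc, ← hrc, ← hrc, Matrix.mulVec_sub]
  have key : ∀ (ν α : ℂ) (x : Fin (m+1) → ℂ), 1 ≤ ‖ν‖ →
      rc (compList l) x = ν • x + α • F → ∃ c : ℂ, x = c • F := by
    intro ν α x hν hx
    obtain ⟨c, hc⟩ : ∃ c, c = (∑ i, x i * (u i : ℂ)) / ∑ i, F i * (u i : ℂ) := ⟨_, rfl⟩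
    obtain ⟨y, hy⟩ : ∃ y, y = x - c • F := ⟨_, rfl⟩
    have hyu : ∑ i, y i * (u i : ℂ) = 0 := by
      rw [hy]
      simp only [Pi.sub_apply, Pi.smul_apply, smul_eq_mul, sub_mul, Finset.sum_sub_distrib]
      have h1 : ∑ i, c * F i * (u i : ℂ) = c * ∑ i, F i * (u i : ℂ) := by
        rw [Finset.mul_sum]
        exact Finset.sum_congr rfl fun i _ => by ring
      rw [h1, hc]
      field_simp
      ring
    have hyM : rc (compList l) y = ν • y + (ν * c + α - c * Λ) • F := by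
      rw [hy, rc_sub, rc_smul, hFM, hx]
      funext j
      simp only [Pi.sub_apply, Pi.add_apply, Pi.smul_apply, smul_eq_mul]
      ring
    have h1 := hdot y
    rw [hyu, mul_zero, hyM] at h1
    simp only [Pi.add_apply, Pi.smul_apply, smul_eq_mul, add_mul, Finset.sum_add_distrib] at h1
    have h2 : ∑ i, ν * y i * (u i : ℂ) = ν * ∑ i, y i * (u i : ℂ) := by
      rw [Finset.mul_sum]
      exact Finset.sum_congr rfl fun i _ => by ring
    have h3 : ∑ i, (ν * c + α - c * Λ) * F i * (u i : ℂ) =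
        (ν * c + α - c * Λ) * ∑ i, F i * (u i : ℂ) := by
      rw [Finset.mul_sum]
      exact Finset.sum_congr rfl fun i _ => by ring
    rw [h2, hyu, mul_zero, zero_add, h3] at h1
    have h4 := (mul_eq_zero.1 h1).resolve_right hfu
    rw [h4, zero_smul, add_zero] at hyM
    have h5 := decay hm hw l hne hl2 u hu hult ν hν y hyM hyu
    refine ⟨c, ?_⟩
    rw [hy] at h5
    exact sub_eq_zero.1 h5
  have hΛn : (1 : ℝ) ≤ ‖(Λ : ℂ)‖ := by
    rw [Complex.norm_real, Real.norm_eq_abs, abs_of_pos hΛ]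
    linarith
  have hothers : ∀ ν : ℂ, (M.charpoly.map (Int.castRingHom ℂ)).IsRoot ν → 1 ≤ ‖ν‖ →
      ν = (Λ : ℂ) := by
    intro ν hν hν1
    obtain ⟨x, hx, hxν⟩ := eig (M.transpose.map (Int.cast : ℤ → ℂ)) ν (by rw [hcharT]; exact hν)
    rw [hrc] at hxν
    obtain ⟨c, hc⟩ := key ν 0 x hν1 (by rw [hxν, zero_smul, add_zero])
    have h1 : (ν - Λ) • x = 0 := by
      rw [sub_smul, ← hxν, hc, rc_smul, hFM, smul_comm, sub_self]
    rcases smul_eq_zero.1 h1 with h2 | h2
    · exact sub_eq_zero.1 h2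
    · exact absurd h2 hx
  have hroot : (M.charpoly.map (Int.castRingHom ℂ)).IsRoot (Λ : ℂ) := by
    obtain ⟨μ, hμ, hμ1⟩ := exists_big_root M.charpoly hmonic hdeg h0
    rw [← hothers μ hμ hμ1]
    exact hμ
  have hsimple : (M.charpoly.map (Int.castRingHom ℂ)).rootMultiplicity (Λ : ℂ) ≤ 1 := by
    rw [← hcharT]
    refine simple_root _ (Λ : ℂ) F fun x hx => ?_
    obtain ⟨α, hα⟩ := hx
    rw [hrc] at hα
    exact key (Λ : ℂ) α x hΛn hα
  rw [← hM]
  refine ⟨?_, by rw [hM]; exact hdet, Λ, by linarith, by rw [charpoly_cast]; exact hroot, ?_⟩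
  · rw [charpoly_castQ]
    have h1 := irr_of_simple M.charpoly hmonic hdeg h0 (Λ : ℂ) hothers hsimple
    exact (hmonic.irreducible_iff_irreducible_map_fraction_map (K := ℚ)).1 h1
  · intro ν hν hne'
    refine ⟨?_, ?_⟩
    · rw [norm_pos_iff]
      rintro rfl
      have h6 : (((M).map (Int.cast : ℤ → ℂ)).charpoly).eval 0 = 0 := hν
      rw [charpoly_cast, ← Polynomial.coeff_zero_eq_eval_zero, Polynomial.coeff_map] at h6
      have h7 : M.charpoly.coeff 0 = 0 := by
        rw [eq_intCast] at h6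
        exact_mod_cast h6
      exact h0 h7
    · by_contra hcon
      push Not at hcon
      exact hne' (hothers ν (by rw [← charpoly_cast]; exact hν) hcon)

end Pool.Agent.K9h44.PL
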