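import Pool.Agent.K9h44.PL.Min

/-!
Substitutions with a frequent letter: relations, positions and heights.
-/

set_option autoImplicit false

namespace Pool.Agent.K9h44.PL
open Pool.Agent.H812R2.PI Pool.Agent.TH100.Pisot Pool.Agent.Y316.Pisot Pool.Agent.R889.PZ
open scoped BigOperators

variable {m : ℕ}

/-- The letter `0` is frequent, with weights `w j ≥ 1` for the letters `j ≥ 1`:
* the letters different from `0` in `τ 0` are adjacent (`τ 0 = 0^p v 0^q`, no `0` in `v`);
* the number of zeros in `τ 0` is at least `4` plus the total weight of the other letters;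
* for `j ≥ 1` the letters of `τ j` different from `0` are larger than `j`, and their total weight
  plus the number of zeros in `τ j` is at most `w j`. -/
structure Sparse (w : Fin (m+1) → ℕ) (τ : Fin (m+1) → List (Fin (m+1))) : Prop where
  zero : ∃ (p q : ℕ) (v : List (Fin (m+1))),
    τ 0 = List.replicate p 0 ++ v ++ List.replicate q 0 ∧ (0 : Fin (m+1)) ∉ v
  dom : ∑ i ∈ Finset.univ.erase 0, w i * (τ 0).count i + 4 ≤ (τ 0).count 0
  tri : ∀ j, j ≠ 0 → ∀ i ∈ τ j, i ≠ 0 → j < i
  wt : ∀ j, j ≠ 0 → (τ j).count 0 + ∑ i ∈ Finset.univ.erase 0, w i * (τ j).count i ≤ w j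

/-! ### positions -/

theorem ab_replicate (k : ℕ) : ab (List.replicate k (0 : Fin (m+1))) = (k : ℤ) • ev 0 := by
  induction k with
  | zero => simp [ab_nil]
  | succ k ih =>
    rw [List.replicate_succ, ab_cons, ih]
    push_cast
    rw [add_smul, one_smul]
    abel

theorem mem_edges_replicate (z : Fin (m+1) → ℤ) (q i : ℕ) (hi : i < q) :
    (z + (i : ℤ) • ev 0, (0 : Fin (m+1))) ∈ edges z (List.replicate q 0) := by
  refine mem_edges.2 ⟨i, by simpa using hi, ?_⟩
  rw [List.take_replicate, min_eq_left hi.le, ab_replicate]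
  simp

section pos
variable {τ : Fin (m+1) → List (Fin (m+1))} {p q : ℕ} {v : List (Fin (m+1))}

theorem edge_left (h : τ 0 = List.replicate p 0 ++ v ++ List.replicate q 0) (i : ℕ) (hi : i < p) :
    ((i : ℤ) • ev 0, (0 : Fin (m+1))) ∈ edges 0 (τ 0) := by
  rw [h, edges_append, edges_append, List.mem_append, List.mem_append]
  left; left
  have := mem_edges_replicate (0 : Fin (m+1) → ℤ) p i hi
  rwa [zero_add] at this

theorem edge_right (h : τ 0 = List.replicate p 0 ++ v ++ List.replicate q 0) (i : ℕ) (hi : i < q) :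
    ((p : ℤ) • ev 0 + ab v + (i : ℤ) • ev 0, (0 : Fin (m+1))) ∈ edges 0 (τ 0) := by
  rw [h, edges_append, List.mem_append]
  right
  rw [ab_append, ab_replicate, zero_add]
  exact mem_edges_replicate _ q i hi

theorem mulVec_ev_zero (h : τ 0 = List.replicate p 0 ++ v ++ List.replicate q 0) :
    (inc τ).mulVec (ev 0) = (p : ℤ) • ev 0 + ab v + (q : ℤ) • ev 0 := by
  rw [← ab_subst, h, ab_append, ab_append, ab_replicate, ab_replicate]

theorem QQ_run_nat (h : τ 0 = List.replicate p 0 ++ v ++ List.replicate q 0) (x : ℕ)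
    (hx : x < max p q) : (x : ℤ) • ev 0 ∈ QQ (τ 0) := by
  rcases lt_max_iff.1 hx with h1 | h1
  · refine ⟨_, _, edge_left h x h1, edge_left h 0 (by omega), ?_⟩
    simp
  · refine ⟨_, _, edge_right h x h1, edge_right h 0 (by omega), ?_⟩
    simp

theorem QQ_run (h : τ 0 = List.replicate p 0 ++ v ++ List.replicate q 0) (x : ℤ)
    (hx : |x| < max p q) : x • ev 0 ∈ QQ (τ 0) := by
  rcases le_total 0 x with h0 | h0
  · have h1 := QQ_run_nat h x.toNat (by
      rw [abs_of_nonneg h0] at hx
      omega)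
    rwa [Int.toNat_of_nonneg h0] at h1
  · have h1 := QQ_neg (QQ_run_nat h (-x).toNat (by
      rw [abs_of_nonpos h0] at hx
      omega))
    rw [Int.toNat_of_nonneg (by omega), neg_smul, neg_neg] at h1
    exact h1

theorem QQ_cyc (h : τ 0 = List.replicate p 0 ++ v ++ List.replicate q 0) (hp : 1 ≤ p) (hq : 1 ≤ q)
    (x : ℤ) (h1 : 1 ≤ x) (h2 : x < p + q) :
    (-x) • ev 0 + (1 : ℤ) • (inc τ).mulVec (ev 0) ∈ QQ (τ 0) := by
  rw [mulVec_ev_zero h]
  -- choose `i < p` and `j < q` with `q - j + i = x`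
  obtain ⟨i, j, hi, hj, hij⟩ : ∃ i j : ℕ, i < p ∧ j < q ∧ (q : ℤ) - j + i = x := by
    rcases le_or_gt x q with hxq | hxq
    · exact ⟨0, (q - x).toNat, by omega, by omega, by omega⟩
    · exact ⟨(x - q).toNat, 0, by omega, by omega, by omega⟩
  refine ⟨_, _, edge_right h j hj, edge_left h i hi, ?_⟩
  rw [← hij, one_smul, neg_smul, add_smul, sub_smul]
  abel

theorem count_zero_eq (h : τ 0 = List.replicate p 0 ++ v ++ List.replicate q 0)
    (hv : (0 : Fin (m+1)) ∉ v) : (τ 0).count 0 = p + q := by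
  rw [h, List.count_append, List.count_append, List.count_replicate_self,
    List.count_replicate_self, List.count_eq_zero_of_not_mem hv]
  omega

theorem cap_zero (h : τ 0 = List.replicate p 0 ++ v ++ List.replicate q 0) (x : ℤ)
    (hx : |x| < p + q) :
    ∃ ε : ℤ, |ε| ≤ 1 ∧ x • ev 0 + ε • (inc τ).mulVec (ev 0) ∈ QQ (τ 0) := by
  by_cases h1 : |x| < max p q
  · exact ⟨0, by simp, by rw [zero_smul, add_zero]; exact QQ_run h x h1⟩
  · have h2 : ((max p q : ℕ) : ℤ) ≤ |x| := not_lt.1 (by exact_mod_cast h1)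
    have hp : 1 ≤ p := by
      by_contra hcon
      have : p = 0 := by omega
      subst this
      simp at h2 hx
      omega
    have hq : 1 ≤ q := by
      by_contra hcon
      have : q = 0 := by omega
      subst this
      simp at h2 hx
      omega
    rcases le_total 0 x with h0 | h0
    · rw [abs_of_nonneg h0] at h2 hx
      refine ⟨-1, by simp, ?_⟩
      have h3 := QQ_neg (QQ_cyc h hp hq x (by omega) hx)
      convert h3 using 1
      rw [neg_smul, neg_smul]
      abel
    · rw [abs_of_nonpos h0] at h2 hx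
      refine ⟨1, by simp, ?_⟩
      have h3 := QQ_cyc h hp hq (-x) (by omega) hx
      rwa [neg_neg] at h3

/-- the digits at the top -/
theorem top_zero (h : τ 0 = List.replicate p 0 ++ v ++ List.replicate q 0) (Λ h' : ℝ)
    (hpq : 4 ≤ p + q) (hΛ1 : ((p + q : ℕ) : ℝ) ≤ Λ) (hΛ2 : Λ ≤ 5 / 4 * ((p + q : ℕ) : ℝ) - 1)
    (hh : |h'| ≤ 2 / 3) :
    ∃ g : ℤ, ∀ x : ℤ, |Λ * (h' - g) - x| < 1 →
        x • ev 0 + g • (inc τ).mulVec (ev 0) ∈ QQ (τ 0) := by
  have hpq' : (4 : ℝ) ≤ ((p + q : ℕ) : ℝ) := by exact_mod_cast hpq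
  have hmax : ((p + q : ℕ) : ℝ) ≤ 2 * ((max p q : ℕ) : ℝ) := by
    have : p + q ≤ 2 * max p q := by omega
    exact_mod_cast this
  by_cases h1 : Λ * |h'| ≤ ((max p q : ℕ) : ℝ) - 1
  · refine ⟨0, fun x hx => ?_⟩
    rw [zero_smul, add_zero]
    apply QQ_run h
    rw [Int.cast_zero, sub_zero] at hx
    have h2 : |(x : ℝ)| < ((max p q : ℕ) : ℝ) := by
      have h3 : |(x : ℝ)| ≤ |Λ * h'| + |Λ * h' - x| := by
        have := abs_sub (Λ * h') (Λ * h' - x)
        rwa [sub_sub_cancel] at this
      rw [abs_mul, abs_of_nonneg (show 0 ≤ Λ by linarith)] at h3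
      linarith
    have h3 : ((|x| : ℤ) : ℝ) < (((max p q : ℕ) : ℤ) : ℝ) := by
      rw [Int.cast_abs]
      exact_mod_cast h2
    exact_mod_cast h3
  · push Not at h1
    have hsm : Λ * |h'| ≤ Λ * (2 / 3) := mul_le_mul_of_nonneg_left hh (by linarith)
    have hp : 1 ≤ p := by
      by_contra hcon
      have h2 : max p q = p + q := by omega
      rw [h2] at h1
      linarith
    have hq : 1 ≤ q := by
      by_contra hcon
      have h2 : max p q = p + q := by omega
      rw [h2] at h1
      linarith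
    rcases le_total 0 h' with h0 | h0
    · rw [abs_of_nonneg h0] at h1 hsm
      refine ⟨1, fun x hx => ?_⟩
      rw [Int.cast_one] at hx
      have h3 := abs_lt.1 hx
      have h4 : Λ * (h' - 1) = Λ * h' - Λ := by ring
      rw [h4] at h3
      have h5 : (x : ℝ) < 0 := by linarith [h3.1]
      have h6 : -((p + q : ℕ) : ℝ) < (x : ℝ) := by linarith [h3.2]
      have h7 : x < 0 := by exact_mod_cast h5
      have h8 : -((p + q : ℕ) : ℤ) < x := by exact_mod_cast h6
      have h9 := QQ_cyc h hp hq (-x) (by omega) (by omega)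
      rwa [neg_neg] at h9
    · rw [abs_of_nonpos h0] at h1 hsm
      refine ⟨-1, fun x hx => ?_⟩
      have h3 := abs_lt.1 hx
      have h4 : Λ * (h' - ((-1 : ℤ) : ℝ)) = Λ * h' + Λ := by push_cast; ring
      rw [h4] at h3
      have h5 : 0 < (x : ℝ) := by linarith [h3.2]
      have h6 : (x : ℝ) < ((p + q : ℕ) : ℝ) := by linarith [h3.1]
      have h7 : 0 < x := by exact_mod_cast h5
      have h8 : x < ((p + q : ℕ) : ℤ) := by exact_mod_cast h6
      have h9 := QQ_neg (QQ_cyc h hp hq x (by omega) (by omega))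
      convert h9 using 1
      rw [neg_smul, neg_smul]
      abel

end pos

/-! ### relations -/

section rel
variable {w : Fin (m+1) → ℕ} {τ : ℕ → Fin (m+1) → List (Fin (m+1))}

/-- a linear combination of columns has an expansion if the columns have -/
theorem lin_exp (K : ℕ) (c : Fin (m+1) → ℤ)
    (h : ∀ i, i ≠ 0 → c i ≠ 0 → ∃ R : ℕ → ℤ,
      val τ R K = (inc (cps τ K)).mulVec (ev i) ∧ ∑ k ∈ Finset.range K, |R k| ≤ w i) :
    ∃ R : ℕ → ℤ, val τ R K = (inc (cps τ K)).mulVec c - c 0 • pv τ K ∧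
      ∑ k ∈ Finset.range K, |R k| ≤ ∑ i ∈ Finset.univ.erase 0, w i * |c i| := by
  have h1 : ∀ i, ∃ R : ℕ → ℤ, i ≠ 0 → c i ≠ 0 →
      val τ R K = (inc (cps τ K)).mulVec (ev i) ∧ ∑ k ∈ Finset.range K, |R k| ≤ w i := by
    intro i
    by_cases hi : i ≠ 0 ∧ c i ≠ 0
    · obtain ⟨R, hR⟩ := h i hi.1 hi.2
      exact ⟨R, fun _ _ => hR⟩
    · exact ⟨0, fun h2 h3 => absurd ⟨h2, h3⟩ hi⟩
  choose R hR using h1
  refine ⟨fun k => ∑ i ∈ Finset.univ.erase 0, c i * R i k, ?_, ?_⟩
  · have h2 : val τ (fun k => ∑ i ∈ Finset.univ.erase 0, c i * R i k) K =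
        ∑ i ∈ Finset.univ.erase 0, c i • val τ (R i) K := by
      unfold val
      simp only [Finset.sum_smul, Finset.smul_sum, mul_smul]
      rw [Finset.sum_comm]
    rw [h2]
    have h3 : c = ∑ i, c i • ev i := by
      funext j
      simp [ev]
    have h4 : (inc (cps τ K)).mulVec c = ∑ i, c i • (inc (cps τ K)).mulVec (ev i) := by
      conv_lhs => rw [h3]
      rw [Matrix.mulVec_sum]
      exact Finset.sum_congr rfl fun i _ => mulVec_zsmul _ _ _
    rw [h4, ← Finset.add_sum_erase _ _ (Finset.mem_univ (0 : Fin (m+1)))]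
    change _ = c 0 • pv τ K + _ - _
    rw [add_sub_cancel_left]
    refine Finset.sum_congr rfl fun i hi => ?_
    by_cases hc : c i = 0
    · rw [hc, zero_smul, zero_smul]
    · rw [(hR i (Finset.ne_of_mem_erase hi) hc).1]
  · calc ∑ k ∈ Finset.range K, |∑ i ∈ Finset.univ.erase 0, c i * R i k| ≤
        ∑ k ∈ Finset.range K, ∑ i ∈ Finset.univ.erase 0, |c i| * |R i k| := by
          refine Finset.sum_le_sum fun k _ => (Finset.abs_sum_le_sum_abs _ _).trans ?_
          exact Finset.sum_le_sum fun i _ => (abs_mul _ _).le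
      _ = ∑ i ∈ Finset.univ.erase 0, |c i| * ∑ k ∈ Finset.range K, |R i k| := by
          rw [Finset.sum_comm]
          exact Finset.sum_congr rfl fun i _ => (Finset.mul_sum _ _ _).symm
      _ ≤ _ := by
          refine Finset.sum_le_sum fun i hi => ?_
          by_cases hc : c i = 0
          · rw [hc, abs_zero, zero_mul, mul_zero]
          · rw [mul_comm]
            exact mul_le_mul_of_nonneg_right (hR i (Finset.ne_of_mem_erase hi) hc).2
              (abs_nonneg _)

theorem mulVec_ev (M : Matrix (Fin (m+1)) (Fin (m+1)) ℤ) (j : Fin (m+1)) :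
    M.mulVec (ev j) = fun i => M i j := by
  funext i
  simp [Matrix.mulVec, dotProduct, ev]

/-- expansions of the columns -/
theorem col_exp (hτ : ∀ k, Sparse w (τ k)) (K : ℕ) : ∀ j : Fin (m+1), j ≠ 0 → m + 1 ≤ K + j →
    ∃ R : ℕ → ℤ, val τ R K = (inc (cps τ K)).mulVec (ev j) ∧
      ∑ k ∈ Finset.range K, |R k| ≤ w j := by
  induction K with
  | zero =>
    intro j _ h
    have := j.2
    omega
  | succ K ih =>
    intro j hj hK
    obtain ⟨R, hR1, hR2⟩ := lin_exp (w := w) (τ := τ) K ((inc (τ K)).mulVec (ev j)) (by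
      intro i hi hc
      refine ih i hi ?_
      rw [mulVec_ev] at hc
      have h1 : i ∈ τ K j := by
        rw [← List.count_pos_iff]
        simp only [inc] at hc
        omega
      have h2 : j < i := (hτ K).tri j hj i h1 hi
      have h3 : (j : ℕ) < i := h2
      omega)
    refine ⟨fun k => if k < K then R k else (inc (τ K)) 0 j, ?_, ?_⟩
    · rw [val_succ, inc_cps_succ, ← Matrix.mulVec_mulVec]
      have h1 : val τ (fun k => if k < K then R k else (inc (τ K)) 0 j) K = val τ R K := by
        unfold val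
        refine Finset.sum_congr rfl fun k hk => ?_
        simp only [if_pos (Finset.mem_range.1 hk)]
      rw [h1, hR1]
      simp only [if_neg (lt_irrefl K)]
      have h2 : (inc (τ K)).mulVec (ev j) 0 = (inc (τ K)) 0 j := by rw [mulVec_ev]
      rw [h2, sub_add_cancel]
    · rw [Finset.sum_range_succ]
      simp only [if_neg (lt_irrefl K)]
      have h1 : ∑ k ∈ Finset.range K, |if k < K then R k else (inc (τ K)) 0 j| =
          ∑ k ∈ Finset.range K, |R k| := by
        refine Finset.sum_congr rfl fun k hk => ?_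
        rw [if_pos (Finset.mem_range.1 hk)]
      rw [h1]
      have h2 := (hτ K).wt j hj
      have h3 : ∑ i ∈ Finset.univ.erase 0, (w i : ℤ) * |(inc (τ K)).mulVec (ev j) i| =
          ((∑ i ∈ Finset.univ.erase 0, w i * (τ K j).count i : ℕ) : ℤ) := by
        push_cast
        refine Finset.sum_congr rfl fun i _ => ?_
        rw [mulVec_ev]
        simp [inc]
      rw [h3] at hR2
      have h4 : |(inc (τ K)) 0 j| = (((τ K j).count 0 : ℕ) : ℤ) := by simp [inc]
      rw [h4]
      omega

/-- the system of relations -/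
theorem sys (hτ : ∀ k, Sparse w (τ k)) (hdet : ∀ k, (inc (τ k)).det = 1 ∨ (inc (τ k)).det = -1) :
    Sys τ (fun k => (((τ k 0).count 0 : ℕ) : ℤ))
      (fun k => ((∑ i ∈ Finset.univ.erase 0, w i * (τ k 0).count i : ℕ) : ℤ)) m := by
  refine ⟨?_, ?_, ?_, ?_, ?_⟩
  · intro K hK
    obtain ⟨R, hR1, hR2⟩ := lin_exp (w := w) (τ := τ) K ((inc (τ K)).mulVec (ev 0)) (by
      intro i hi _
      refine col_exp hτ K i hi ?_
      have : 0 < (i : ℕ) := Nat.pos_of_ne_zero fun h => hi (Fin.ext h)
      omega)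
    refine ⟨R, ?_, ?_⟩
    · rw [hR1, pv_succ]
      congr 2
      rw [mulVec_ev]
      rfl
    · refine hR2.trans (le_of_eq ?_)
      push_cast
      refine Finset.sum_congr rfl fun i _ => ?_
      rw [mulVec_ev]
      simp [inc]
  · intro K
    positivity
  · intro K
    have := (hτ K).dom
    omega
  · refine ⟨m + 1, fun x => ?_⟩
    have hd : ∀ n, IsUnit (inc (cps τ n)).det := by
      intro n
      induction n with
      | zero => rw [cps_zero, JComp_inc_id, Matrix.det_one]; exact isUnit_one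
      | succ n ih =>
        rw [inc_cps_succ, Matrix.det_mul]
        refine ih.mul ?_
        rcases hdet n with h | h <;> rw [h]
        · exact isUnit_one
        · exact isUnit_one.neg
    obtain ⟨y, hy⟩ : ∃ y, (inc (cps τ m)).mulVec y = x := by
      refine ⟨(inc (cps τ m))⁻¹.mulVec x, ?_⟩
      rw [Matrix.mulVec_mulVec, Matrix.mul_nonsing_inv _ (hd m), Matrix.one_mulVec]
    obtain ⟨R, hR1, -⟩ := lin_exp (w := w) (τ := τ) m y (by
      intro i hi _
      refine col_exp hτ m i hi ?_
      have : 0 < (i : ℕ) := Nat.pos_of_ne_zero fun h => hi (Fin.ext h)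
      omega)
    refine ⟨fun k => if k < m then R k else y 0, ?_⟩
    rw [val_succ]
    have h1 : val τ (fun k => if k < m then R k else y 0) m = val τ R m := by
      unfold val
      refine Finset.sum_congr rfl fun k hk => ?_
      simp only [if_pos (Finset.mem_range.1 hk)]
    rw [h1, hR1]
    simp only [if_neg (lt_irrefl m)]
    rw [sub_add_cancel, hy]
  · intro k x hx
    obtain ⟨p, q, v, h, hv⟩ := (hτ k).zero
    apply cap_zero h
    have h1 := (hτ k).dom
    have h2 := count_zero_eq h hv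
    omega

end rel

end Pool.Agent.K9h44.PL
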