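import Pool.Agent.K9h44.PL.Cost

/-!
Differences of positions of a letter in a word: choosing a window with few other letters.
-/

set_option autoImplicit false

namespace Pool.Agent.K9h44.PL
open Pool.Agent.H812R2.PI Pool.Agent.TH100.Pisot Pool.Agent.Y316.Pisot Pool.Agent.R889.PZ
open scoped BigOperators

variable {m : ℕ}

theorem nth_zero (W : List (Fin (m+1))) : ∀ x : ℕ, x < W.count 0 →
    ∃ W1 W2, W = W1 ++ 0 :: W2 ∧ W1.count 0 = x := by
  induction W with
  | nil => intro x hx; simp at hx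
  | cons c W ih =>
    intro x hx
    by_cases hc : c = 0
    · subst hc
      rcases Nat.eq_zero_or_pos x with h0 | h0
      · exact ⟨[], W, rfl, by rw [h0]; rfl⟩
      · rw [List.count_cons_self] at hx
        obtain ⟨W1, W2, h1, h2⟩ := ih (x - 1) (by omega)
        refine ⟨0 :: W1, W2, by rw [h1]; rfl, ?_⟩
        rw [List.count_cons_self]
        omega
    · rw [List.count_cons_of_ne (by exact hc)] at hx
      obtain ⟨W1, W2, h1, h2⟩ := ih x hx
      exact ⟨c :: W1, W2, by rw [h1]; rfl, by rw [List.count_cons_of_ne (by exact hc)]; exact h2⟩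

theorem edge_mem (W1 W2 : List (Fin (m+1))) :
    (ab W1, (0 : Fin (m+1))) ∈ edges 0 (W1 ++ 0 :: W2) := by
  rw [edges_append, List.mem_append]
  right
  simp [edges]

theorem prefix_mono {W W1 W2 V1 V2 : List (Fin (m+1))} (h1 : W = W1 ++ 0 :: W2)
    (h2 : W = V1 ++ 0 :: V2) (h : W1.count 0 ≤ V1.count 0) : W1 <+: V1 := by
  have p1 : W1 <+: W := ⟨0 :: W2, h1.symm⟩
  have p2 : V1 <+: W := ⟨0 :: V2, h2.symm⟩
  rcases List.prefix_or_prefix_of_prefix p1 p2 with h3 | h3
  · exact h3
  · obtain ⟨t, ht⟩ := h3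
    cases t with
    | nil => rw [List.append_nil] at ht; rw [ht]
    | cons c t =>
      have h4 : (c :: t) ++ 0 :: W2 = 0 :: V2 := by
        have h5 := h1.symm.trans h2
        rw [← ht, List.append_assoc] at h5
        exact List.append_cancel_left h5
      have hc : c = 0 := by
        rw [List.cons_append] at h4
        exact (List.cons.inj h4).1
      rw [← ht, hc, List.count_append, List.count_cons_self] at h
      omega

/-- a window with few other letters -/
theorem window_nat (W : List (Fin (m+1))) (w : Fin (m+1) → ℝ) (hw : ∀ i, 0 ≤ w i) (x : ℕ)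
    (hx : x < W.count 0) :
    ∃ d : Fin (m+1) → ℤ, d 0 = 0 ∧ (∀ i, |d i| ≤ (W.count i : ℤ)) ∧
      (x : ℤ) • ev 0 + d ∈ QQ W ∧
      ((W.count 0 : ℝ) - x) * ∑ i ∈ Finset.univ.erase 0, w i * |(d i : ℝ)| ≤
        x * ∑ i ∈ Finset.univ.erase 0, w i * (W.count i : ℝ) := by
  have h0 := nth_zero W
  choose! P Q hPQ hcnt using h0
  obtain ⟨a, ha⟩ : ∃ a, a = W.count 0 := ⟨_, rfl⟩
  rw [← ha] at hPQ hcnt hx
  obtain ⟨f, hf⟩ : ∃ f : ℕ → ℝ, f = fun s =>
    ∑ i ∈ Finset.univ.erase (0 : Fin (m+1)), w i * ((P s).count i : ℝ) := ⟨_, rfl⟩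
  obtain ⟨F, hF⟩ : ∃ F : ℝ, F = ∑ i ∈ Finset.univ.erase (0 : Fin (m+1)), w i * (W.count i : ℝ) :=
    ⟨_, rfl⟩
  have hcle : ∀ s, s < a → ∀ i, (P s).count i ≤ W.count i := by
    intro s hs i
    conv_rhs => rw [hPQ s hs]
    rw [List.count_append]
    exact Nat.le_add_right _ _
  have hf0 : ∀ s, 0 ≤ f s := fun s => by
    rw [hf]
    exact Finset.sum_nonneg fun i _ => mul_nonneg (hw i) (Nat.cast_nonneg _)
  have hfF : ∀ s, s < a → f s ≤ F := fun s hs => by
    rw [hf, hF]
    refine Finset.sum_le_sum fun i _ => mul_le_mul_of_nonneg_left ?_ (hw i)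
    exact_mod_cast hcle s hs i
  have hmono : ∀ s t, s ≤ t → t < a → ∀ i, (P s).count i ≤ (P t).count i := by
    intro s t hst ht i
    have h1 : P s <+: P t := prefix_mono (hPQ s (by omega)) (hPQ t ht) (by
      rw [hcnt s (by omega), hcnt t ht]
      exact hst)
    obtain ⟨u, hu⟩ := h1
    rw [← hu, List.count_append]
    exact Nat.le_add_right _ _
  -- averaging
  obtain ⟨s, hs, hs'⟩ : ∃ s ∈ Finset.range (a - x), ((a : ℝ) - x) * (f (x + s) - f s) ≤ x * F := by
    refine Finset.exists_le_of_sum_le ⟨0, Finset.mem_range.2 (by omega)⟩ ?_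
    rw [← Finset.mul_sum, Finset.sum_const, Finset.card_range, nsmul_eq_mul,
      Nat.cast_sub hx.le]
    refine mul_le_mul_of_nonneg_left ?_ (by
      have : (x : ℝ) < a := by exact_mod_cast hx
      linarith)
    rw [Finset.sum_sub_distrib]
    have e1 : ∑ k ∈ Finset.range (x + (a - x)), f k =
        ∑ k ∈ Finset.range x, f k + ∑ k ∈ Finset.range (a - x), f (x + k) :=
      Finset.sum_range_add f x (a - x)
    have e2 : ∑ k ∈ Finset.range ((a - x) + x), f k =
        ∑ k ∈ Finset.range (a - x), f k + ∑ k ∈ Finset.range x, f ((a - x) + k) :=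
      Finset.sum_range_add f (a - x) x
    rw [add_comm (a - x) x, e1] at e2
    have e3 : 0 ≤ ∑ k ∈ Finset.range x, f k := Finset.sum_nonneg fun k _ => hf0 k
    have e4 : ∑ k ∈ Finset.range x, f ((a - x) + k) ≤ x * F := by
      refine (Finset.sum_le_sum (g := fun _ => F) fun k hk => hfF _ ?_).trans (le_of_eq ?_)
      · have := Finset.mem_range.1 hk
        omega
      · rw [Finset.sum_const, Finset.card_range, nsmul_eq_mul]
    linarith
  have hsx : x + s < a := by
    have := Finset.mem_range.1 hs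
    omega
  refine ⟨ab (P (x + s)) - ab (P s) - (x : ℤ) • ev 0, ?_, ?_, ?_, ?_⟩
  · simp only [Pi.sub_apply, Pi.smul_apply, ab, ev, if_true, hcnt _ hsx,
      hcnt s (show s < a by omega), smul_eq_mul]
    push_cast
    ring
  · intro i
    have h1 := hmono s (x + s) (by omega) hsx i
    have h2 := hcle (x + s) hsx i
    by_cases hi : i = 0
    · subst hi
      simp only [Pi.sub_apply, Pi.smul_apply, ab, ev, if_true, hcnt _ hsx,
        hcnt s (show s < a by omega), smul_eq_mul]
      rw [abs_le]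
      push_cast
      constructor <;> omega
    · simp only [Pi.sub_apply, Pi.smul_apply, ab, ev, if_neg hi, smul_eq_mul, mul_zero, sub_zero]
      rw [abs_le]
      constructor <;> omega
  · refine ⟨ab (P (x + s)), ab (P s), ?_, ?_, by abel⟩
    · have h1 := edge_mem (P (x + s)) (Q (x + s))
      rwa [← hPQ _ hsx] at h1
    · have h1 := edge_mem (P s) (Q s)
      rwa [← hPQ s (by omega)] at h1
  · rw [← ha, ← hF]
    refine le_trans (le_of_eq ?_) hs'
    congr 1
    rw [hf]
    simp only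
    rw [← Finset.sum_sub_distrib]
    refine Finset.sum_congr rfl fun i hi => ?_
    have hi0 := Finset.ne_of_mem_erase hi
    have h1 := hmono s (x + s) (by omega) hsx i
    simp only [Pi.sub_apply, Pi.smul_apply, ab, ev, if_neg hi0, smul_eq_mul, mul_zero, sub_zero]
    push_cast
    have h2 : ((P s).count i : ℝ) ≤ ((P (x + s)).count i : ℝ) := by exact_mod_cast h1
    rw [abs_of_nonneg (by linarith)]
    ring

theorem window (W : List (Fin (m+1))) (w : Fin (m+1) → ℝ) (hw : ∀ i, 0 ≤ w i) (x : ℤ)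
    (hx : |x| < W.count 0) :
    ∃ d : Fin (m+1) → ℤ, d 0 = 0 ∧ (∀ i, |d i| ≤ (W.count i : ℤ)) ∧
      x • ev 0 + d ∈ QQ W ∧
      ((W.count 0 : ℝ) - |(x : ℝ)|) * ∑ i ∈ Finset.univ.erase 0, w i * |(d i : ℝ)| ≤
        |(x : ℝ)| * ∑ i ∈ Finset.univ.erase 0, w i * (W.count i : ℝ) := by
  rcases le_total 0 x with h0 | h0
  · have hxn : ((x.toNat : ℕ) : ℤ) = x := Int.toNat_of_nonneg h0
    rw [abs_of_nonneg h0] at hx
    obtain ⟨d, h1, h2, h3, h4⟩ := window_nat W w hw x.toNat (by omega)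
    refine ⟨d, h1, h2, by rwa [hxn] at h3, ?_⟩
    have h5 : ((x.toNat : ℕ) : ℝ) = |(x : ℝ)| := by
      rw [abs_of_nonneg (by exact_mod_cast h0)]
      exact_mod_cast hxn
    rwa [h5] at h4
  · have hxn : (((-x).toNat : ℕ) : ℤ) = -x := Int.toNat_of_nonneg (by omega)
    rw [abs_of_nonpos h0] at hx
    obtain ⟨d, h1, h2, h3, h4⟩ := window_nat W w hw (-x).toNat (by omega)
    refine ⟨-d, by rw [Pi.neg_apply, h1, neg_zero], fun i => ?_, ?_, ?_⟩
    · rw [Pi.neg_apply, abs_neg]
      exact h2 i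
    · have h5 := QQ_neg h3
      rw [hxn] at h5
      convert h5 using 1
      rw [neg_smul]
      abel
    · have h5 : (((-x).toNat : ℕ) : ℝ) = |(x : ℝ)| := by
        rw [abs_of_nonpos (by exact_mod_cast h0)]
        exact_mod_cast hxn
      rw [h5] at h4
      simp only [Pi.neg_apply, Int.cast_neg, abs_neg]
      exact h4

theorem zero_mem_QQ (W : List (Fin (m+1))) (h : 0 < W.count 0) : (0 : Fin (m+1) → ℤ) ∈ QQ W := by
  obtain ⟨V1, V2, h3, -⟩ := nth_zero W 0 h
  refine ⟨ab V1, ab V1, ?_, ?_, by simp⟩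
  · rw [h3]; exact edge_mem V1 V2
  · rw [h3]; exact edge_mem V1 V2

end Pool.Agent.K9h44.PL
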